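import Pool.Agent.Work.MP_e5cb06_gt.Step

/-!
# Construction of the Boolean algebra by transfinite recursion
-/

set_option autoImplicit false

open Set
open Cardinal hiding univ

namespace Pool.Agent.Work.MP_e5cb06_gt

open Dyn

/-- basic sets: singletons and level classes -/
def basic : Set (Set ℕ) :=
  (range fun n : ℕ => ({n} : Set ℕ)) ∪ range fun p : ℕ × ℕ => {n | 1 ≤ n ∧ Nat.log 2 n % p.1 = p.2}

theorem basic_countable : basic.Countable :=
  (countable_range _).union (countable_range _)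

theorem exists_ev' {G : Set (Set ℕ)} {s : Set ℕ} (hs : Gen G s) :
    ∃ t : Tm (G ∪ basic : Set (Set ℕ)), ev ∅ t = s := by
  induction hs with
  | base h => exact ⟨⟨.inl ⟨_, Or.inl h⟩, Empty.elim⟩, rfl⟩
  | atom n => exact ⟨⟨.inl ⟨_, Or.inr (Or.inl ⟨n, rfl⟩)⟩, Empty.elim⟩, rfl⟩
  | lev m r => exact ⟨⟨.inl ⟨_, Or.inr (Or.inr ⟨(m, r), rfl⟩)⟩, Empty.elim⟩, rfl⟩
  | compl _ ih =>
    obtain ⟨t, rfl⟩ := ih
    exact ⟨⟨.inr .compl, fun _ => t⟩, rfl⟩
  | inter _ _ ih1 ih2 =>
    obtain ⟨t1, rfl⟩ := ih1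
    obtain ⟨t2, rfl⟩ := ih2
    exact ⟨⟨.inr .inter, fun b => match b with | true => t1 | false => t2⟩, rfl⟩
  | im b _ ih =>
    obtain ⟨t, rfl⟩ := ih
    exact ⟨⟨.inr (.im b), fun _ => t⟩, rfl⟩
  | pre b _ ih =>
    obtain ⟨t, rfl⟩ := ih
    exact ⟨⟨.inr (.pre b), fun _ => t⟩, rfl⟩

theorem mk_gen_lt {G : Set (Set ℕ)} (hG : #G < 𝔠) : #{s | Gen G s} < 𝔠 := by
  have h1 : #(G ∪ basic : Set (Set ℕ)) < 𝔠 :=
    (mk_union_le _ _).trans_lt (add_lt_of_lt aleph0_le_continuum hG
      ((le_aleph0_iff_set_countable.2 basic_countable).trans_lt aleph0_lt_continuum))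
  refine lt_of_le_of_lt ?_ (mk_Tm_lt h1)
  have h2 : {s | Gen G s} ⊆ range (ev (G := (G ∪ basic : Set (Set ℕ))) ∅) := fun s hs =>
    exists_ev' hs
  exact (mk_le_mk_of_subset h2).trans mk_range_le

theorem not_sep_univ (C : Set ℕ) : ¬ Sep C univ univ := by
  rintro ⟨h1, h2⟩
  apply infinite_univ (α := ℕ)
  have : (univ : Set ℕ) = (univ \ C) ∪ (univ ∩ C) := by
    ext x; by_cases hx : x ∈ C <;> simp [hx]
  rw [this]
  exact h1.union h2

/-- tasks -/
abbrev Task : Type := (ℕ → ℕ) × (ℕ → Set ℕ)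

/-- data chosen at each stage: a new set and a new promise -/
abbrev Dat : Type := Set ℕ × (Set ℕ × Set ℕ)

/-- what is required of the data chosen at a stage -/
def Good (B : Set (Set ℕ)) (P : Set (Set ℕ × Set ℕ)) (t : Task) (d : Dat) : Prop :=
  NoFlow {s | Gen (insert d.1 B) s} ∧
  (∀ p ∈ insert d.2 P, ∀ C, Gen (insert d.1 B) C → ¬ Sep C p.1 p.2) ∧
  (Separated t.1 t.2 → (∀ k, t.2 k ∈ B) →
    ∃ I : Set ℕ, I.Infinite ∧ d.1 = U t.2 I ∧ d.2 = (t.1 '' I, t.1 '' Iᶜ))

theorem exists_good {B : Set (Set ℕ)} (hB : Closed B) (hcard : #B < 𝔠) (hflow : NoFlow B)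
    {P : Set (Set ℕ × Set ℕ)} (hP : #P < 𝔠) (hsep : ∀ p ∈ P, ∀ C ∈ B, ¬ Sep C p.1 p.2)
    (t : Task) : ∃ d, Good B P t d := by
  by_cases h : Separated t.1 t.2 ∧ ∀ k, t.2 k ∈ B
  · obtain ⟨I, hI, h1, h2⟩ := step hB hcard hflow hP hsep h.1 h.2
    exact ⟨(U t.2 I, (t.1 '' I, t.1 '' Iᶜ)), h1, h2, fun _ _ => ⟨I, hI, rfl, rfl⟩⟩
  · have hins : insert ∅ B = B := insert_eq_of_mem hB.empty
    refine ⟨(∅, (univ, univ)), ?_, ?_, fun h1 h2 => absurd ⟨h1, h2⟩ h⟩
    · have : {s | Gen (insert ∅ B) s} = B := by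
        rw [hins]
        ext s
        exact ⟨fun hs => hB s hs, fun hs => .base hs⟩
      show NoFlow {s | Gen (insert ∅ B) s}
      rw [this]
      exact hflow
    · rintro p hp C hC
      rcases hp with rfl | hp
      · exact not_sep_univ C
      · apply hsep p hp
        rw [hins] at hC
        exact hB C hC

/-- a convenient index set: a well-order of type `𝔠` -/
abbrev Kap : Type := (Cardinal.ord.{0} 𝔠).ToType

theorem mk_Kap : #Kap = 𝔠 := by simp [Kap]

theorem mk_Iio_Kap (i : Kap) : #(Iio i) < 𝔠 := by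
  have := mk_Iio_lt i (by simp [Kap])
  rwa [mk_Kap] at this

instance : NoMaxOrder Kap := by
  constructor
  intro a
  by_contra h
  push Not at h
  have h1 : (univ : Set Kap) ⊆ insert a (Iio a) := by
    intro b _
    rcases (h b).lt_or_eq with h' | h'
    · exact Or.inr h'
    · exact Or.inl h'
  have h2 := mk_le_mk_of_subset h1
  rw [mk_univ, mk_Kap] at h2
  have h3 := h2.trans mk_insert_le
  exact absurd h3 (not_le.2 (add_one_lt_of_lt aleph0_le_continuum (mk_Iio_Kap a)))

theorem exists_gt_seq (g : ℕ → Kap) : ∃ b, ∀ k, g k < b := by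
  have h1 : ¬ IsCofinal (range g) := by
    intro h
    have h2 := Order.cof_le h
    have h3 : Order.cof Kap = (Cardinal.ord.{0} 𝔠).cof := Ordinal.cof_toType _
    rw [h3] at h2
    have h4 : ℵ₀ < (Cardinal.ord.{0} 𝔠).cof := by
      have := lt_cof_ord_power (a := ℵ₀) (b := 2) le_rfl (by simp)
      rwa [two_power_aleph0] at this
    have h5 : #(range g) ≤ ℵ₀ := le_aleph0_iff_set_countable.2 (countable_range g)
    exact absurd (h4.trans_le (h2.trans h5)) (lt_irrefl _)
  obtain ⟨b, hb⟩ := not_isCofinal_iff.1 h1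
  exact ⟨b, fun k => hb _ ⟨k, rfl⟩⟩

theorem mk_Task : #Task = 𝔠 := by
  have h1 : #(ℕ → ℕ) = 𝔠 := by simp
  have h2 : #(ℕ → Set ℕ) = 𝔠 := by
    rw [mk_pi]
    simp
  rw [mk_prod, lift_id, lift_id, h1, h2, continuum_mul_self]

theorem exists_bookkeeping : ∃ τ : Kap → Task, ∀ (t : Task) (a : Kap), ∃ b, a < b ∧ τ b = t := by
  have h1 : #Kap = #(Task × Kap) := by
    rw [mk_prod, lift_id, lift_id, mk_Task, mk_Kap, continuum_mul_self]
  obtain ⟨f⟩ := Cardinal.eq.1 h1
  refine ⟨fun b => (f b).1, fun t a => ?_⟩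
  by_contra hcon
  push Not at hcon
  have hinj : Function.Injective (fun c : Kap => f.symm (t, c)) := by
    intro c c' h
    have := f.symm.injective h
    exact congrArg Prod.snd this
  have h2 : range (fun c : Kap => f.symm (t, c)) ⊆ Iic a := by
    rintro _ ⟨c, rfl⟩
    by_contra h
    exact hcon _ (not_le.1 h) (by simp)
  obtain ⟨a', ha'⟩ := exists_gt a
  have h3 : range (fun c : Kap => f.symm (t, c)) ⊆ Iio a' := fun x hx => (h2 hx).trans_lt ha'
  have h4 := mk_le_mk_of_subset h3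
  rw [mk_range_eq _ hinj, mk_Kap] at h4
  exact absurd h4 (not_le.2 (mk_Iio_Kap a'))

/-- algebra generated before stage `b` -/
def Bd (d : Kap → Dat) (b : Kap) : Set (Set ℕ) := {s | Gen ((fun c => (d c).1) '' Iio b) s}

/-- promises made before stage `b` -/
def Pd (d : Kap → Dat) (b : Kap) : Set (Set ℕ × Set ℕ) := (fun c => (d c).2) '' Iio b

theorem exists_rec (τ : Kap → Task) : ∃ d : Kap → Dat, ∀ b,
    (∃ x, Good (Bd d b) (Pd d b) (τ b) x) → Good (Bd d b) (Pd d b) (τ b) (d b) := by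
  classical
  let c : Set (Set ℕ) → Set (Set ℕ × Set ℕ) → Task → Dat := fun B P t =>
    if h : ∃ x, Good B P t x then h.choose else (∅, (univ, univ))
  have hc : ∀ B P t, (∃ x, Good B P t x) → Good B P t (c B P t) := by
    intro B P t h
    simp only [c, dif_pos h]
    exact h.choose_spec
  let F : (b : Kap) → ((a : Kap) → a < b → Dat) → Dat := fun b g =>
    c {s | Gen {X | ∃ a, ∃ h : a < b, (g a h).1 = X} s} {p | ∃ a, ∃ h : a < b, (g a h).2 = p} (τ b)
  let d : Kap → Dat := wellFounded_lt.fix F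
  refine ⟨d, fun b h => ?_⟩
  have h1 : d b = F b fun a _ => d a := WellFounded.fix_eq _ _ _
  have h2 : F b (fun a _ => d a) = c (Bd d b) (Pd d b) (τ b) := by
    simp only [F, Bd, Pd]
    congr 1
    · ext s
      have : {X | ∃ a, ∃ _ : a < b, (d a).1 = X} = (fun c => (d c).1) '' Iio b := by
        ext X
        simp
      rw [this]
    · ext p
      simp
  rw [h1, h2]
  exact hc _ _ _ h

theorem gen_finite_support {ι : Type} [LinearOrder ι] {X : ι → Set ℕ} {J : Set ι} {s : Set ℕ}
    (hs : Gen (X '' J) s) : Gen ∅ s ∨ ∃ a ∈ J, Gen (X '' (J ∩ Iic a)) s := by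
  have comb : ∀ {s t : Set ℕ}, (Gen ∅ s ∨ ∃ a ∈ J, Gen (X '' (J ∩ Iic a)) s) →
      (Gen ∅ t ∨ ∃ a ∈ J, Gen (X '' (J ∩ Iic a)) t) →
      (Gen ∅ s ∧ Gen ∅ t) ∨ ∃ a ∈ J, Gen (X '' (J ∩ Iic a)) s ∧ Gen (X '' (J ∩ Iic a)) t := by
    intro s t hs ht
    rcases hs with hs | ⟨a, ha, hs⟩
    · rcases ht with ht | ⟨a', ha', ht⟩
      · exact Or.inl ⟨hs, ht⟩
      · exact Or.inr ⟨a', ha', gen_mono (empty_subset _) hs, ht⟩
    · rcases ht with ht | ⟨a', ha', ht⟩
      · exact Or.inr ⟨a, ha, hs, gen_mono (empty_subset _) ht⟩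
      · rcases le_total a a' with h | h
        · exact Or.inr ⟨a', ha', gen_mono
            (image_mono (inter_subset_inter_right _ (Iic_subset_Iic.2 h))) hs, ht⟩
        · exact Or.inr ⟨a, ha, hs, gen_mono
            (image_mono (inter_subset_inter_right _ (Iic_subset_Iic.2 h))) ht⟩
  induction hs with
  | base h =>
    obtain ⟨a, ha, rfl⟩ := h
    exact Or.inr ⟨a, ha, .base ⟨a, ⟨ha, le_rfl⟩, rfl⟩⟩
  | atom n => exact Or.inl (.atom n)
  | lev m r => exact Or.inl (.lev m r)
  | compl _ ih => exact ih.imp .compl fun ⟨a, ha, h⟩ => ⟨a, ha, .compl h⟩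
  | inter _ _ ih1 ih2 =>
    exact (comb ih1 ih2).imp (fun h => .inter h.1 h.2) fun ⟨a, ha, h⟩ => ⟨a, ha, .inter h.1 h.2⟩
  | im b _ ih => exact ih.imp (.im b) fun ⟨a, ha, h⟩ => ⟨a, ha, .im b h⟩
  | pre b _ ih => exact ih.imp (.pre b) fun ⟨a, ha, h⟩ => ⟨a, ha, .pre b h⟩

theorem gen_finite_support_list {ι : Type} [LinearOrder ι] {X : ι → Set ℕ} {J : Set ι}
    {l : List (ℤ × Set ℕ)} (hl : ∀ p ∈ l, Gen (X '' J) p.2) :
    (∀ p ∈ l, Gen ∅ p.2) ∨ ∃ a ∈ J, ∀ p ∈ l, Gen (X '' (J ∩ Iic a)) p.2 := by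
  induction l with
  | nil => exact Or.inl (by simp)
  | cons q l ih =>
    have h1 := ih fun p hp => hl p (List.mem_cons_of_mem _ hp)
    have h2 := gen_finite_support (hl q List.mem_cons_self)
    rcases h1 with h1 | ⟨a, ha, h1⟩
    · rcases h2 with h2 | ⟨a', ha', h2⟩
      · left
        intro p hp
        rcases List.mem_cons.1 hp with rfl | hp
        · exact h2
        · exact h1 p hp
      · right
        refine ⟨a', ha', fun p hp => ?_⟩
        rcases List.mem_cons.1 hp with rfl | hp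
        · exact h2
        · exact gen_mono (empty_subset _) (h1 p hp)
    · right
      rcases h2 with h2 | ⟨a', ha', h2⟩
      · refine ⟨a, ha, fun p hp => ?_⟩
        rcases List.mem_cons.1 hp with rfl | hp
        · exact gen_mono (empty_subset _) h2
        · exact h1 p hp
      · rcases le_total a a' with h | h
        · refine ⟨a', ha', fun p hp => ?_⟩
          rcases List.mem_cons.1 hp with rfl | hp
          · exact h2
          · exact gen_mono (image_mono (inter_subset_inter_right _ (Iic_subset_Iic.2 h)))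
              (h1 p hp)
        · refine ⟨a, ha, fun p hp => ?_⟩
          rcases List.mem_cons.1 hp with rfl | hp
          · exact gen_mono (image_mono (inter_subset_inter_right _ (Iic_subset_Iic.2 h))) h2
          · exact h1 p hp

/-- **The Boolean algebra.** -/
theorem exists_algebra : ∃ B : Set (Set ℕ), Closed B ∧ NoFlow B ∧
    ∀ (n : ℕ → ℕ) (A : ℕ → Set ℕ), Separated n A → (∀ k, A k ∈ B) →
      ∃ I : Set ℕ, I.Infinite ∧ U A I ∈ B ∧ ∀ C ∈ B, ¬ Sep C (n '' I) (n '' Iᶜ) := by
  obtain ⟨τ, hτ⟩ := exists_bookkeeping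
  obtain ⟨d, hd⟩ := exists_rec τ
  set X : Kap → Set ℕ := fun c => (d c).1 with hX
  -- closed initial segments
  have hIic : ∀ b : Kap, ∀ s, Gen (X '' Iic b) s → Gen (insert (d b).1 (Bd d b)) s := by
    intro b s hs
    refine gen_gen (fun t ht => ?_) hs
    obtain ⟨c, hc, rfl⟩ := ht
    rcases (mem_Iic.1 hc).lt_or_eq with h | rfl
    · exact .base (mem_insert_of_mem _ (show Gen _ _ from .base ⟨c, h, rfl⟩))
    · exact .base (mem_insert _ _)
  -- property of all the stages
  have main : ∀ b : Kap, Good (Bd d b) (Pd d b) (τ b) (d b) := by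
    intro b
    induction b using WellFoundedLT.induction with
    | _ b ih =>
      apply hd
      have hcl : Closed (Bd d b) := gen_closed _
      have hcard : #(Bd d b) < 𝔠 := by
        apply mk_gen_lt
        exact mk_image_le.trans_lt (mk_Iio_Kap b)
      have hP : #(Pd d b) < 𝔠 := mk_image_le.trans_lt (mk_Iio_Kap b)
      apply exists_good hcl hcard _ hP _
      · -- no flow
        intro l hl hflow n₀ hn₀
        rcases gen_finite_support_list (X := X) (J := Iio b) hl with h | ⟨a, ha, h⟩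
        · exact noFlow_empty l h hflow n₀ hn₀
        · refine (ih a ha).1 l (fun p hp => ?_) hflow n₀ hn₀
          exact hIic a _ (gen_mono (image_mono inter_subset_right) (h p hp))
      · -- promises
        rintro _ ⟨c, hc, rfl⟩ C hC
        have key : ∀ a, c ≤ a → a < b → Gen (X '' Iic a) C → ¬ Sep C (d c).2.1 (d c).2.2 := by
          intro a hca hab h
          refine (ih a hab).2.1 (d c).2 ?_ C (hIic a _ h)
          rcases hca.lt_or_eq with h' | rfl
          · exact Or.inr ⟨c, h', rfl⟩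
          · exact Or.inl rfl
        rcases gen_finite_support (X := X) (J := Iio b) hC with h | ⟨a, ha, h⟩
        · exact key c le_rfl hc (gen_mono (empty_subset _) h)
        · rcases le_total a c with h' | h'
          · exact key c le_rfl hc (gen_mono (image_mono
              (inter_subset_right.trans (Iic_subset_Iic.2 h'))) h)
          · exact key a h' ha (gen_mono (image_mono inter_subset_right) h)
  refine ⟨{s | Gen (range X) s}, gen_closed _, ?_, ?_⟩
  · intro l hl hflow n₀ hn₀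
    rw [← image_univ] at hl
    rcases gen_finite_support_list (X := X) (J := univ) hl with h | ⟨a, ha, h⟩
    · exact noFlow_empty l h hflow n₀ hn₀
    · refine (main a).1 l (fun p hp => ?_) hflow n₀ hn₀
      exact hIic a _ (gen_mono (image_mono inter_subset_right) (h p hp))
  · intro n A hs hA
    have h1 : ∀ k, ∃ a : Kap, Gen (X '' Iic a) (A k) := by
      intro k
      have h2 := hA k
      rw [← image_univ] at h2
      rcases gen_finite_support (X := X) (J := univ) h2 with h | ⟨a, ha, h⟩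
      · have : Nonempty Kap := by
          rw [← mk_ne_zero_iff, mk_Kap]
          exact continuum_ne_zero
        exact ⟨Classical.arbitrary _, gen_mono (empty_subset _) h⟩
      · exact ⟨a, gen_mono (image_mono inter_subset_right) h⟩
    choose g hg using h1
    obtain ⟨b₀, hb₀⟩ := exists_gt_seq g
    obtain ⟨b, hb, hτb⟩ := hτ (n, A) b₀
    have h3 : ∀ k, A k ∈ Bd d b := fun k => gen_mono (image_mono fun c hc =>
      (mem_Iic.1 hc).trans_lt ((hb₀ k).trans hb)) (hg k)
    obtain ⟨I, hI, h4, h5⟩ := (main b).2.2 (by rw [hτb]; exact hs) (by rw [hτb]; exact h3)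
    rw [hτb] at h4 h5
    refine ⟨I, hI, ?_, ?_⟩
    · rw [← h4]
      exact .base ⟨b, rfl⟩
    · intro C hC
      change Gen (range X) C at hC
      rw [← image_univ] at hC
      have key : ∀ a, b ≤ a → Gen (X '' Iic a) C → ¬ Sep C (n '' I) (n '' Iᶜ) := by
        intro a hba h
        have := (main a).2.1 (d b).2 (by
          rcases hba.lt_or_eq with h' | rfl
          · exact Or.inr ⟨b, h', rfl⟩
          · exact Or.inl rfl) C (hIic a _ h)
        rwa [h5] at this
      rcases gen_finite_support (X := X) (J := univ) hC with h | ⟨a, ha, h⟩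
      · exact key b le_rfl (gen_mono (empty_subset _) h)
      · rcases le_total a b with h' | h'
        · exact key b le_rfl (gen_mono (image_mono
            (inter_subset_right.trans (Iic_subset_Iic.2 h'))) h)
        · exact key a h' (gen_mono (image_mono inter_subset_right) h)

end Pool.Agent.Work.MP_e5cb06_gt
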