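import Pool.Agent.Work.MP_e5cb06_gt.Hat
import Pool.Agent.Work.MP_e5cb06_gt.Construct

/-!
# The main theorem
-/

set_option autoImplicit false

open Set Filter Topology

namespace Pool.Agent.Work.MP_e5cb06_gt

open Dyn

variable {B : Set (Set ℕ)} [hB : Fact (Closed B)]

/-- the limit operators along two ultrafilters with the same limit have the same index -/
theorem idx_same {m : K B → (K B →₀ ℝ)} {L D : ℕ} {F : Set (K B)} {ε c C : ℝ} (hε : 0 ≤ ε)
    (hc : 0 ≤ c) (hc1 : c + C * (2 * ε) < 1) (hC0 : 0 ≤ C) (h : Cl m L F ε C)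
    {b : List Bool → ℕ → ℝ} (hb : RB L C b) (hD : 1 ≤ D) (hLD : 2 * L ≤ D)
    (h1 : GdL L D c (co m L) b) (h2 : GdL L D c b (co m L)) {V V' : Ultrafilter ℕ}
    (hV : tr B V ∈ bd B) (hVV : tr B V' = tr B V) :
    idx (Op L (limC V' (sub (co m L)))) = idx (Op L (limC V (sub (co m L)))) := by
  classical
  have ha := co_RB (L := L) hC0 h.hC
  have hcc : c < 1 := by
    have : 0 ≤ C * (2 * ε) := by positivity
    linarith
  have hV1 : ∀ᶠ n in (V : Filter ℕ), 1 ≤ n := by
    apply eventually_of_finite hV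
    refine (finite_lt_nat 1).subset fun n hn => ?_
    exact not_le.1 hn
  have hpar := (fidx_lim hc hcc hC0 hD hLD ha hb h1 h2 V hV1).2
  have hRBb : RB L C (limC V (sub b)) := RB_limC fun n => RB_sub hb n
  have hRBa : RB L C (limC V (sub (co m L))) := RB_limC fun n => RB_sub ha n
  have hRBa' : RB L C (limC V' (sub (co m L))) := RB_limC fun n => RB_sub ha n
  refine hpar.idx_eq hcc hc1 (norm_Op_le hC0 hRBb) ?_
  -- the two operators differ by a small one on the rows of large level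
  set p := tr B V with hp
  have hwords : {v : List Bool | ap v p ∈ F}.Finite :=
    h.fin.preimage fun u _ v _ huv => ap_free hV huv
  obtain ⟨N, hN⟩ : ∃ N, ∀ v : List Bool, ap v p ∈ F → v.length ≤ N := by
    have h3 := (hwords.image List.length).bddAbove
    obtain ⟨N, hN⟩ := h3
    exact ⟨N, fun v hv => hN ⟨v, hv, rfl⟩⟩
  refine sm_of_rows' (A := {k | Nat.log 2 k < N + L + 1}) (finite_log_lt (N + L + 1))
    (by positivity) fun g k hk => ?_
  simp only [mem_setOf_eq, not_lt] at hk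
  have hk1 : 1 ≤ k := pos_of_log (by omega)
  obtain ⟨w, hw, hwk⟩ := exists_ap_one hk1
  set y := ap w p with hy
  have hyb : y ∈ bd B := ap_mem_bd.2 hV
  -- the words
  have hσy : σ^[L] y = ap (w.take (w.length - L)) p := σ_iter_ap_le w p L (by omega)
  have hpos : ∀ u, ap u (σ^[L] y) = ap (w.take (w.length - L) ++ u) p := fun u => by
    rw [hσy, ap_append]
  have hnF : ∀ u, ap u (σ^[L] y) ∉ F := by
    intro u hu
    rw [hpos] at hu
    have h3 := hN _ hu
    rw [List.length_append, List.length_take] at h3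
    omega
  -- the test function
  let f : K B → ℝ := fun x => if hx : ∃ u ∈ W L, ap u (σ^[L] y) = x then
    g (ap hx.choose (σ^[L] k)) else 0
  have hfM : ∀ x, |f x| ≤ ‖g‖ := by
    intro x
    simp only [f]
    split_ifs
    · exact Linf.le_norm g _
    · rw [abs_zero]; exact norm_nonneg _
  have hf0 : ∀ x ∈ F, f x = 0 := by
    intro x hx
    simp only [f]
    rw [dif_neg]
    rintro ⟨u, -, hu⟩
    exact hnF u (by rw [hu]; exact hx)
  have hfu : ∀ u ∈ W L, f (ap u (σ^[L] y)) = g (ap u (σ^[L] k)) := by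
    intro u hu
    have hx : ∃ u' ∈ W L, ap u' (σ^[L] y) = ap u (σ^[L] y) := ⟨u, hu, rfl⟩
    simp only [f, dif_pos hx]
    rw [ap_free (σ_iter_mem_bd.2 hyb) hx.choose_spec.2]
  have hgood : ∀ {V₁ : Ultrafilter ℕ}, tr B V₁ = p →
      |ip (m y) f - ∑ u ∈ W L, limC V₁ (sub (co m L)) u k * g (ap u (σ^[L] k))| ≤ ε * ‖g‖ := by
    intro V₁ hV₁
    have h3 := limit_lemma hC0 h (V := V₁) (φ := ap w) (y := y) (by rw [← ap_tr, hV₁]) (by
      have h4 : tr B (V₁.map (ap w)) ∈ bd B := by rw [← ap_tr, hV₁]; exact hyb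
      have h5 := eventually_of_finite h4 (eventually_good h)
      exact h5) (norm_nonneg g) hfM hf0
    have h4 : ∑ u ∈ W L, (ulim V₁ fun n => co m L u (ap w n)) * f (ap u (σ^[L] y)) =
        ∑ u ∈ W L, limC V₁ (sub (co m L)) u k * g (ap u (σ^[L] k)) := by
      apply Finset.sum_congr rfl
      intro u hu
      rw [hfu u hu]
      have h5 : (fun n => co m L u (ap w n)) = fun n => sub (co m L) n u k := by
        funext n
        rw [sub, ← hwk, iot_ap n w le_rfl, iot_one]
      rw [h5]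
      rfl
    rwa [h4] at h3
  have h3 := hgood (V₁ := V) rfl
  have h4 := hgood (V₁ := V') hVV
  show |Op L (limC V' (sub (co m L))) g k - Op L (limC V (sub (co m L))) g k| ≤ _
  rw [Op_apply hC0 hRBa', Op_apply hC0 hRBa]
  have h5 : ∑ u ∈ W L, limC V' (sub (co m L)) u k * g (ap u (σ^[L] k)) -
      ∑ u ∈ W L, limC V (sub (co m L)) u k * g (ap u (σ^[L] k)) =
      (ip (m y) f - ∑ u ∈ W L, limC V (sub (co m L)) u k * g (ap u (σ^[L] k))) -
      (ip (m y) f - ∑ u ∈ W L, limC V' (sub (co m L)) u k * g (ap u (σ^[L] k))) := by ring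
  rw [h5]
  refine (abs_sub _ _).trans ?_
  calc _ ≤ ε * ‖g‖ + ε * ‖g‖ := add_le_add h3 h4
    _ = 2 * ε * ‖g‖ := by ring

/-- an ultrafilter with given trace which contains a given set -/
theorem exists_ultrafilter {p : K B} {N : Set ℕ}
    (h : ∀ A ∈ B, p ∈ star B A → (A ∩ N).Nonempty) :
    ∃ V : Ultrafilter ℕ, tr B V = p ∧ N ∈ V := by
  classical
  let bas : {A : Set ℕ // A ∈ B ∧ p ∈ star B A} → Filter ℕ := fun A => 𝓟 (A.1 ∩ N)
  have hd : Directed (· ≥ ·) bas := by
    rintro ⟨A, hA, hpA⟩ ⟨A', hA', hpA'⟩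
    refine ⟨⟨A ∩ A', hB.out.inter hA hA', ?_⟩, ?_, ?_⟩
    · rw [star_inter hB.out hA hA']; exact ⟨hpA, hpA'⟩
    · exact principal_mono.2 (inter_subset_inter_left _ inter_subset_left)
    · exact principal_mono.2 (inter_subset_inter_left _ inter_subset_right)
  have hne' : Nonempty {A : Set ℕ // A ∈ B ∧ p ∈ star B A} :=
    ⟨⟨univ, hB.out.univ, by rw [star_univ hB.out]; trivial⟩⟩
  have hne : (⨅ A, bas A).NeBot := by
    apply Filter.iInf_neBot_of_directed hd
    rintro ⟨A, hA, hpA⟩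
    exact principal_neBot_iff.2 (h A hA hpA)
  have hin : ∀ A : {A : Set ℕ // A ∈ B ∧ p ∈ star B A}, A.1 ∩ N ∈ Ultrafilter.of (⨅ A, bas A) :=
    fun A => Ultrafilter.of_le (⨅ A, bas A) (mem_iInf_of_mem A (mem_principal_self _))
  refine ⟨Ultrafilter.of (⨅ A, bas A), ?_, ?_⟩
  · apply K_ext
    intro A hA
    rw [tr_mem_star hA]
    constructor
    · intro hAV
      by_contra hpA
      have h1 : p ∈ star B Aᶜ := by rw [star_compl hB.out hA]; exact hpA
      have h2 := Filter.mem_of_superset (hin ⟨Aᶜ, hB.out.compl hA, h1⟩) inter_subset_left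
      have h3 : Aᶜ ∈ Ultrafilter.of (⨅ A, bas A) := h2
      rw [Ultrafilter.compl_mem_iff_notMem] at h3
      exact h3 hAV
    · intro hpA
      exact Filter.mem_of_superset (hin ⟨A, hA, hpA⟩) inter_subset_left
  · obtain ⟨A⟩ := hne'
    exact Filter.mem_of_superset (hin A) inter_subset_right

omit hB in
theorem val_append (l l' : List (ℤ × Set ℕ)) (n : ℕ) :
    val id (l ++ l') n = val id l n + val id l' n := by
  simp [val]

omit hB in
theorem val_restrict (l : List (ℤ × Set ℕ)) (A : Set ℕ) (n : ℕ) :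
    (n ∈ A → val id (l.map fun p => (p.1, p.2 ∩ A)) n = val id l n) ∧
    (n ∉ A → val id (l.map fun p => (p.1, p.2 ∩ A)) n = 0) := by
  classical
  induction l with
  | nil => exact ⟨fun _ => rfl, fun _ => rfl⟩
  | cons p l ih =>
    simp only [val, List.map_cons, List.sum_cons, id] at ih ⊢
    constructor
    · intro hn
      rw [ih.1 hn]
      congr 1
      by_cases hp : n ∈ p.2
      · rw [indicator_of_mem hp, indicator_of_mem (show n ∈ p.2 ∩ A from ⟨hp, hn⟩)]
      · rw [indicator_of_notMem hp, indicator_of_notMem fun h => hp h.1]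
    · intro hn
      rw [ih.2 hn, indicator_of_notMem fun h => hn h.2, add_zero]

/-- a locally constant function is an integer combination of members of the algebra -/
theorem exists_list {f : ℕ → ℤ} (h : ∀ p : K B, ∃ A ∈ B, p ∈ star B A ∧ ∃ j, ∀ n ∈ A, f n = j) :
    ∃ l : List (ℤ × Set ℕ), (∀ p ∈ l, p.2 ∈ B) ∧ val id l = f := by
  classical
  have h1 : ∃ A ∈ B, (univ : Set (K B)) ⊆ star B A ∧ ∃ l : List (ℤ × Set ℕ), (∀ p ∈ l, p.2 ∈ B) ∧
      (∀ n ∈ A, val id l n = f n) ∧ ∀ n ∉ A, val id l n = 0 := by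
    refine isCompact_univ.induction_on (p := fun C => ∃ A ∈ B, C ⊆ star B A ∧
      ∃ l : List (ℤ × Set ℕ), (∀ p ∈ l, p.2 ∈ B) ∧
      (∀ n ∈ A, val id l n = f n) ∧ ∀ n ∉ A, val id l n = 0) ?_ ?_ ?_ ?_
    · exact ⟨∅, hB.out.empty, empty_subset _, [], by simp, by simp, fun n _ => rfl⟩
    · rintro s t hst ⟨A, hA, h1, h2⟩
      exact ⟨A, hA, hst.trans h1, h2⟩
    · rintro s t ⟨A, hA, h1, l, hl, h2, h3⟩ ⟨A', hA', h1', l', hl', h2', h3'⟩
      refine ⟨A ∪ A', hB.out.union hA hA', ?_, l ++ l'.map (fun p => (p.1, p.2 ∩ Aᶜ)), ?_, ?_, ?_⟩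
      · rw [star_union hB.out hA hA']; exact union_subset_union h1 h1'
      · intro p hp
        rcases List.mem_append.1 hp with hp | hp
        · exact hl p hp
        · obtain ⟨q, hq, rfl⟩ := List.mem_map.1 hp
          exact hB.out.inter (hl' q hq) (hB.out.compl hA)
      · intro n hn
        rw [val_append]
        by_cases hnA : n ∈ A
        · rw [h2 n hnA, (val_restrict l' Aᶜ n).2 (by simpa using hnA), add_zero]
        · have hnA' : n ∈ A' := hn.resolve_left hnA
          rw [h3 n hnA, (val_restrict l' Aᶜ n).1 hnA, h2' n hnA', zero_add]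
      · intro n hn
        rw [mem_union, not_or] at hn
        rw [val_append, h3 n hn.1, (val_restrict l' Aᶜ n).1 hn.1, h3' n hn.2, add_zero]
    · intro x _
      obtain ⟨A, hA, hxA, j, hj⟩ := h x
      refine ⟨star B A, mem_nhdsWithin_of_mem_nhds ((isClopen_star hA).isOpen.mem_nhds hxA),
        A, hA, Subset.rfl, [(j, A)], by simpa using hA, ?_, ?_⟩
      · intro n hn
        simp only [val, List.map_cons, List.map_nil, List.sum_cons, List.sum_nil, id, add_zero]
        rw [indicator_of_mem hn, hj n hn]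
      · intro n hn
        simp only [val, List.map_cons, List.map_nil, List.sum_cons, List.sum_nil, id, add_zero]
        rw [indicator_of_notMem hn]
  obtain ⟨A, hA, h2, l, hl, h3, -⟩ := h1
  refine ⟨l, hl, ?_⟩
  funext n
  exact h3 n ((pt_mem_star hA n).1 (h2 (mem_univ _)))

/-- **Main contradiction.** -/
theorem no_rows (hflow : NoFlow B)
    (hB2 : ∀ (n : ℕ → ℕ) (A : ℕ → Set ℕ), Separated n A → (∀ k, A k ∈ B) →
      ∃ I : Set ℕ, I.Infinite ∧ U A I ∈ B ∧ ∀ C ∈ B, ¬ Sep C (n '' I) (n '' Iᶜ))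
    (d : Rows B) : False := by
  classical
  obtain ⟨C₁, hC₁, hμ₁⟩ := exists_bound hB.out d.hμ
  obtain ⟨C₂, hC₂, hν₂⟩ := exists_bound hB.out d.hν
  set C : ℝ := max 1 (max C₁ C₂) with hC
  have hC1 : 1 ≤ C := le_max_left _ _
  have hC0 : 0 ≤ C := zero_le_one.trans hC1
  have hμC : ∀ y, mass (d.μ y) univ ≤ C := fun y =>
    (hμ₁ y).trans ((le_max_left _ _).trans (le_max_right _ _))
  have hνC : ∀ y, mass (d.ν y) univ ≤ C := fun y =>
    (hν₂ y).trans ((le_max_right _ _).trans (le_max_right _ _))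
  set ε : ℝ := 1 / (8 * C) with hεdef
  have hCpos : 0 < C := lt_of_lt_of_le one_pos hC1
  have hε0 : 0 < ε := by rw [hεdef]; positivity
  have hCε : C * ε = 1 / 8 := by rw [hεdef]; field_simp
  have hε1 : ε ≤ 1 := by
    have : ε ≤ C * ε := le_mul_of_one_le_left hε0.le hC1
    linarith
  obtain ⟨L₁, F₁, hF₁, hbad₁⟩ := classification hμC d.hμ hB2 hε0 hε1
  obtain ⟨L₂, F₂, hF₂, hbad₂⟩ := classification hνC d.hν hB2 hε0 hε1
  set L := max L₁ L₂ with hL
  set F := F₁ ∪ F₂ with hF
  have clμ : Cl d.μ L F ε C := by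
    refine ⟨hF₁.union hF₂, hμC, d.hμ, hbad₁.subset fun n hn => ?_⟩
    refine lt_of_lt_of_le hn (mass_mono _ (compl_subset_compl.2 (union_subset_union ?_ ?_)))
    · exact nbr_mono (le_max_left _ _) _
    · exact subset_union_left
  have clν : Cl d.ν L F ε C := by
    refine ⟨hF₁.union hF₂, hνC, d.hν, hbad₂.subset fun n hn => ?_⟩
    refine lt_of_lt_of_le hn (mass_mono _ (compl_subset_compl.2 (union_subset_union ?_ ?_)))
    · exact nbr_mono (le_max_right _ _) _
    · exact subset_union_right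
  obtain ⟨D₁, hD₁⟩ := exists_GdL hε0.le hC0 clμ clν (Y := ∅) finite_empty
    (fun n f _ => d.id1 f _)
  obtain ⟨D₂, hD₂⟩ := exists_GdL hε0.le hC0 clν clμ (Y := (d.s.support : Set (K B)))
    (Finset.finite_toSet _) (fun n f hf => by
      rw [d.id2]
      have h1 : ip d.s f = 0 := Finset.sum_eq_zero fun x hx => by
        rw [hf x hx, mul_zero]
      rw [h1, zero_mul, sub_zero])
  set D := D₁ + D₂ + 2 * L + 1 with hD
  set c : ℝ := 2 * C * ε with hc
  have hcval : c = 1 / 4 := by rw [hc]; linarith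
  have g1 : GdL L D c (co d.μ L) (co d.ν L) := hD₁ D (by omega)
  have g2 : GdL L D c (co d.ν L) (co d.μ L) := hD₂ D (by omega)
  have hc0 : 0 ≤ c := by rw [hcval]; norm_num
  have hc1 : c < 1 := by rw [hcval]; norm_num
  have hc2 : c + C * (2 * ε) < 1 := by
    have : C * (2 * ε) = 1 / 4 := by linarith
    rw [hcval, this]; norm_num
  have ra : RB L C (co d.μ L) := co_RB hC0 hμC
  have rb : RB L C (co d.ν L) := co_RB hC0 hνC
  -- index of the part on `ℕ`
  obtain ⟨s, hs1, hs2, hs3⟩ := exists_sect B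
  obtain ⟨hpar, hidx⟩ := idx_rows d hC0 hμC hνC
  have hsm := sm_row_sub_hat hs1 hs3 hε0.le hC0 clμ
  have hsm' : SM ε (Op L (hat s (co d.μ L)) - opRow d.μ) := by
    have := hsm.neg
    rwa [neg_sub] at this
  have i1 : idx (Op L (hat s (co d.μ L))) = -1 := by
    rw [hpar.idx_eq (C := C) zero_lt_one (by rw [zero_add, hCε]; norm_num)
      (norm_opRow_le hC0 hνC) hsm', hidx]
  have i2 : idx (Op L (co d.μ L)) = -1 := by
    rw [← idx_hat hs1 hs2 hs3 hc0 hc1 hC0 ra rb g1 g2, i1]
  -- the flow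
  have hfl : IsFlow (fidx L (co d.μ L)) :=
    fidx_flow hc0 hc1 hC0 (by omega) (by omega) ra rb g1 g2
  have hone : fidx L (co d.μ L) 1 = -1 := by
    rw [fidx, sub_one, i2]
  have hloc : ∀ p : K B, ∃ A ∈ B, p ∈ star B A ∧ ∃ j, ∀ n ∈ A, fidx L (co d.μ L) n = j := by
    intro p
    by_cases hp : p ∈ bd B
    · obtain ⟨V, hV⟩ := exists_tr p
      set j := idx (Op L (limC V (sub (co d.μ L)))) with hj
      by_contra hno
      push Not at hno
      have h1 : ∀ A ∈ B, p ∈ star B A → (A ∩ {n | fidx L (co d.μ L) n ≠ j}).Nonempty := by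
        intro A hA hpA
        obtain ⟨n, hn, hne⟩ := hno A hA hpA j
        exact ⟨n, hn, hne⟩
      obtain ⟨V', hV', hN⟩ := exists_ultrafilter h1
      have hV'1 : ∀ᶠ n in (V' : Filter ℕ), 1 ≤ n := by
        apply eventually_of_finite (B := B) (by rw [hV']; exact hp)
        refine (finite_lt_nat 1).subset fun n hn => ?_
        exact not_le.1 hn
      have h2 := (fidx_lim hc0 hc1 hC0 (by omega) (by omega) ra rb g1 g2 V' hV'1).1
      have h3 := idx_same hε0.le hc0 hc2 hC0 clμ rb (by omega) (by omega) g1 g2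
        (V := V) (V' := V') (by rw [hV]; exact hp) (by rw [hV, hV'])
      have h4 : ∀ᶠ n in (V' : Filter ℕ), fidx L (co d.μ L) n ≠ j := hN
      obtain ⟨n, h5, h6⟩ := (h2.and h4).exists
      apply h6
      rw [h5, h3]
    · have h1 : ∃ n, pt B n = p := by simpa [bd] using hp
      obtain ⟨n, rfl⟩ := h1
      exact ⟨{n}, hB.out.atom n, (pt_mem_star (hB.out.atom n) n).2 rfl, _, fun k hk => by
        rw [mem_singleton_iff.1 hk]⟩
  obtain ⟨l, hl, hval⟩ := exists_list hloc
  have h0 := hflow l hl (by rw [hval]; exact hfl) 1 le_rfl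
  rw [hval, hone] at h0
  norm_num at h0

end Pool.Agent.Work.MP_e5cb06_gt
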