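import Pool.Agent.Work.MP_e5cb06_gt.Fred

/-!
# Bounded functions on a set and operators on them
-/

set_option autoImplicit false

open Set
open scoped ENNReal

namespace Pool.Agent.Work.MP_e5cb06_gt

/-- bounded real functions on a set -/
abbrev Linf (X : Type) : Type := lp (fun _ : X => ℝ) ⊤

namespace Linf

variable {X Y : Type}

/-- constructor -/
def mk (f : X → ℝ) (h : ∃ C, ∀ x, |f x| ≤ C) : Linf X :=
  ⟨f, memℓp_infty (by
    obtain ⟨C, hC⟩ := h
    refine ⟨C, ?_⟩
    rintro _ ⟨x, rfl⟩
    exact hC x)⟩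

@[simp] theorem mk_apply (f : X → ℝ) (h : ∃ C, ∀ x, |f x| ≤ C) (x : X) : mk f h x = f x := rfl

theorem le_norm (f : Linf X) (x : X) : |f x| ≤ ‖f‖ := lp.norm_apply_le_norm (by simp) f x

theorem norm_le {f : Linf X} {C : ℝ} (hC : 0 ≤ C) (h : ∀ x, |f x| ≤ C) : ‖f‖ ≤ C :=
  lp.norm_le_of_forall_le hC h

theorem ext {f g : Linf X} (h : ∀ x, f x = g x) : f = g := lp.ext (funext h)

@[simp] theorem add_apply (f g : Linf X) (x : X) : (f + g) x = f x + g x := rfl
@[simp] theorem sub_apply (f g : Linf X) (x : X) : (f - g) x = f x - g x := rfl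
@[simp] theorem neg_apply (f : Linf X) (x : X) : (-f) x = -f x := rfl
@[simp] theorem smul_apply (c : ℝ) (f : Linf X) (x : X) : (c • f) x = c * f x := rfl
@[simp] theorem zero_apply (x : X) : (0 : Linf X) x = 0 := rfl

theorem sum_apply {ι : Type*} (s : Finset ι) (f : ι → Linf X) (x : X) :
    (∑ i ∈ s, f i) x = ∑ i ∈ s, f i x := by
  classical
  induction s using Finset.induction_on with
  | empty => simp
  | insert a s ha ih => rw [Finset.sum_insert ha, Finset.sum_insert ha, add_apply, ih]

end Linf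

section Op

variable {X Y Z : Type}

/-- bounded maps between spaces of functions -/
def BddBy (C : ℝ) (F : (Y → ℝ) →ₗ[ℝ] (X → ℝ)) : Prop :=
  ∀ (f : Y → ℝ) (M : ℝ), 0 ≤ M → (∀ y, |f y| ≤ M) → ∀ x, |F f x| ≤ C * M

open Classical in
/-- the operator between spaces of bounded functions defined by a bounded map -/
noncomputable def op (F : (Y → ℝ) →ₗ[ℝ] (X → ℝ)) : Linf Y →L[ℝ] Linf X :=
  if h : ∃ C, 0 ≤ C ∧ BddBy C F then
    LinearMap.mkContinuous
      { toFun := fun f => Linf.mk (F f) ⟨h.choose * ‖f‖, fun x =>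
          h.choose_spec.2 f ‖f‖ (norm_nonneg _) (Linf.le_norm f) x⟩
        map_add' := fun f g => Linf.ext fun x => by
          simp only [Linf.mk_apply, Linf.add_apply]
          have : (↑(f + g) : Y → ℝ) = (f : Y → ℝ) + (g : Y → ℝ) := rfl
          rw [this, map_add]
          rfl
        map_smul' := fun c f => Linf.ext fun x => by
          simp only [Linf.mk_apply]
          have : (↑(c • f) : Y → ℝ) = c • (f : Y → ℝ) := rfl
          rw [this, map_smul]
          rfl } h.choose
      (fun f => Linf.norm_le (mul_nonneg h.choose_spec.1 (norm_nonneg _)) fun x =>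
        h.choose_spec.2 f ‖f‖ (norm_nonneg _) (Linf.le_norm f) x)
  else 0

theorem op_apply {F : (Y → ℝ) →ₗ[ℝ] (X → ℝ)} {C : ℝ} (hC : 0 ≤ C) (h : BddBy C F) (f : Linf Y)
    (x : X) : op F f x = F f x := by
  have h' : ∃ C, 0 ≤ C ∧ BddBy C F := ⟨C, hC, h⟩
  rw [op, dif_pos h']
  rfl

theorem norm_op_le {F : (Y → ℝ) →ₗ[ℝ] (X → ℝ)} {C : ℝ} (hC : 0 ≤ C) (h : BddBy C F) :
    ‖op F‖ ≤ C :=
  ContinuousLinearMap.opNorm_le_bound _ hC fun f => by
    apply Linf.norm_le (mul_nonneg hC (norm_nonneg _))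
    intro x
    rw [op_apply hC h]
    exact h f ‖f‖ (norm_nonneg _) (Linf.le_norm f) x

open Classical in
/-- restriction to a set as a linear map on functions -/
noncomputable def prL (A : Set X) : (X → ℝ) →ₗ[ℝ] (X → ℝ) where
  toFun f x := if x ∈ A then f x else 0
  map_add' f g := by
    funext x
    by_cases h : x ∈ A <;> simp [h]
  map_smul' c f := by
    funext x
    by_cases h : x ∈ A <;> simp [h]

theorem prL_bdd (A : Set X) : BddBy 1 (prL A) := by
  classical
  intro f M hM hf x
  by_cases h : x ∈ A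
  · simpa [prL, h] using hf x
  · simpa [prL, h] using hM

/-- restriction to a set -/
noncomputable def Pr (A : Set X) : Linf X →L[ℝ] Linf X := op (prL A)

open Classical in
theorem Pr_apply (A : Set X) (f : Linf X) (x : X) : Pr A f x = if x ∈ A then f x else 0 :=
  op_apply zero_le_one (prL_bdd A) f x

theorem Pr_apply_mem {A : Set X} {x : X} (h : x ∈ A) (f : Linf X) : Pr A f x = f x := by
  classical
  rw [Pr_apply, if_pos h]

theorem Pr_apply_notMem {A : Set X} {x : X} (h : x ∉ A) (f : Linf X) : Pr A f x = 0 := by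
  classical
  rw [Pr_apply, if_neg h]

theorem norm_Pr_le (A : Set X) (f : Linf X) : ‖Pr A f‖ ≤ ‖f‖ := by
  apply Linf.norm_le (norm_nonneg _)
  intro x
  by_cases h : x ∈ A
  · rw [Pr_apply_mem h]; exact Linf.le_norm f x
  · rw [Pr_apply_notMem h]; simp

theorem Pr_add_compl (A : Set X) : Pr A + Pr Aᶜ = 1 := by
  ext f x
  show (Pr A f + Pr Aᶜ f) x = f x
  rw [Linf.add_apply]
  by_cases h : x ∈ A
  · rw [Pr_apply_mem h, Pr_apply_notMem (by simpa using h), add_zero]
  · rw [Pr_apply_notMem h, Pr_apply_mem (by simpa using h), zero_add]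

theorem FR_Pr {A : Set X} (hA : A.Finite) : FR (Pr A) := by
  have := hA.to_subtype
  let r : Linf X →ₗ[ℝ] (A → ℝ) :=
    { toFun := fun f a => f a.1
      map_add' := fun f g => rfl
      map_smul' := fun c f => rfl }
  have := hA.fintype
  classical
  let E : (A → ℝ) →ₗ[ℝ] Linf X :=
    { toFun := fun f => Linf.mk (fun x => if h : x ∈ A then f ⟨x, h⟩ else 0)
        ⟨∑ a, |f a|, fun x => by
          by_cases h : x ∈ A
          · simp only [h, dif_pos]
            exact Finset.single_le_sum (f := fun a => |f a|) (fun _ _ => abs_nonneg _)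
              (Finset.mem_univ _)
          · simp only [h]
            simp only [dite_false, abs_zero]
            exact Finset.sum_nonneg fun _ _ => abs_nonneg _⟩
      map_add' := fun f g => Linf.ext fun x => by
        by_cases h : x ∈ A <;> simp [h]
      map_smul' := fun c f => Linf.ext fun x => by
        by_cases h : x ∈ A <;> simp [h] }
  have h1 : ((Pr A : Linf X →L[ℝ] Linf X) : Linf X →ₗ[ℝ] Linf X) = E ∘ₗ r := by
    apply LinearMap.ext
    intro f
    apply Linf.ext
    intro x
    by_cases h : x ∈ A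
    · show Pr A f x = _
      rw [Pr_apply_mem h]
      simp [E, r, h]
    · show Pr A f x = _
      rw [Pr_apply_notMem h]
      simp [E, r, h]
  rw [FR, h1]
  exact LinearMap.HasFiniteRange.comp_left
    (LinearMap.HasFiniteRange.of_isNoetherian_rng (f := r)) E

theorem sm_of_rows {T : Linf X →L[ℝ] Linf X} {A F : Set X} (hA : A.Finite) (hF : F.Finite) {c : ℝ}
    (hc : 0 ≤ c) (h : ∀ f : Linf X, (∀ x ∈ F, f x = 0) → ∀ y ∉ A, |T f y| ≤ c * ‖f‖) : SM c T := by
  refine ⟨Pr Aᶜ * T * Pr Fᶜ, ?_, ?_⟩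
  · apply ContinuousLinearMap.opNorm_le_bound _ hc
    intro f
    apply Linf.norm_le (mul_nonneg hc (norm_nonneg _))
    intro y
    show |Pr Aᶜ (T (Pr Fᶜ f)) y| ≤ _
    by_cases hy : y ∈ A
    · rw [Pr_apply_notMem (by simpa using hy), abs_zero]
      exact mul_nonneg hc (norm_nonneg _)
    · rw [Pr_apply_mem (by simpa using hy)]
      refine (h _ (fun x hx => Pr_apply_notMem (by simpa using hx) _) y hy).trans ?_
      exact mul_le_mul_of_nonneg_left (norm_Pr_le _ _) hc
  · have h1 : T - Pr Aᶜ * T * Pr Fᶜ = Pr A * T + Pr Aᶜ * T * Pr F := by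
      have h2 : Pr A * T + Pr Aᶜ * T = T := by rw [← add_mul, Pr_add_compl, one_mul]
      have h3 : Pr Aᶜ * T * Pr F + Pr Aᶜ * T * Pr Fᶜ = Pr Aᶜ * T := by
        rw [← mul_add, Pr_add_compl, mul_one]
      rw [sub_eq_iff_eq_add, add_assoc, h3, h2]
    rw [h1]
    exact ((FR_Pr hA).mul_right T).add ((FR_Pr hF).mul_left _)

theorem sm_of_rows' {T : Linf X →L[ℝ] Linf X} {A : Set X} (hA : A.Finite) {c : ℝ}
    (hc : 0 ≤ c) (h : ∀ f : Linf X, ∀ y ∉ A, |T f y| ≤ c * ‖f‖) : SM c T :=
  sm_of_rows hA finite_empty hc fun f _ y hy => h f y hy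

theorem fr_of_rows {T : Linf X →L[ℝ] Linf X} {A : Set X} (hA : A.Finite)
    (h : ∀ f : Linf X, ∀ y ∉ A, T f y = 0) : FR T := by
  have h1 : T = Pr A * T := by
    ext f y
    show T f y = Pr A (T f) y
    by_cases hy : y ∈ A
    · rw [Pr_apply_mem hy]
    · rw [Pr_apply_notMem hy, h f y hy]
  rw [h1]
  exact (FR_Pr hA).mul_right T

theorem opNorm_le_of_rows {T : Linf Y →L[ℝ] Linf X} {c : ℝ} (hc : 0 ≤ c)
    (h : ∀ f : Linf Y, ∀ x, |T f x| ≤ c * ‖f‖) : ‖T‖ ≤ c :=
  ContinuousLinearMap.opNorm_le_bound _ hc fun f =>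
    Linf.norm_le (mul_nonneg hc (norm_nonneg _)) (h f)

/-- composition with a map -/
noncomputable def pull (j : X → Y) : Linf Y →L[ℝ] Linf X :=
  op { toFun := fun f x => f (j x), map_add' := fun _ _ => rfl, map_smul' := fun _ _ => rfl }

theorem pull_apply (j : X → Y) (f : Linf Y) (x : X) : pull j f x = f (j x) :=
  op_apply (C := 1) zero_le_one (fun f M _ hf x => by simpa using hf (j x)) f x

/-- extension by zero along a map -/
noncomputable def push (j : X → Y) : Linf X →L[ℝ] Linf Y :=
  op { toFun := fun f => Function.extend j f 0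
       map_add' := fun f g => by
        have h := Function.extend_add j f g 0 0
        rwa [add_zero] at h
       map_smul' := fun c f => by
        have h := Function.extend_smul c j f 0
        rw [smul_zero] at h
        exact h }

theorem push_bdd (j : X → Y) (f : X → ℝ) (M : ℝ) (hM : 0 ≤ M) (hf : ∀ x, |f x| ≤ M) (y : Y) :
    |Function.extend j f 0 y| ≤ M := by
  classical
  by_cases h : ∃ x, j x = y
  · rw [Function.extend_def, dif_pos h]
    exact hf _
  · rw [Function.extend_def, dif_neg h]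
    simpa using hM

theorem push_apply (j : X → Y) (f : Linf X) (y : Y) :
    push j f y = Function.extend j (f : X → ℝ) 0 y :=
  op_apply (C := 1) zero_le_one (fun f M hM hf y => by
    rw [one_mul]; exact push_bdd j f M hM hf y) f y

theorem push_apply_mem {j : X → Y} (hj : Function.Injective j) (f : Linf X) (x : X) :
    push j f (j x) = f x := by
  rw [push_apply, hj.extend_apply]

theorem push_apply_notMem {j : X → Y} (f : Linf X) {y : Y} (hy : y ∉ range j) :
    push j f y = 0 := by
  rw [push_apply, Function.extend_apply']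
  · rfl
  · exact hy

theorem pull_push {j : X → Y} (hj : Function.Injective j) (f : Linf X) : pull j (push j f) = f :=
  Linf.ext fun x => by rw [pull_apply, push_apply_mem hj]

theorem norm_pull_le (j : X → Y) : ‖pull j‖ ≤ 1 :=
  opNorm_le_of_rows zero_le_one fun f x => by
    rw [pull_apply, one_mul]; exact Linf.le_norm f _

theorem norm_push_le (j : X → Y) : ‖push j‖ ≤ 1 :=
  opNorm_le_of_rows zero_le_one fun f x => by
    rw [push_apply, one_mul]; exact push_bdd j f _ (norm_nonneg _) (Linf.le_norm f) x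

/-- transport an operator along an injection, extended by the identity -/
noncomputable def ext (j : X → Y) (T : Linf X →L[ℝ] Linf X) : Linf Y →L[ℝ] Linf Y :=
  push j ∘L T ∘L pull j + (1 - push j ∘L pull j)

theorem ext_apply_mem {j : X → Y} (hj : Function.Injective j) (T : Linf X →L[ℝ] Linf X)
    (f : Linf Y) (x : X) : ext j T f (j x) = T (pull j f) x := by
  show (push j (T (pull j f)) + (f - push j (pull j f))) (j x) = _
  rw [Linf.add_apply, Linf.sub_apply, push_apply_mem hj, push_apply_mem hj, pull_apply]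
  ring

theorem ext_apply_notMem {j : X → Y} (T : Linf X →L[ℝ] Linf X)
    (f : Linf Y) {y : Y} (hy : y ∉ range j) : ext j T f y = f y := by
  show (push j (T (pull j f)) + (f - push j (pull j f))) y = _
  rw [Linf.add_apply, Linf.sub_apply, push_apply_notMem _ hy, push_apply_notMem _ hy]
  ring

theorem idx_ext {j : X → Y} (hj : Function.Injective j) (T : Linf X →L[ℝ] Linf X) :
    idx (ext j T) = idx T :=
  index_extend (push j : Linf X →ₗ[ℝ] Linf Y) (pull j : Linf Y →ₗ[ℝ] Linf X)
    (fun v => pull_push hj v) (T : Linf X →ₗ[ℝ] Linf X)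

theorem sm_push {c : ℝ} (hc : 0 ≤ c) {j : X → Y} {T : Linf X →L[ℝ] Linf X} (h : SM c T) :
    SM c (push j ∘L T ∘L pull j) := by
  obtain ⟨S, hS, hTS⟩ := h
  refine ⟨push j ∘L S ∘L pull j, ?_, ?_⟩
  · refine (ContinuousLinearMap.opNorm_comp_le _ _).trans ?_
    refine (mul_le_mul (norm_push_le j) (ContinuousLinearMap.opNorm_comp_le _ _)
      (norm_nonneg _) zero_le_one).trans ?_
    rw [one_mul]
    exact (mul_le_mul hS (norm_pull_le j) (norm_nonneg _) hc).trans (by rw [mul_one])
  · have h1 : ((push j ∘L T ∘L pull j - push j ∘L S ∘L pull j : Linf Y →L[ℝ] Linf Y) :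
        Linf Y →ₗ[ℝ] Linf Y) = (push j : Linf X →ₗ[ℝ] Linf Y) ∘ₗ
        ((T - S : Linf X →L[ℝ] Linf X) : Linf X →ₗ[ℝ] Linf X) ∘ₗ
        (pull j : Linf Y →ₗ[ℝ] Linf X) := by
      apply LinearMap.ext
      intro f
      show push j (T (pull j f)) - push j (S (pull j f)) = push j (T (pull j f) - S (pull j f))
      rw [map_sub]
    rw [FR, h1]
    exact LinearMap.HasFiniteRange.comp_left (LinearMap.HasFiniteRange.comp_right hTS _) _

theorem ext_mul {j : X → Y} (hj : Function.Injective j) (S T : Linf X →L[ℝ] Linf X) :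
    ext j S * ext j T = ext j (S * T) := by
  ext f y
  show ext j S (ext j T f) y = ext j (S * T) f y
  by_cases hy : y ∈ range j
  · obtain ⟨x, rfl⟩ := hy
    rw [ext_apply_mem hj, ext_apply_mem hj]
    have h1 : pull j (ext j T f) = T (pull j f) := Linf.ext fun x' => by
      rw [pull_apply, ext_apply_mem hj]
    rw [h1]
    rfl
  · rw [ext_apply_notMem _ _ hy, ext_apply_notMem _ _ hy, ext_apply_notMem _ _ hy]

theorem ext_sub_one (j : X → Y) (T : Linf X →L[ℝ] Linf X) :
    ext j T - 1 = push j ∘L (T - 1) ∘L pull j := by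
  apply ContinuousLinearMap.ext
  intro f
  show push j (T (pull j f)) + (f - push j (pull j f)) - f =
    push j (T (pull j f) - pull j f)
  rw [map_sub]
  abel

theorem Par.ext {c : ℝ} (hc : 0 ≤ c) {j : X → Y} (hj : Function.Injective j)
    {A B : Linf X →L[ℝ] Linf X} (h : Par c A B) :
    Par c (Pool.Agent.Work.MP_e5cb06_gt.ext j A) (Pool.Agent.Work.MP_e5cb06_gt.ext j B) := by
  constructor
  · rw [ext_mul hj, ext_sub_one]
    exact sm_push hc h.1
  · rw [ext_mul hj, ext_sub_one]
    exact sm_push hc h.2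

end Op

end Pool.Agent.Work.MP_e5cb06_gt
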