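import Mathlib

/-!
# Limits of bounded real functions along ultrafilters
-/

set_option autoImplicit false

open Set Filter Topology

namespace Pool.Agent.Work.MP_e5cb06_gt

variable {ι : Type*}

/-- limit along an ultrafilter -/
noncomputable def ulim (V : Ultrafilter ι) (f : ι → ℝ) : ℝ := limUnder (V : Filter ι) f

theorem tendsto_ulim (V : Ultrafilter ι) {f : ι → ℝ} {C : ℝ} (h : ∀ᶠ n in (V : Filter ι), |f n| ≤ C) :
    Tendsto f V (𝓝 (ulim V f)) := by
  have h1 : (V.map f : Filter ℝ) ≤ 𝓟 (Icc (-C) C) := by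
    rw [le_principal_iff]
    show ∀ᶠ n in (V : Filter ι), f n ∈ Icc (-C) C
    filter_upwards [h] with n hn
    exact abs_le.1 hn
  obtain ⟨x, -, hx⟩ := isCompact_Icc.ultrafilter_le_nhds _ h1
  exact tendsto_nhds_limUnder ⟨x, hx⟩

theorem ulim_eq {V : Ultrafilter ι} {f : ι → ℝ} {c : ℝ} (h : Tendsto f V (𝓝 c)) : ulim V f = c :=
  h.limUnder_eq

theorem abs_ulim_le {V : Ultrafilter ι} {f : ι → ℝ} {C : ℝ} (h : ∀ᶠ n in (V : Filter ι), |f n| ≤ C) :
    |ulim V f| ≤ C :=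
  le_of_tendsto (tendsto_ulim V h).abs h

theorem ulim_map {κ : Type*} (V : Ultrafilter ι) (g : ι → κ) (f : κ → ℝ) :
    ulim (V.map g) f = ulim V (f ∘ g) := rfl

end Pool.Agent.Work.MP_e5cb06_gt
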