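import Pool.Agent.Work.MP_e5cb06_gt.Tree
import Pool.Agent.Work.MP_e5cb06_gt.Linf
import Pool.Agent.Work.MP_e5cb06_gt.ULim

/-!
# Band operators, their Fredholm property and semicontinuity of the index
-/

set_option autoImplicit false

open Set Filter Topology

namespace Pool.Agent.Work.MP_e5cb06_gt

open Dyn

/-- words of length at most `2 L` -/
noncomputable def W (L : ℕ) : Finset (List Bool) := (List.finite_length_le Bool (2 * L)).toFinset

theorem mem_W {L : ℕ} {u : List Bool} : u ∈ W L ↔ u.length ≤ 2 * L := by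
  simp [W]

theorem abs_sum_mul_le {ι : Type*} {s : Finset ι} {a f : ι → ℝ} {M : ℝ} (hf : ∀ u ∈ s, |f u| ≤ M) :
    |∑ u ∈ s, a u * f u| ≤ (∑ u ∈ s, |a u|) * M := by
  refine (Finset.abs_sum_le_sum_abs _ _).trans ?_
  rw [Finset.sum_mul]
  apply Finset.sum_le_sum
  intro u hu
  rw [abs_mul]
  exact mul_le_mul_of_nonneg_left (hf u hu) (abs_nonneg _)

section General

variable {X : Type} [Dyn X]

/-- row bound for coefficients -/
def RB (L : ℕ) (C : ℝ) (a : List Bool → X → ℝ) : Prop := ∀ x, ∑ u ∈ W L, |a u x| ≤ C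

/-- band operator as a linear map on functions -/
noncomputable def opL (L : ℕ) (a : List Bool → X → ℝ) : (X → ℝ) →ₗ[ℝ] (X → ℝ) where
  toFun f x := ∑ u ∈ W L, a u x * f (ap u (σ^[L] x))
  map_add' f g := by
    funext x
    simp [mul_add, Finset.sum_add_distrib]
  map_smul' c f := by
    funext x
    simp only [Pi.smul_apply, smul_eq_mul, RingHom.id_apply, Finset.mul_sum]
    apply Finset.sum_congr rfl
    intro u _
    ring

theorem opL_bdd {L : ℕ} {C : ℝ} {a : List Bool → X → ℝ} (h : RB L C a) : BddBy C (opL L a) := by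
  intro f M hM hf x
  refine (abs_sum_mul_le fun u _ => hf _).trans ?_
  exact mul_le_mul_of_nonneg_right (h x) hM

/-- band operator -/
noncomputable def Op (L : ℕ) (a : List Bool → X → ℝ) : Linf X →L[ℝ] Linf X := op (opL L a)

theorem Op_apply {L : ℕ} {C : ℝ} (hC : 0 ≤ C) {a : List Bool → X → ℝ} (h : RB L C a) (f : Linf X)
    (x : X) : Op L a f x = ∑ u ∈ W L, a u x * f (ap u (σ^[L] x)) :=
  op_apply hC (opL_bdd h) f x

theorem norm_Op_le {L : ℕ} {C : ℝ} (hC : 0 ≤ C) {a : List Bool → X → ℝ} (h : RB L C a) :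
    ‖Op L a‖ ≤ C := norm_op_le hC (opL_bdd h)

end General

/-! ### Logarithms -/

theorem log_σ (n : ℕ) : Nat.log 2 (σ n) = Nat.log 2 n - 1 := Nat.log_div_base 2 n

theorem log_σ_iter (k n : ℕ) : Nat.log 2 (σ^[k] n) = Nat.log 2 n - k := by
  induction k generalizing n with
  | zero => rfl
  | succ k ih => rw [Function.iterate_succ_apply, ih, log_σ]; omega

theorem log_e' (b : Bool) (n : ℕ) (hn : 1 ≤ n) : Nat.log 2 (e b n) = Nat.log 2 n + 1 := by
  rw [Nat.log_of_one_lt_of_le (by norm_num) (by rw [e_nat]; cases b <;> simp <;> omega)]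
  have : (e b n : ℕ) / 2 = n := by rw [e_nat]; cases b <;> simp <;> omega
  rw [this]

theorem e_pos (b : Bool) {n : ℕ} (hn : 1 ≤ n) : 1 ≤ (e b n : ℕ) := by
  rw [e_nat]; omega

theorem ap_pos (u : List Bool) {n : ℕ} (hn : 1 ≤ n) : 1 ≤ (ap u n : ℕ) := by
  induction u generalizing n with
  | nil => exact hn
  | cons b u ih => exact ih (e_pos b hn)

theorem log_ap (u : List Bool) {n : ℕ} (hn : 1 ≤ n) :
    Nat.log 2 (ap u n) = Nat.log 2 n + u.length := by
  induction u generalizing n with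
  | nil => rfl
  | cons b u ih =>
    rw [ap_cons, ih (e_pos b hn), log_e' b n hn, List.length_cons]
    omega

theorem pos_of_log {n : ℕ} (h : 1 ≤ Nat.log 2 n) : 1 ≤ n := by
  rcases Nat.eq_zero_or_pos n with rfl | h'
  · simp at h
  · exact h'

theorem σ_iter_pos {k n : ℕ} (h : k ≤ Nat.log 2 n) (hn : 1 ≤ n) : 1 ≤ (σ^[k] n : ℕ) := by
  induction k generalizing n with
  | zero => exact hn
  | succ k ih =>
    rw [Function.iterate_succ_apply]
    have h1 : 2 ≤ n := by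
      by_contra h2
      have : n = 1 := by omega
      subst this
      simp at h
    apply ih
    · rw [log_σ]; omega
    · rw [σ_nat]; omega

theorem log_ap_σ_ge (L : ℕ) (u : List Bool) {m : ℕ} (hm : L ≤ Nat.log 2 m) (hm1 : 1 ≤ m) :
    Nat.log 2 m - L ≤ Nat.log 2 (ap u (σ^[L] m)) := by
  rw [log_ap u (σ_iter_pos hm hm1), log_σ_iter]
  omega

theorem finite_log_lt (D : ℕ) : {m : ℕ | Nat.log 2 m < D}.Finite := by
  refine (finite_lt_nat (2 ^ D)).subset ?_
  intro m hm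
  exact Nat.lt_pow_of_log_lt (by norm_num) hm

/-! ### Good pairs -/

/-- `B A = 1` up to `c` on the rows of level at least `D` -/
def GdL (L D : ℕ) (c : ℝ) (a b : List Bool → ℕ → ℝ) : Prop :=
  ∀ m, D ≤ Nat.log 2 m → ∀ f : Linf ℕ, |Op L b (Op L a f) m - f m| ≤ c * ‖f‖

theorem GdL.sm {L D : ℕ} {c : ℝ} (hc : 0 ≤ c) {a b : List Bool → ℕ → ℝ} (h : GdL L D c a b) :
    SM c (Op L b * Op L a - 1) := by
  refine sm_of_rows' (finite_log_lt D) hc fun f m hm => ?_
  simp only [mem_setOf_eq, not_lt] at hm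
  exact h m hm f

/-- rows of level at least `D` -/
def hi (D : ℕ) : Set ℕ := {m | D ≤ Nat.log 2 m}

theorem FR_hi (D : ℕ) : FR (Pr (hi D) - 1) := by
  apply fr_of_rows (finite_log_lt D)
  intro f m hm
  simp only [mem_setOf_eq, not_lt] at hm
  show Pr (hi D) f m - f m = 0
  rw [Pr_apply_mem (show m ∈ hi D from hm), sub_self]

theorem range_hi_mul {L D : ℕ} {c : ℝ} (hc : 0 ≤ c) (hc1 : c < 1) {a b : List Bool → ℕ → ℝ}
    (h : GdL L D c b a) :
    LinearMap.range ((Pr (hi D) * Op L a : Linf ℕ →L[ℝ] Linf ℕ) : Linf ℕ →ₗ[ℝ] Linf ℕ) =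
      LinearMap.range ((Pr (hi D) : Linf ℕ →L[ℝ] Linf ℕ) : Linf ℕ →ₗ[ℝ] Linf ℕ) := by
  set Q := Pr (hi D) with hQ
  set A := Op L a with hA
  set B := Op L b with hB
  apply le_antisymm
  · rintro _ ⟨f, rfl⟩
    exact ⟨A f, rfl⟩
  · rintro _ ⟨g₀, rfl⟩
    have hQQ : ∀ f, Q (Q f) = Q f := by
      intro f
      apply Linf.ext
      intro m
      by_cases hm : m ∈ hi D
      · rw [Pr_apply_mem hm]
      · rw [Pr_apply_notMem hm, Pr_apply_notMem hm]
    let X : Linf ℕ →L[ℝ] Linf ℕ := Q * (A * B - 1)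
    have hX : ‖X‖ ≤ c := by
      apply opNorm_le_of_rows hc
      intro f m
      show |Q (A (B f) - f) m| ≤ _
      by_cases hm : m ∈ hi D
      · rw [Pr_apply_mem hm]
        exact h m hm f
      · rw [Pr_apply_notMem hm, abs_zero]
        exact mul_nonneg hc (norm_nonneg _)
    have hu : ‖-X‖ < 1 := by rw [norm_neg]; exact hX.trans_lt hc1
    let u : (Linf ℕ →L[ℝ] Linf ℕ)ˣ := Units.oneSub (-X) hu
    have hu' : (u : Linf ℕ →L[ℝ] Linf ℕ) = 1 + X := by
      show 1 - -X = 1 + X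
      abel
    set g := Q g₀ with hg
    let x : Linf ℕ := (↑u⁻¹ : Linf ℕ →L[ℝ] Linf ℕ) g
    have h1 : x + X x = g := by
      have : (u : Linf ℕ →L[ℝ] Linf ℕ) x = g := by
        show ((u : Linf ℕ →L[ℝ] Linf ℕ) * (↑u⁻¹ : Linf ℕ →L[ℝ] Linf ℕ)) g = g
        rw [Units.mul_inv]
        rfl
      rw [hu'] at this
      exact this
    have hQX : Q (X x) = X x := hQQ _
    have h2 : Q x = x := by
      have h3 : x = g - X x := by rw [← h1]; abel
      conv_lhs => rw [h3]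
      rw [map_sub, hQX, hg, hQQ, ← hg]
      exact h3.symm
    refine ⟨B x, ?_⟩
    show Q (A (B x)) = g
    have h4 : X x = Q (A (B x)) - Q x := by
      show Q (A (B x) - x) = _
      rw [map_sub]
    rw [← h1, h4, h2]
    abel

/-- the kernel of the truncated operator -/
noncomputable def kerhi (L D : ℕ) (a : List Bool → ℕ → ℝ) : Submodule ℝ (Linf ℕ) :=
  LinearMap.ker ((Pr (hi D) * Op L a : Linf ℕ →L[ℝ] Linf ℕ) : Linf ℕ →ₗ[ℝ] Linf ℕ)

theorem mem_kerhi {L D : ℕ} {a : List Bool → ℕ → ℝ} {f : Linf ℕ} :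
    f ∈ kerhi L D a ↔ ∀ m, D ≤ Nat.log 2 m → Op L a f m = 0 := by
  constructor
  · intro h m hm
    have h1 : Pr (hi D) (Op L a f) = 0 := h
    have h2 : Pr (hi D) (Op L a f) m = 0 := by rw [h1]; rfl
    rwa [Pr_apply_mem (show m ∈ hi D from hm)] at h2
  · intro h
    show Pr (hi D) (Op L a f) = 0
    apply Linf.ext
    intro m
    by_cases hm : m ∈ hi D
    · rw [Pr_apply_mem hm, h m hm]; rfl
    · rw [Pr_apply_notMem hm]; rfl

theorem idx_Op {L D : ℕ} {c : ℝ} (hc : 0 ≤ c) (hc1 : c < 1) {a b : List Bool → ℕ → ℝ}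
    (h : GdL L D c a b) (h' : GdL L D c b a) :
    idx (Op L a) = Module.finrank ℝ (kerhi L D a) - Module.finrank ℝ (Linf ℕ ⧸ LinearMap.range
      ((Pr (hi D) : Linf ℕ →L[ℝ] Linf ℕ) : Linf ℕ →ₗ[ℝ] Linf ℕ)) := by
  have hpar : Par c (Op L a) (Op L b) := ⟨h.sm hc, h'.sm hc⟩
  have hQ := (FR_hi D).sm.fred zero_lt_one
  have h1 : idx (Pr (hi D) * Op L a) = idx (Pr (hi D)) + idx (Op L a) :=
    Fred.index_comp (hpar.fred hc1) hQ.1
  rw [hQ.2, zero_add] at h1
  rw [← h1, idx, LinearMap.index_eq_finrank_sub, range_hi_mul hc hc1 h']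
  rfl

theorem kerhi_finite {L D : ℕ} {c : ℝ} (hc : 0 ≤ c) (hc1 : c < 1) {a b : List Bool → ℕ → ℝ}
    (h : GdL L D c a b) (h' : GdL L D c b a) : FiniteDimensional ℝ (kerhi L D a) := by
  have hpar : Par c (Op L a) (Op L b) := ⟨h.sm hc, h'.sm hc⟩
  have hQ := (FR_hi D).sm.fred zero_lt_one
  exact (Fred.comp (hpar.fred hc1) hQ.1).1

theorem kerhi_bound {L D : ℕ} {c C : ℝ} (hc1 : c < 1) (hC : 0 ≤ C) (hD : 1 ≤ D)
    {a b : List Bool → ℕ → ℝ} (hb : RB L C b) (h : GdL L D c a b) {f : Linf ℕ}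
    (hf : f ∈ kerhi L D a) {M : ℝ} (hM : 0 ≤ M) (hfM : ∀ m, Nat.log 2 m < D + L → |f m| ≤ M) :
    ‖f‖ ≤ M := by
  have h1 : ∀ m, D + L ≤ Nat.log 2 m → |f m| ≤ c * ‖f‖ := by
    intro m hm
    have h2 : Op L b (Op L a f) m = 0 := by
      rw [Op_apply hC hb]
      apply Finset.sum_eq_zero
      intro v _
      have h3 : D ≤ Nat.log 2 (ap v (σ^[L] m)) := by
        have := log_ap_σ_ge L v (m := m) (by omega) (pos_of_log (by omega))
        omega
      rw [mem_kerhi.1 hf _ h3, mul_zero]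
    have h3 := h m (by omega) f
    rw [h2, zero_sub, abs_neg] at h3
    exact h3
  have h2 : ‖f‖ ≤ max M (c * ‖f‖) := by
    apply Linf.norm_le (hM.trans (le_max_left _ _))
    intro m
    rcases lt_or_ge (Nat.log 2 m) (D + L) with hm | hm
    · exact (hfM m hm).trans (le_max_left _ _)
    · exact (h1 m hm).trans (le_max_right _ _)
  rcases le_total (c * ‖f‖) M with h3 | h3
  · rwa [max_eq_left h3] at h2
  · rw [max_eq_right h3] at h2
    have h4 : ‖f‖ ≤ 0 := by
      by_contra h5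
      push Not at h5
      nlinarith
    exact h4.trans hM

/-! ### Limits -/

/-- limit of coefficients along an ultrafilter -/
noncomputable def limC (V : Ultrafilter ℕ) (a : ℕ → List Bool → ℕ → ℝ) : List Bool → ℕ → ℝ :=
  fun u m => ulim V fun n => a n u m

theorem tendsto_limC {V : Ultrafilter ℕ} {L : ℕ} {C : ℝ} {a : ℕ → List Bool → ℕ → ℝ}
    (ha : ∀ n, RB L C (a n)) {u : List Bool} (hu : u ∈ W L) (m : ℕ) :
    Tendsto (fun n => a n u m) V (𝓝 (limC V a u m)) := by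
  apply tendsto_ulim V (C := C)
  refine Eventually.of_forall fun n => ?_
  exact (Finset.single_le_sum (f := fun u => |a n u m|) (fun _ _ => abs_nonneg _) hu).trans (ha n m)

theorem RB_limC {V : Ultrafilter ℕ} {L : ℕ} {C : ℝ} {a : ℕ → List Bool → ℕ → ℝ}
    (ha : ∀ n, RB L C (a n)) : RB L C (limC V a) := by
  intro m
  have h1 : Tendsto (fun n => ∑ u ∈ W L, |a n u m|) V (𝓝 (∑ u ∈ W L, |limC V a u m|)) :=
    tendsto_finsetSum _ fun u hu => (tendsto_limC ha hu m).abs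
  exact le_of_tendsto h1 (Eventually.of_forall fun n => ha n m)

theorem tendsto_Op {V : Ultrafilter ℕ} {L : ℕ} {C : ℝ} (hC : 0 ≤ C) {a : ℕ → List Bool → ℕ → ℝ}
    (ha : ∀ n, RB L C (a n)) {f : ℕ → Linf ℕ} {g : Linf ℕ}
    (hf : ∀ m, Tendsto (fun n => f n m) V (𝓝 (g m))) (m : ℕ) :
    Tendsto (fun n => Op L (a n) (f n) m) V (𝓝 (Op L (limC V a) g m)) := by
  have h1 : ∀ n, Op L (a n) (f n) m = ∑ u ∈ W L, a n u m * f n (ap u (σ^[L] m)) :=
    fun n => Op_apply hC (ha n) _ _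
  simp only [h1]
  rw [Op_apply hC (RB_limC ha)]
  exact tendsto_finsetSum _ fun u hu => (tendsto_limC ha hu m).mul (hf _)

theorem GdL_limC {V : Ultrafilter ℕ} {L D : ℕ} {c C : ℝ} (hC : 0 ≤ C)
    {a b : ℕ → List Bool → ℕ → ℝ} (ha : ∀ n, RB L C (a n)) (hb : ∀ n, RB L C (b n))
    (h : ∀ᶠ n in (V : Filter ℕ), GdL L D c (a n) (b n)) : GdL L D c (limC V a) (limC V b) := by
  intro m hm f
  have h1 : Tendsto (fun n => |Op L (b n) (Op L (a n) f) m - f m|) V
      (𝓝 |Op L (limC V b) (Op L (limC V a) f) m - f m|) := by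
    refine ((tendsto_Op hC hb (f := fun n => Op L (a n) f) ?_ m).sub_const _).abs
    exact tendsto_Op hC ha (f := fun _ => f) fun m => tendsto_const_nhds
  refine le_of_tendsto h1 ?_
  filter_upwards [h] with n hn
  exact hn m hm f

/-- restriction to the rows of small level -/
noncomputable def res (N : ℕ) : Linf ℕ →ₗ[ℝ] EuclideanSpace ℝ (finite_log_lt N).toFinset where
  toFun f := WithLp.toLp 2 fun m => f m.1
  map_add' f g := by
    ext m; rfl
  map_smul' c f := by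
    ext m; rfl

theorem res_apply (N : ℕ) (f : Linf ℕ) (m : (finite_log_lt N).toFinset) :
    res N f m = f m.1 := rfl

theorem exists_orthonormal {L D : ℕ} {c C : ℝ} (hc : 0 ≤ c) (hc1 : c < 1) (hC : 0 ≤ C) (hD : 1 ≤ D)
    {a b : List Bool → ℕ → ℝ} (hb : RB L C b) (h : GdL L D c a b) (h' : GdL L D c b a) {d : ℕ}
    (hd : d ≤ Module.finrank ℝ (kerhi L D a)) :
    ∃ z : Fin d → Linf ℕ, (∀ i, z i ∈ kerhi L D a) ∧ (∀ i, ‖z i‖ ≤ 1) ∧
      Orthonormal ℝ fun i => res (D + L) (z i) := by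
  set K := kerhi L D a with hK
  have hfin : FiniteDimensional ℝ K := kerhi_finite hc hc1 h h'
  let r : K →ₗ[ℝ] EuclideanSpace ℝ (finite_log_lt (D + L)).toFinset := res (D + L) ∘ₗ K.subtype
  have hr : Function.Injective r := by
    rw [← LinearMap.ker_eq_bot, LinearMap.ker_eq_bot']
    intro f hf
    have h1 : ‖(f : Linf ℕ)‖ ≤ 0 := by
      refine kerhi_bound hc1 hC hD hb h f.2 le_rfl fun m hm => ?_
      have h2 : r f ⟨m, by simpa using hm⟩ = 0 := by rw [hf]; rfl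
      have h3 : (f : Linf ℕ) m = 0 := h2
      rw [h3, abs_zero]
    exact Subtype.ext (norm_le_zero_iff.1 h1)
  let Wr := LinearMap.range r
  have hfr : Module.finrank ℝ Wr = Module.finrank ℝ K := LinearMap.finrank_range_of_inj hr
  let o := stdOrthonormalBasis ℝ Wr
  have hle : d ≤ Module.finrank ℝ Wr := by rw [hfr]; exact hd
  have hz : ∀ i : Fin d, ∃ z : K, r z = (o (Fin.castLE hle i) : EuclideanSpace ℝ _) := fun i =>
    (o (Fin.castLE hle i)).2
  choose z hz using hz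
  have hortho : Orthonormal ℝ fun i => res (D + L) (z i : Linf ℕ) := by
    have h1 : Orthonormal ℝ fun i : Fin d => ((o (Fin.castLE hle i) : Wr) :
        EuclideanSpace ℝ (finite_log_lt (D + L)).toFinset) := by
      have h2 := o.orthonormal.comp (Fin.castLE hle) (Fin.castLE_injective hle)
      exact h2.comp_linearIsometry Wr.subtypeₗᵢ
    convert h1 using 2 with i
    exact hz i
  refine ⟨fun i => z i, fun i => (z i).2, fun i => ?_, hortho⟩
  refine kerhi_bound hc1 hC hD hb h (z i).2 zero_le_one fun m hm => ?_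
  have h1 : ‖res (D + L) (z i : Linf ℕ)‖ = 1 := hortho.1 i
  have h2 := PiLp.norm_apply_le (res (D + L) (z i : Linf ℕ)) ⟨m, by simpa using hm⟩
  rw [h1] at h2
  exact h2

theorem finrank_kerhi_limC {V : Ultrafilter ℕ} {L D : ℕ} {c C : ℝ} (hc : 0 ≤ c) (hc1 : c < 1)
    (hC : 0 ≤ C) (hD : 1 ≤ D) {a b : ℕ → List Bool → ℕ → ℝ} (ha : ∀ n, RB L C (a n))
    (hb : ∀ n, RB L C (b n)) (h : ∀ᶠ n in (V : Filter ℕ), GdL L D c (a n) (b n))
    (h' : ∀ᶠ n in (V : Filter ℕ), GdL L D c (b n) (a n)) {d : ℕ}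
    (hd : ∀ᶠ n in (V : Filter ℕ), d ≤ Module.finrank ℝ (kerhi L D (a n))) :
    d ≤ Module.finrank ℝ (kerhi L D (limC V a)) := by
  have h1 : ∀ n, ∃ z : Fin d → Linf ℕ, (GdL L D c (a n) (b n) → GdL L D c (b n) (a n) →
      d ≤ Module.finrank ℝ (kerhi L D (a n)) → (∀ i, z i ∈ kerhi L D (a n)) ∧ (∀ i, ‖z i‖ ≤ 1) ∧
      Orthonormal ℝ fun i => res (D + L) (z i)) := by
    intro n
    by_cases h2 : GdL L D c (a n) (b n) ∧ GdL L D c (b n) (a n) ∧
        d ≤ Module.finrank ℝ (kerhi L D (a n))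
    · obtain ⟨z, hz⟩ := exists_orthonormal hc hc1 hC hD (hb n) h2.1 h2.2.1 h2.2.2
      exact ⟨z, fun _ _ _ => hz⟩
    · exact ⟨fun _ => 0, fun h3 h4 h5 => absurd ⟨h3, h4, h5⟩ h2⟩
  choose z hz using h1
  have hev : ∀ᶠ n in (V : Filter ℕ), (∀ i, z n i ∈ kerhi L D (a n)) ∧ (∀ i, ‖z n i‖ ≤ 1) ∧
      Orthonormal ℝ fun i => res (D + L) (z n i) := by
    filter_upwards [h, h', hd] with n h2 h3 h4
    exact hz n h2 h3 h4
  have hbd : ∀ i m, ∀ᶠ n in (V : Filter ℕ), |z n i m| ≤ 1 := fun i m => by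
    filter_upwards [hev] with n hn
    exact (Linf.le_norm _ m).trans (hn.2.1 i)
  let y : Fin d → Linf ℕ := fun i => Linf.mk (fun m => ulim V fun n => z n i m)
    ⟨1, fun m => abs_ulim_le (hbd i m)⟩
  have hy : ∀ i m, Tendsto (fun n => z n i m) V (𝓝 (y i m)) := fun i m => tendsto_ulim V (hbd i m)
  have hyk : ∀ i, y i ∈ kerhi L D (limC V a) := by
    intro i
    rw [mem_kerhi]
    intro m hm
    have h2 := tendsto_Op hC ha (f := fun n => z n i) (g := y i) (hy i) m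
    refine tendsto_nhds_unique h2 ?_
    refine (tendsto_const_nhds (x := (0 : ℝ))).congr' ?_
    filter_upwards [hev] with n hn
    exact (mem_kerhi.1 (hn.1 i) m hm).symm
  have hyo : Orthonormal ℝ fun i => res (D + L) (y i) := by
    rw [orthonormal_iff_ite]
    intro i j
    have h2 : Tendsto (fun n => inner ℝ (res (D + L) (z n i)) (res (D + L) (z n j))) V
        (𝓝 (inner ℝ (res (D + L) (y i)) (res (D + L) (y j)))) := by
      simp only [PiLp.inner_apply]
      refine tendsto_finsetSum _ fun m _ => ?_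
      simp only [res_apply]
      exact (hy i m.1).inner (hy j m.1)
    refine tendsto_nhds_unique h2 ?_
    refine (tendsto_const_nhds (x := if i = j then (1 : ℝ) else 0)).congr' ?_
    filter_upwards [hev] with n hn
    exact (orthonormal_iff_ite.1 hn.2.2 i j).symm
  have hli : LinearIndependent ℝ fun i => (⟨y i, hyk i⟩ : kerhi L D (limC V a)) := by
    have h2 := hyo.linearIndependent
    have h3 : (fun i => res (D + L) (y i)) = (res (D + L) ∘ₗ (kerhi L D (limC V a)).subtype) ∘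
        fun i => (⟨y i, hyk i⟩ : kerhi L D (limC V a)) := rfl
    rw [h3] at h2
    exact LinearIndependent.of_comp _ h2
  have hfin : FiniteDimensional ℝ (kerhi L D (limC V a)) :=
    kerhi_finite hc hc1 (GdL_limC hC ha hb h) (GdL_limC hC hb ha h')
  have h2 := hli.fintype_card_le_finrank
  simpa using h2

/-- **Continuity of the index.** -/
theorem idx_limC {V : Ultrafilter ℕ} {L D : ℕ} {c C : ℝ} (hc : 0 ≤ c) (hc1 : c < 1)
    (hC : 0 ≤ C) (hD : 1 ≤ D) {a b : ℕ → List Bool → ℕ → ℝ} (ha : ∀ n, RB L C (a n))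
    (hb : ∀ n, RB L C (b n)) (h : ∀ᶠ n in (V : Filter ℕ), GdL L D c (a n) (b n))
    (h' : ∀ᶠ n in (V : Filter ℕ), GdL L D c (b n) (a n)) :
    ∀ᶠ n in (V : Filter ℕ), idx (Op L (a n)) = idx (Op L (limC V a)) := by
  have key : ∀ {a b : ℕ → List Bool → ℕ → ℝ}, (∀ n, RB L C (a n)) → (∀ n, RB L C (b n)) →
      (∀ᶠ n in (V : Filter ℕ), GdL L D c (a n) (b n)) →
      (∀ᶠ n in (V : Filter ℕ), GdL L D c (b n) (a n)) →
      ∀ᶠ n in (V : Filter ℕ), idx (Op L (a n)) ≤ idx (Op L (limC V a)) := by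
    intro a b ha hb h h'
    have h1 : ∀ᶠ n in (V : Filter ℕ), Module.finrank ℝ (kerhi L D (a n)) ≤
        Module.finrank ℝ (kerhi L D (limC V a)) := by
      by_contra h2
      have h3 : ∀ᶠ n in (V : Filter ℕ), Module.finrank ℝ (kerhi L D (limC V a)) + 1 ≤
          Module.finrank ℝ (kerhi L D (a n)) := by
        rw [← Ultrafilter.eventually_not] at h2
        filter_upwards [h2] with n hn
        omega
      have h4 := finrank_kerhi_limC hc hc1 hC hD ha hb h h' h3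
      omega
    filter_upwards [h1, h, h'] with n h2 h3 h4
    rw [idx_Op hc hc1 h3 h4, idx_Op hc hc1 (GdL_limC hC ha hb h) (GdL_limC hC hb ha h')]
    omega
  have hlim : Par c (Op L (limC V a)) (Op L (limC V b)) :=
    ⟨(GdL_limC hC ha hb h).sm hc, (GdL_limC hC hb ha h').sm hc⟩
  filter_upwards [key ha hb h h', key hb ha h' h, h, h'] with n h1 h2 h3 h4
  have hn : Par c (Op L (a n)) (Op L (b n)) := ⟨h3.sm hc, h4.sm hc⟩
  have h5 := hn.idx_add hc1
  have h6 := hlim.idx_add hc1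
  omega

end Pool.Agent.Work.MP_e5cb06_gt
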