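import Pool.Agent.Work.MP_e5cb06_gt.Gen

/-!
# The successor step of the construction of the Boolean algebra
-/

set_option autoImplicit false

open Set Cardinal

namespace Pool.Agent.Work.MP_e5cb06_gt

open Dyn

/-- operation symbols -/
inductive OpS : Type
  | var | compl | inter
  | im (b : Bool)
  | pre (b : Bool)

/-- symbols: constants from `G` and operation symbols -/
abbrev Sym (G : Set (Set ℕ)) : Type := G ⊕ OpS

/-- arities -/
def ar {G : Set (Set ℕ)} : Sym G → Type
  | .inl _ => Empty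
  | .inr .var => Empty
  | .inr .compl => Unit
  | .inr .inter => Bool
  | .inr (.im _) => Unit
  | .inr (.pre _) => Unit

/-- terms with constants from `G` in one variable -/
abbrev Tm (G : Set (Set ℕ)) : Type := WType (ar (G := G))

/-- evaluation of terms -/
def ev {G : Set (Set ℕ)} (X : Set ℕ) : Tm G → Set ℕ
  | ⟨.inl g, _⟩ => g.1
  | ⟨.inr .var, _⟩ => X
  | ⟨.inr .compl, f⟩ => (ev X (f ()))ᶜ
  | ⟨.inr .inter, f⟩ => ev X (f true) ∩ ev X (f false)
  | ⟨.inr (.im b), f⟩ => e b '' ev X (f ())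
  | ⟨.inr (.pre b), f⟩ => e b ⁻¹' ev X (f ())

theorem gen_ev {G : Set (Set ℕ)} (X : Set ℕ) (t : Tm G) : Gen (insert X G) (ev X t) := by
  induction t with
  | mk a f ih =>
    rcases a with g | a
    · exact .base (mem_insert_of_mem _ g.2)
    · cases a with
      | var => exact .base (mem_insert _ _)
      | compl => exact .compl (ih ())
      | inter => exact .inter (ih true) (ih false)
      | im b => exact .im b (ih ())
      | pre b => exact .pre b (ih ())

theorem exists_ev {B : Set (Set ℕ)} (hB : Closed B) (X : Set ℕ) {s : Set ℕ}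
    (hs : Gen (insert X B) s) : ∃ t : Tm B, ev X t = s := by
  induction hs with
  | base h =>
    rcases h with rfl | h
    · exact ⟨⟨.inr .var, Empty.elim⟩, rfl⟩
    · exact ⟨⟨.inl ⟨_, h⟩, Empty.elim⟩, rfl⟩
  | atom n => exact ⟨⟨.inl ⟨_, hB.atom n⟩, Empty.elim⟩, rfl⟩
  | lev m r => exact ⟨⟨.inl ⟨_, hB.lev m r⟩, Empty.elim⟩, rfl⟩
  | compl _ ih =>
    obtain ⟨t, rfl⟩ := ih
    exact ⟨⟨.inr .compl, fun _ => t⟩, rfl⟩
  | inter _ _ ih1 ih2 =>
    obtain ⟨t1, rfl⟩ := ih1
    obtain ⟨t2, rfl⟩ := ih2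
    exact ⟨⟨.inr .inter, fun b => match b with | true => t1 | false => t2⟩, rfl⟩
  | im b _ ih =>
    obtain ⟨t, rfl⟩ := ih
    exact ⟨⟨.inr (.im b), fun _ => t⟩, rfl⟩
  | pre b _ ih =>
    obtain ⟨t, rfl⟩ := ih
    exact ⟨⟨.inr (.pre b), fun _ => t⟩, rfl⟩

theorem ev_mem {B : Set (Set ℕ)} (hB : Closed B) {X : Set ℕ} (hX : X ∈ B) (t : Tm B) :
    ev X t ∈ B := by
  have := gen_ev X t
  rw [insert_eq_of_mem hX] at this
  exact hB _ this

/-- two sets agree on a third set -/
def AgreeOn (S X Y : Set ℕ) : Prop := ∀ z ∈ S, (z ∈ X ↔ z ∈ Y)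

theorem AgreeOn.mono {S S' X Y : Set ℕ} (h : AgreeOn S X Y) (hS : S' ⊆ S) : AgreeOn S' X Y :=
  fun z hz => h z (hS hz)

theorem nbr_succ_of_e {b : Bool} {L x : ℕ} : nbr L (e b x) ⊆ nbr (L + 1) x := fun _ hz =>
  have h1 : e b x ∈ nbr 1 x := by
    obtain ⟨u, hu, hux⟩ := exists_ap 1 x
    exact ⟨u ++ [b], by simp [hu], by rw [ap_concat, hux]⟩
  nbr_trans h1 hz

theorem nbr_succ_of_σ {L x : ℕ} : nbr L (σ x) ⊆ nbr (L + 1) x := fun _ hz =>
  have h1 : σ x ∈ nbr 1 x := ⟨[], by simp, rfl⟩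
  nbr_trans h1 hz

theorem ev_local {G : Set (Set ℕ)} (t : Tm G) : ∃ L : ℕ, ∀ (X Y : Set ℕ) (x : ℕ),
    AgreeOn (nbr L x) X Y → (x ∈ ev X t ↔ x ∈ ev Y t) := by
  induction t with
  | mk a f ih =>
    rcases a with g | a
    · exact ⟨0, fun X Y x _ => Iff.rfl⟩
    · cases a with
      | var => exact ⟨0, fun X Y x h => h x (self_mem_nbr 0 x)⟩
      | compl =>
        obtain ⟨L, hL⟩ := ih ()
        exact ⟨L, fun X Y x h => not_congr (hL X Y x h)⟩
      | inter =>
        obtain ⟨L, hL⟩ := ih true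
        obtain ⟨L', hL'⟩ := ih false
        refine ⟨max L L', fun X Y x h => and_congr (hL X Y x (h.mono (nbr_mono (le_max_left _ _) _)))
          (hL' X Y x (h.mono (nbr_mono (le_max_right _ _) _)))⟩
      | im b =>
        obtain ⟨L, hL⟩ := ih ()
        refine ⟨L + 1, fun X Y x h => ?_⟩
        have key := hL X Y (σ x) (h.mono nbr_succ_of_σ)
        constructor
        · rintro ⟨y, hy, rfl⟩
          rw [σ_e] at key
          exact ⟨y, key.1 hy, rfl⟩
        · rintro ⟨y, hy, rfl⟩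
          rw [σ_e] at key
          exact ⟨y, key.2 hy, rfl⟩
      | pre b =>
        obtain ⟨L, hL⟩ := ih ()
        exact ⟨L + 1, fun X Y x h => hL X Y (e b x) (h.mono nbr_succ_of_e)⟩

theorem val_local {G : Set (Set ℕ)} (l : List (ℤ × Tm G)) : ∃ L : ℕ, ∀ (X Y : Set ℕ) (x : ℕ),
    AgreeOn (nbr L x) X Y → val (ev X) l x = val (ev Y) l x := by
  induction l with
  | nil => exact ⟨0, fun X Y x _ => by simp [val]⟩
  | cons p l ih =>
    obtain ⟨L, hL⟩ := ih
    obtain ⟨L', hL'⟩ := ev_local p.2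
    refine ⟨max L L', fun X Y x h => ?_⟩
    have h1 := hL X Y x (h.mono (nbr_mono (le_max_left _ _) _))
    have h2 := hL' X Y x (h.mono (nbr_mono (le_max_right _ _) _))
    simp only [val, List.map_cons, List.sum_cons] at h1 ⊢
    rw [h1]
    congr 1
    classical
    rw [indicator_apply, indicator_apply]
    simp only [h2]

/-- `C` separates `N0` and `N1` modulo finite sets -/
def Sep (C N0 N1 : Set ℕ) : Prop := (N0 \ C).Finite ∧ (N1 ∩ C).Finite

/-- separated sequences of points and sets -/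
structure Separated (n : ℕ → ℕ) (A : ℕ → Set ℕ) : Prop where
  inj : Function.Injective n
  s2 : ∀ L, ∃ m, ∀ j k, m ≤ j → m ≤ k → j ≠ k → ∀ x, (nbr L x ∩ A j).Nonempty →
    (nbr L x ∩ A k).Nonempty → False
  s3 : ∀ L, ∃ m, ∀ j k, m ≤ j → m ≤ k → ¬ (nbr L (n k) ∩ A j).Nonempty

/-- the union of the `A k`, `k ∈ I` -/
def U (A : ℕ → Set ℕ) (I : Set ℕ) : Set ℕ := ⋃ k ∈ I, A k

theorem mem_U {A : ℕ → Set ℕ} {I : Set ℕ} {x : ℕ} : x ∈ U A I ↔ ∃ k ∈ I, x ∈ A k := by
  simp [U]

theorem agree {A : ℕ → Set ℕ} {L m : ℕ}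
    (h2 : ∀ j k, m ≤ j → m ≤ k → j ≠ k → ∀ x, (nbr L x ∩ A j).Nonempty →
      (nbr L x ∩ A k).Nonempty → False) {I J : Set ℕ} (hIJ : ∀ k < m, k ∈ I ↔ k ∈ J) (x : ℕ) :
    AgreeOn (nbr L x) (U A (I ∩ J)) (U A I) ∨ AgreeOn (nbr L x) (U A (I ∩ J)) (U A J) := by
  by_cases h : ∃ k, m ≤ k ∧ k ∈ I \ J ∧ (nbr L x ∩ A k).Nonempty
  · obtain ⟨k, hk, hkIJ, hkx⟩ := h
    right
    intro z hz
    rw [mem_U, mem_U]
    constructor
    · rintro ⟨j, hj, hzj⟩
      exact ⟨j, hj.2, hzj⟩
    · rintro ⟨j, hj, hzj⟩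
      rcases lt_or_ge j m with hjm | hjm
      · exact ⟨j, ⟨(hIJ j hjm).2 hj, hj⟩, hzj⟩
      · exfalso
        refine h2 j k hjm hk ?_ x ⟨z, hz, hzj⟩ hkx
        rintro rfl
        exact hkIJ.2 hj
  · left
    intro z hz
    rw [mem_U, mem_U]
    constructor
    · rintro ⟨j, hj, hzj⟩
      exact ⟨j, hj.1, hzj⟩
    · rintro ⟨j, hj, hzj⟩
      rcases lt_or_ge j m with hjm | hjm
      · exact ⟨j, ⟨hj, (hIJ j hjm).1 hj⟩, hzj⟩
      · refine ⟨j, ⟨hj, ?_⟩, hzj⟩
        by_contra hjJ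
        exact h ⟨j, hjm, ⟨hj, hjJ⟩, ⟨z, hz, hzj⟩⟩

/-- branches of the binary tree as subsets of `ℕ` -/
def branch (x : ℕ → Bool) : Set ℕ :=
  range fun k : ℕ => Encodable.encode (List.ofFn fun i : Fin k => x i)

theorem branch_infinite (x : ℕ → Bool) : (branch x).Infinite := by
  apply infinite_range_of_injective
  intro k k' h
  have h1 := Encodable.encode_injective h
  have h2 := congrArg List.length h1
  simpa using h2

theorem branch_inter {x y : ℕ → Bool} (h : x ≠ y) : (branch x ∩ branch y).Finite := by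
  obtain ⟨i, hi⟩ := Function.ne_iff.1 h
  refine ((finite_le_nat i).image
    fun k : ℕ => Encodable.encode (List.ofFn fun i : Fin k => x i)).subset ?_
  rintro _ ⟨⟨k, rfl⟩, ⟨k', hk'⟩⟩
  refine ⟨k, ?_, rfl⟩
  have h1 := Encodable.encode_injective hk'
  have h2 := congrArg List.length h1
  simp only [List.length_ofFn] at h2
  subst h2
  show k' ≤ i
  by_contra hk
  push Not at hk
  have h3 := List.ofFn_injective h1
  exact hi (congrFun h3 ⟨i, hk⟩).symm

theorem branch_diff {x y : ℕ → Bool} (h : x ≠ y) : (branch x \ branch y).Infinite := by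
  intro hfin
  apply branch_infinite x
  have : branch x = (branch x \ branch y) ∪ (branch x ∩ branch y) := by
    rw [diff_union_inter]
  rw [this]
  exact hfin.union (branch_inter h)

instance : Finite OpS := by
  have : Function.Injective (fun o : OpS => match o with
    | .var => (0 : Fin 7) | .compl => 1 | .inter => 2 | .im true => 3 | .im false => 4
    | .pre true => 5 | .pre false => 6) := by
    intro a b
    rcases a with _ | _ | _ | (_ | _) | (_ | _) <;> rcases b with _ | _ | _ | (_ | _) | (_ | _) <;>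
      simp
  exact Finite.of_injective _ this

theorem mk_Tm_lt {G : Set (Set ℕ)} (hG : #G < 𝔠) : #(Tm G) < 𝔠 := by
  have hfin : ∀ a : Sym G, Finite (ar a) := by
    rintro (g | (_ | _ | _ | b | b))
    · exact inferInstanceAs (Finite Empty)
    · exact inferInstanceAs (Finite Empty)
    · exact inferInstanceAs (Finite Unit)
    · exact inferInstanceAs (Finite Bool)
    · exact inferInstanceAs (Finite Unit)
    · exact inferInstanceAs (Finite Unit)
  have h1 : #(Tm G) ≤ max #(Sym G) ℵ₀ := WType.cardinalMk_le_max_aleph0_of_finite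
  refine h1.trans_lt (max_lt ?_ aleph0_lt_continuum)
  rw [mk_sum, lift_id, lift_id]
  exact add_lt_of_lt aleph0_le_continuum hG ((lt_aleph0_of_finite _).trans aleph0_lt_continuum)

theorem mk_list_lt {α : Type} (h : #α < 𝔠) : #(List α) < 𝔠 :=
  (mk_list_le_max α).trans_lt (max_lt aleph0_lt_continuum h)

theorem mk_prod_lt {α β : Type} (hα : #α < 𝔠) (hβ : #β < 𝔠) : #(α × β) < 𝔠 := by
  rw [mk_prod, lift_id, lift_id]
  exact mul_lt_of_lt aleph0_le_continuum hα hβ

theorem mk_sum_lt {α β : Type} (hα : #α < 𝔠) (hβ : #β < 𝔠) : #(α ⊕ β) < 𝔠 := by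
  rw [mk_sum, lift_id, lift_id]
  exact add_lt_of_lt aleph0_le_continuum hα hβ

theorem mk_countable_lt (α : Type) [Countable α] : #α < 𝔠 :=
  (mk_le_aleph0 (α := α)).trans_lt aleph0_lt_continuum

section Main

variable {B : Set (Set ℕ)} (P : Set (Set ℕ × Set ℕ)) (n : ℕ → ℕ) (A : ℕ → Set ℕ)

/-- possible witnesses of failure -/
abbrev Wit (B : Set (Set ℕ)) (P : Set (Set ℕ × Set ℕ)) : Type :=
  (List (ℤ × Tm B) × ℕ) ⊕ ((P × Tm B) ⊕ Tm B)

/-- `w` witnesses the failure of `I` -/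
def Bad (I : Set ℕ) : Wit B P → Prop
  | .inl (l, n₀) => IsFlow (val (ev (U A I)) l) ∧ 1 ≤ n₀ ∧ val (ev (U A I)) l n₀ ≠ 0
  | .inr (.inl (p, t)) => Sep (ev (U A I) t) p.1.1 p.1.2
  | .inr (.inr t) => Sep (ev (U A I) t) (n '' I) (n '' Iᶜ)

end Main

theorem step {B : Set (Set ℕ)} (hB : Closed B) (hcard : #B < 𝔠) (hflow : NoFlow B)
    {P : Set (Set ℕ × Set ℕ)} (hP : #P < 𝔠) (hsep : ∀ p ∈ P, ∀ C ∈ B, ¬ Sep C p.1 p.2)
    {n : ℕ → ℕ} {A : ℕ → Set ℕ} (hs : Separated n A) (hA : ∀ k, A k ∈ B) :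
    ∃ I : Set ℕ, I.Infinite ∧ NoFlow {s | Gen (insert (U A I) B) s} ∧
      ∀ p ∈ insert (n '' I, n '' Iᶜ) P, ∀ C, Gen (insert (U A I) B) C → ¬ Sep C p.1 p.2 := by
  classical
  by_contra hcon
  -- every branch fails
  have hbad : ∀ x : ℕ → Bool, ∃ w : Wit B P, Bad P n A (branch x) w := by
    intro x
    by_contra hx
    push Not at hx
    apply hcon
    refine ⟨branch x, branch_infinite x, ?_, ?_⟩
    · intro l hl hfl n₀ hn₀
      by_contra hne
      -- lift the list to terms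
      have hlift : ∃ l' : List (ℤ × Tm B), val (ev (U A (branch x))) l' = val id l := by
        clear hfl hne
        induction l with
        | nil => exact ⟨[], by funext n; simp [val]⟩
        | cons p l ih =>
          obtain ⟨l', hl'⟩ := ih fun q hq => hl q (List.mem_cons_of_mem _ hq)
          obtain ⟨t, ht⟩ := exists_ev hB _ (hl p List.mem_cons_self)
          refine ⟨(p.1, t) :: l', ?_⟩
          funext n
          have := congrFun hl' n
          simp only [val, List.map_cons, List.sum_cons, id] at this ⊢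
          rw [this, ht]
      obtain ⟨l', hl'⟩ := hlift
      refine hx (.inl (l', n₀)) ⟨?_, hn₀, ?_⟩
      · rw [hl']; exact hfl
      · rw [hl']; exact hne
    · rintro p hp C hC hsepC
      obtain ⟨t, rfl⟩ := exists_ev hB _ hC
      rcases hp with rfl | hp
      · exact hx (.inr (.inr t)) hsepC
      · exact hx (.inr (.inl (⟨p, hp⟩, t))) hsepC
  choose w hw using hbad
  choose rad₁ hrad₁ using fun l : List (ℤ × Tm B) => val_local l
  choose rad₂ hrad₂ using fun t : Tm B => ev_local t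
  let rad : Wit B P → ℕ := fun w => match w with
    | .inl (l, _) => rad₁ l + 1
    | .inr (.inl (_, t)) => rad₂ t
    | .inr (.inr t) => rad₂ t
  choose m₂ hm₂ using hs.s2
  choose m₃ hm₃ using hs.s3
  let m : Wit B P → ℕ := fun w => max (m₂ (rad w)) (m₃ (rad w))
  let trace : (ℕ → Bool) → Finset ℕ := fun x => (Finset.range (m (w x))).filter (· ∈ branch x)
  -- pigeonhole
  have hpig : ∃ x y : ℕ → Bool, x ≠ y ∧ w x = w y ∧ trace x = trace y := by
    by_contra hno
    push Not at hno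
    have hinj : Function.Injective fun x : ℕ → Bool => (w x, trace x) := by
      intro x y hxy
      by_contra hne
      exact hno x y hne (congrArg Prod.fst hxy) (congrArg Prod.snd hxy)
    have h1 := mk_le_of_injective hinj
    have h2 : #(Wit B P × Finset ℕ) < 𝔠 := by
      have hT := mk_Tm_lt hcard
      apply mk_prod_lt _ (mk_countable_lt _)
      apply mk_sum_lt
      · apply mk_prod_lt _ (mk_countable_lt _)
        apply mk_list_lt
        exact mk_prod_lt (mk_countable_lt _) hT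
      · exact mk_sum_lt (mk_prod_lt hP hT) hT
    have h3 : #(ℕ → Bool) = 𝔠 := by simp
    rw [h3] at h1
    exact absurd h1 (not_le.2 h2)
  obtain ⟨x, y, hxy, hwxy, htr⟩ := hpig
  have hwy := hw y
  rw [← hwxy] at hwy
  have hwx := hw x
  have htrace : ∀ k < m (w x), k ∈ branch x ↔ k ∈ branch y := by
    intro k hk
    have h1 : k ∈ trace x ↔ k ∈ trace y := by rw [htr]
    simp only [trace, Finset.mem_filter, Finset.mem_range] at h1
    rw [← hwxy] at h1
    simpa [hk] using h1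
  have hstar : U A (branch x ∩ branch y) ∈ B :=
    hB.biUnion (branch_inter hxy) fun i _ => hA i
  have hagree : ∀ z : ℕ,
      AgreeOn (nbr (rad (w x)) z) (U A (branch x ∩ branch y)) (U A (branch x)) ∨
      AgreeOn (nbr (rad (w x)) z) (U A (branch x ∩ branch y)) (U A (branch y)) := by
    intro z
    refine agree (m := m (w x)) (fun j k hj hk => ?_) htrace z
    exact hm₂ _ j k ((le_max_left _ _).trans hj) ((le_max_left _ _).trans hk)
  have hm₃' : ∀ j k, m (w x) ≤ j → m (w x) ≤ k → ¬ (nbr (rad (w x)) (n k) ∩ A j).Nonempty :=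
    fun j k hj hk => hm₃ _ j k ((le_max_right _ _).trans hj) ((le_max_right _ _).trans hk)
  generalize hmw : m (w x) = M at htrace hm₃'
  generalize hW : w x = W at hagree hwx hwy hm₃'
  clear hcon
  rcases W with ⟨l, n₀⟩ | (⟨p, t⟩ | t)
  · -- flows
    obtain ⟨hfx, hn₀, hnex⟩ := hwx
    obtain ⟨hfy, -, hney⟩ := hwy
    have hag : ∀ z z' : ℕ, nbr (rad₁ l) z' ⊆ nbr (rad₁ l + 1) z →
        AgreeOn (nbr (rad₁ l + 1) z) (U A (branch x ∩ branch y)) (U A (branch x)) →
        val (ev (U A (branch x ∩ branch y))) l z' = val (ev (U A (branch x))) l z' :=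
      fun z z' h h' => hrad₁ l _ _ _ (h'.mono h)
    have hag' : ∀ z z' : ℕ, nbr (rad₁ l) z' ⊆ nbr (rad₁ l + 1) z →
        AgreeOn (nbr (rad₁ l + 1) z) (U A (branch x ∩ branch y)) (U A (branch y)) →
        val (ev (U A (branch x ∩ branch y))) l z' = val (ev (U A (branch y))) l z' :=
      fun z z' h h' => hrad₁ l _ _ _ (h'.mono h)
    have hflow' : IsFlow (val (ev (U A (branch x ∩ branch y))) l) := by
      intro z hz
      have e0 : nbr (rad₁ l) z ⊆ nbr (rad₁ l + 1) z := nbr_mono (Nat.le_succ _) z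
      have e1 : nbr (rad₁ l) (2 * z) ⊆ nbr (rad₁ l + 1) z := nbr_succ_of_e (b := false)
      have e2 : nbr (rad₁ l) (2 * z + 1) ⊆ nbr (rad₁ l + 1) z := nbr_succ_of_e (b := true)
      rcases hagree z with h | h
      · rw [hag z z e0 h, hag z _ e1 h, hag z _ e2 h]
        exact hfx z hz
      · rw [hag' z z e0 h, hag' z _ e1 h, hag' z _ e2 h]
        exact hfy z hz
    -- the list of members of `B`
    let l₀ : List (ℤ × Set ℕ) := l.map fun p => (p.1, ev (U A (branch x ∩ branch y)) p.2)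
    have hval : val id l₀ = val (ev (U A (branch x ∩ branch y))) l := by
      funext z
      simp [val, l₀, Function.comp_def]
    have h0 := hflow l₀ (by
      intro p hp
      simp only [l₀, List.mem_map] at hp
      obtain ⟨q, -, rfl⟩ := hp
      exact ev_mem hB hstar _) (by rw [hval]; exact hflow') n₀ hn₀
    rw [hval] at h0
    have e0 : nbr (rad₁ l) n₀ ⊆ nbr (rad₁ l + 1) n₀ := nbr_mono (Nat.le_succ _) n₀
    rcases hagree n₀ with h | h
    · rw [hag n₀ n₀ e0 h] at h0
      exact hnex h0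
    · rw [hag' n₀ n₀ e0 h] at h0
      exact hney h0
  · -- old promises
    refine hsep p.1 p.2 _ (ev_mem hB hstar t) ⟨?_, ?_⟩
    · refine (hwx.1.union hwy.1).subset ?_
      rintro z ⟨hz, hzt⟩
      rcases hagree z with h | h
      · exact Or.inl ⟨hz, fun h' => hzt ((hrad₂ t _ _ z h).2 h')⟩
      · exact Or.inr ⟨hz, fun h' => hzt ((hrad₂ t _ _ z h).2 h')⟩
    · refine (hwx.2.union hwy.2).subset ?_
      rintro z ⟨hz, hzt⟩
      rcases hagree z with h | h
      · exact Or.inl ⟨hz, (hrad₂ t _ _ z h).1 hzt⟩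
      · exact Or.inr ⟨hz, (hrad₂ t _ _ z h).1 hzt⟩
  · -- the new promise
    have h1 : ∀ k, M ≤ k → (n k ∈ ev (U A (branch x)) t ↔ n k ∈ ev (U A (branch y)) t) := by
      intro k hk
      apply hrad₂ t
      intro z hz
      rw [mem_U, mem_U]
      constructor
      · rintro ⟨j, hj, hzj⟩
        rcases lt_or_ge j M with hjm | hjm
        · exact ⟨j, (htrace j hjm).1 hj, hzj⟩
        · exact absurd ⟨z, hz, hzj⟩ (hm₃' j k hjm hk)
      · rintro ⟨j, hj, hzj⟩
        rcases lt_or_ge j M with hjm | hjm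
        · exact ⟨j, (htrace j hjm).2 hj, hzj⟩
        · exact absurd ⟨z, hz, hzj⟩ (hm₃' j k hjm hk)
    have h2 : (n '' (branch x \ branch y)).Infinite := (branch_diff hxy).image hs.inj.injOn
    apply h2
    refine (((hwx.1.union hwy.2).union ((finite_lt_nat M).image n))).subset ?_
    rintro _ ⟨k, hk, rfl⟩
    rcases lt_or_ge k M with hkm | hkm
    · exact Or.inr ⟨k, hkm, rfl⟩
    · left
      by_cases hkx : n k ∈ ev (U A (branch x)) t
      · exact Or.inr ⟨⟨k, hk.2, rfl⟩, (h1 k hkm).1 hkx⟩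
      · exact Or.inl ⟨⟨k, hk.1, rfl⟩, hkx⟩

end Pool.Agent.Work.MP_e5cb06_gt
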