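import Pool.Agent.Work.MP_e5cb06_gt.Rows
import Pool.Agent.Work.MP_e5cb06_gt.Step
import Pool.Agent.Work.MP_e5cb06_gt.ULim

/-!
# The operators on `C_p(K)` are small perturbations of band operators
-/

set_option autoImplicit false

open Set Filter Topology

namespace Pool.Agent.Work.MP_e5cb06_gt

open Dyn

/-! ### Thickenings -/

section Thick

variable {X : Type} [Dyn X]

/-- thickening of a set -/
def thick (k : ℕ) (E : Set X) : Set X := {x | (nbr k x ∩ E).Nonempty}

theorem thick_mono {k : ℕ} {E F : Set X} (h : E ⊆ F) : thick k E ⊆ thick k F :=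
  fun _ hx => hx.mono (inter_subset_inter_right _ h)

theorem subset_thick (k : ℕ) (E : Set X) : E ⊆ thick k E := fun x hx => ⟨x, self_mem_nbr k x, hx⟩

theorem thick_finite {k : ℕ} {G : Set X} (hG : G.Finite) : (thick k G).Finite := by
  refine (hG.biUnion fun g _ => nbr_finite (2 * k) g).subset ?_
  rintro x ⟨g, hgx, hg⟩
  exact mem_biUnion hg (nbr_symm hgx)

/-- the words of length at most `2 k` -/
theorem thick_eq (k : ℕ) (E : Set X) :
    thick k E = ⋃ u ∈ {u : List Bool | u.length ≤ 2 * k}, (fun x => ap u (σ^[k] x)) ⁻¹' E := by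
  ext x
  simp only [thick, nbr, Set.Nonempty, mem_iUnion]
  constructor
  · rintro ⟨y, ⟨u, hu, rfl⟩, hy⟩
    exact ⟨u, hu, hy⟩
  · rintro ⟨u, hu, hy⟩
    exact ⟨_, ⟨u, hu, rfl⟩, hy⟩

end Thick

variable {B : Set (Set ℕ)} [hB : Fact (Closed B)]

theorem continuous_phi (k : ℕ) (u : List Bool) : Continuous fun x : K B => ap u (σ^[k] x) :=
  (continuous_ap u).comp (continuous_σ_iter k)

theorem isClosed_thick {k : ℕ} {E : Set (K B)} (hE : IsClosed E) : IsClosed (thick k E) := by
  rw [thick_eq]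
  exact (List.finite_length_le Bool (2 * k)).isClosed_biUnion fun u _ =>
    hE.preimage (continuous_phi k u)

/-- small neighbourhoods have small thickenings -/
theorem exists_open_thick {k : ℕ} {G V : Set (K B)} (hV : IsOpen V) (hGV : thick k G ⊆ V) :
    ∃ O : Set (K B), IsOpen O ∧ G ⊆ O ∧ thick k O ⊆ V := by
  refine ⟨⋂ u ∈ {u : List Bool | u.length ≤ 2 * k}, ((fun x : K B => ap u (σ^[k] x)) '' Vᶜ)ᶜ,
    ?_, ?_, ?_⟩
  · refine (List.finite_length_le Bool (2 * k)).isOpen_biInter fun u _ => ?_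
    exact ((hV.isClosed_compl.isCompact.image (continuous_phi k u)).isClosed).isOpen_compl
  · intro g hg
    simp only [mem_iInter]
    rintro u hu ⟨x, hx, rfl⟩
    apply hx
    apply hGV
    exact ⟨_, ⟨u, hu, rfl⟩, hg⟩
  · rintro x ⟨y, ⟨u, hu, rfl⟩, hy⟩
    by_contra hx
    simp only [mem_iInter] at hy
    exact hy u hu ⟨x, hx, rfl⟩

theorem mem_nbr_pt {k n : ℕ} {y : K B} : y ∈ nbr k (pt B n) ↔ ∃ m ∈ nbr k n, pt B m = y := by
  constructor
  · rintro ⟨u, hu, rfl⟩
    exact ⟨ap u (σ^[k] n), ⟨u, hu, rfl⟩, by rw [σ_iter_pt, ap_pt]⟩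
  · rintro ⟨_, ⟨u, hu, rfl⟩, rfl⟩
    exact ⟨u, hu, by rw [σ_iter_pt, ap_pt]⟩

/-! ### Finitely additive measures -/

section Lam

variable (U : Ultrafilter ℕ) (μ : K B → (K B →₀ ℝ))

open Classical in
/-- limit of the total variations -/
noncomputable def lam (E : Set (K B)) : ℝ :=
  ulim U fun n => mass (μ (pt B n)) E + if pt B n ∈ E then 1 else 0

variable {U μ} {C : ℝ} (hC : ∀ y, mass (μ y) univ ≤ C)

include hC

open Classical in
theorem tendsto_lam (E : Set (K B)) :
    Tendsto (fun n => mass (μ (pt B n)) E + if pt B n ∈ E then 1 else 0) U (𝓝 (lam U μ E)) := by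
  apply tendsto_ulim U (C := C + 1)
  refine Eventually.of_forall fun n => ?_
  have h1 := mass_nonneg (μ (pt B n)) E
  have h2 := (mass_mono (μ (pt B n)) (subset_univ E)).trans (hC _)
  rw [abs_of_nonneg]
  · split_ifs <;> linarith
  · split_ifs <;> linarith

theorem lam_le (E : Set (K B)) : lam U μ E ≤ C + 1 := by
  classical
  refine le_of_tendsto (tendsto_lam hC E) (Eventually.of_forall fun n => ?_)
  have h2 := (mass_mono (μ (pt B n)) (subset_univ E)).trans (hC _)
  split_ifs <;> linarith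

theorem lam_nonneg (E : Set (K B)) : 0 ≤ lam U μ E := by
  classical
  refine ge_of_tendsto (tendsto_lam hC E) (Eventually.of_forall fun n => ?_)
  have h1 := mass_nonneg (μ (pt B n)) E
  split_ifs <;> linarith

theorem lam_mono {E F : Set (K B)} (h : E ⊆ F) : lam U μ E ≤ lam U μ F := by
  classical
  refine le_of_tendsto_of_tendsto' (tendsto_lam hC E) (tendsto_lam hC F) fun n => ?_
  have h1 := mass_mono (μ (pt B n)) h
  by_cases hx : pt B n ∈ E
  · rw [if_pos hx, if_pos (h hx)]; linarith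
  · rw [if_neg hx]; split_ifs <;> linarith

theorem lam_union_le (E F : Set (K B)) : lam U μ (E ∪ F) ≤ lam U μ E + lam U μ F := by
  classical
  refine le_of_tendsto_of_tendsto' (tendsto_lam hC _)
    ((tendsto_lam hC E).add (tendsto_lam hC F)) fun n => ?_
  have h1 := mass_union_le (μ (pt B n)) E F
  by_cases hx : pt B n ∈ E
  · rw [if_pos (show pt B n ∈ E ∪ F from Or.inl hx), if_pos hx]; split_ifs <;> linarith
  · by_cases hy : pt B n ∈ F
    · rw [if_pos (show pt B n ∈ E ∪ F from Or.inr hy), if_neg hx, if_pos hy]; linarith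
    · rw [if_neg (by simp [hx, hy]), if_neg hx, if_neg hy]; linarith

theorem lam_union_disj {E F : Set (K B)} (h : Disjoint E F) :
    lam U μ (E ∪ F) = lam U μ E + lam U μ F := by
  classical
  refine tendsto_nhds_unique (tendsto_lam hC _) ?_
  refine ((tendsto_lam hC E).add (tendsto_lam hC F)).congr fun n => ?_
  rw [mass_union_disj (μ (pt B n)) h]
  by_cases hx : pt B n ∈ E
  · rw [if_pos (show pt B n ∈ E ∪ F from Or.inl hx), if_pos hx,
      if_neg (Set.disjoint_left.1 h hx)]; ring
  · by_cases hy : pt B n ∈ F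
    · rw [if_pos (show pt B n ∈ E ∪ F from Or.inr hy), if_neg hx, if_pos hy]; ring
    · rw [if_neg (show pt B n ∉ E ∪ F by simp [hx, hy]), if_neg hx, if_neg hy]; ring

/-- outside of a finite set, finite sets have neighbourhoods of small measure -/
theorem exists_small {η : ℝ} (hη : 0 < η) : ∃ F : Set (K B), F.Finite ∧ ∀ Z : Set (K B), Z.Finite →
    Disjoint Z F → ∃ A ∈ B, Z ⊆ star B A ∧ lam U μ (star B A) ≤ η := by
  by_contra hcon
  push Not at hcon
  have claim : ∀ N : ℕ, ∃ Y : Set (K B), Y.Finite ∧ ∀ A ∈ B, Y ⊆ star B A →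
      N * η ≤ lam U μ (star B A) := by
    intro N
    induction N with
    | zero => exact ⟨∅, finite_empty, fun A _ _ => by simpa using lam_nonneg hC _⟩
    | succ N ih =>
      obtain ⟨Y, hY, hYA⟩ := ih
      obtain ⟨Z, hZ, hZY, hZA⟩ := hcon Y hY
      refine ⟨Y ∪ Z, hY.union hZ, fun A hA hYZ => ?_⟩
      obtain ⟨A', hA', hZA', hA'O⟩ := exists_star_of_finite hB.out hZ
        (O := star B A ∩ Yᶜ) ((isClopen_star hA).isOpen.inter hY.isClosed.isOpen_compl)
        (fun z hz => ⟨hYZ (Or.inr hz), Set.disjoint_left.1 hZY hz⟩)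
      have h1 := hZA A' hA' hZA'
      have h2 := hYA (A \ A') (hB.out.diff hA hA') (by
        intro y hy
        have h3 : star B (A \ A') = star B A ∩ (star B A')ᶜ := by
          have : A \ A' = A ∩ A'ᶜ := rfl
          rw [this, star_inter hB.out hA (hB.out.compl hA'), star_compl hB.out hA']
        rw [h3]
        exact ⟨hYZ (Or.inl hy), fun h => (hA'O h).2 hy⟩)
      have h4 : star B A = star B A' ∪ star B (A \ A') := by
        have h3 : star B (A \ A') = star B A ∩ (star B A')ᶜ := by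
          have : A \ A' = A ∩ A'ᶜ := rfl
          rw [this, star_inter hB.out hA (hB.out.compl hA'), star_compl hB.out hA']
        rw [h3]
        ext x
        constructor
        · intro hx
          by_cases hx' : x ∈ star B A'
          · exact Or.inl hx'
          · exact Or.inr ⟨hx, hx'⟩
        · rintro (hx | hx)
          · exact (hA'O hx).1
          · exact hx.1
      have h5 : Disjoint (star B A') (star B (A \ A')) := by
        have h3 : star B (A \ A') = star B A ∩ (star B A')ᶜ := by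
          have : A \ A' = A ∩ A'ᶜ := rfl
          rw [this, star_inter hB.out hA (hB.out.compl hA'), star_compl hB.out hA']
        rw [h3, Set.disjoint_left]
        exact fun x hx hx' => hx'.2 hx
      rw [h4, lam_union_disj hC h5]
      push_cast
      linarith
  obtain ⟨N, hN⟩ := exists_nat_gt ((C + 1) / η)
  obtain ⟨Y, -, hYA⟩ := claim N
  have h1 := hYA univ hB.out.univ (by rw [star_univ hB.out]; exact subset_univ _)
  have h2 := lam_le (U := U) hC (star B univ)
  rw [div_lt_iff₀ hη] at hN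
  linarith

end Lam

/-- the indicator function of a clopen set -/
noncomputable def chi (A : Set ℕ) : K B → ℝ := (star B A).indicator fun _ => 1

omit hB in
theorem continuous_chi {A : Set ℕ} (hA : A ∈ B) : Continuous (chi (B := B) A) := by
  apply Continuous.indicator
  · rw [(isClopen_star hA).frontier_eq]; simp
  · exact continuous_const

omit hB in
theorem chi_mem {A : Set ℕ} {x : K B} (h : x ∈ star B A) : chi A x = 1 := indicator_of_mem h _

omit hB in
theorem chi_notMem {A : Set ℕ} {x : K B} (h : x ∉ star B A) : chi A x = 0 :=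
  indicator_of_notMem h _

omit hB in
/-- a part of one sign -/
theorem exists_part {m : K B →₀ ℝ} {M : Set (K B)} {δ : ℝ} (h : 2 * δ < mass m M) :
    ∃ G : Finset (K B), G ⊆ m.support ∧ (∀ x ∈ G, x ∈ M) ∧ δ ≤ |∑ x ∈ G, m x| := by
  classical
  let G1 := m.support.filter fun x => x ∈ M ∧ 0 < m x
  let G2 := m.support.filter fun x => x ∈ M ∧ m x ≤ 0
  have h1 : mass m M = ∑ x ∈ G1, m x - ∑ x ∈ G2, m x := by
    rw [mass, Finset.sum_filter, Finset.sum_filter, ← Finset.sum_sub_distrib]
    apply Finset.sum_congr rfl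
    intro x _
    by_cases hx : x ∈ M
    · rcases lt_or_ge 0 (m x) with h0 | h0
      · simp [hx, h0, abs_of_pos h0, not_le.2 h0]
      · simp [hx, h0, abs_of_nonpos h0, not_lt.2 h0]
    · simp [hx]
  rcases le_or_gt δ |∑ x ∈ G1, m x| with h2 | h2
  · exact ⟨G1, Finset.filter_subset _ _, fun x hx => (Finset.mem_filter.1 hx).2.1, h2⟩
  · refine ⟨G2, Finset.filter_subset _ _, fun x hx => (Finset.mem_filter.1 hx).2.1, ?_⟩
    have h3 := le_abs_self (∑ x ∈ G1, m x)
    have h4 := neg_abs_le (∑ x ∈ G2, m x)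
    linarith

section Recursion

variable {U : Ultrafilter ℕ} {μ : K B → (K B →₀ ℝ)} {C : ℝ} (hC : ∀ y, mass (μ y) univ ≤ C)
  {ε : ℝ} (hε : 0 < ε) (hε1 : ε ≤ 1)
  (hU : ∀ (L : ℕ) (F : Set (K B)), F.Finite → ∀ᶠ n in (U : Filter ℕ),
    ε < mass (μ (pt B n)) (nbr L (pt B n) ∪ F)ᶜ)
  (hU0 : ∀ n, {n} ∉ U)

include hC hε hε1 hU hU0

theorem rec_step (k : ℕ) {E H : Set (K B)} (hE : IsClosed E) (hH : H.Finite)
    (hlam : lam U μ E < ε / 16) : ∃ (n : ℕ) (A : Set ℕ), A ∈ B ∧
      lam U μ (E ∪ thick k (star B A)) < ε / 16 ∧ ε / 4 ≤ |ip (μ (pt B n)) (chi A)| ∧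
      Disjoint (star B A) (H ∪ E) ∧ mass (μ (pt B n)) E ≤ ε / 16 ∧ pt B n ∉ E ∧ pt B n ∉ H ∧
      Disjoint (nbr k (pt B n)) (star B A) := by
  classical
  set η := (ε / 16 - lam U μ E) / 2 with hη
  have hη0 : 0 < η := by rw [hη]; linarith
  obtain ⟨F', hF', hF'Z⟩ := exists_small (U := U) hC hη0
  set H' : Set (K B) := H ∪ ⋃ x ∈ F', nbr k x with hH'
  have hH'fin : H'.Finite := hH.union (hF'.biUnion fun x _ => nbr_finite k x)
  have ev1 := hU k H' hH'fin
  have ev2 : ∀ᶠ n in (U : Filter ℕ),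
      (mass (μ (pt B n)) E + if pt B n ∈ E then 1 else 0) < ε / 16 :=
    (tendsto_lam hC E).eventually_lt_const hlam
  have ev3 : ∀ᶠ n in (U : Filter ℕ), pt B n ∉ H := by
    have h1 : {n | pt B n ∈ H}.Finite := hH.preimage (pt_injective hB.out).injOn
    by_contra h2
    rw [← Ultrafilter.eventually_not] at h2
    have h3 : {n | pt B n ∈ H} ∈ U := by
      filter_upwards [h2] with n hn
      exact not_not.1 hn
    obtain ⟨m, -, hm⟩ := Ultrafilter.eq_pure_of_finite_mem h1 h3
    exact hU0 m (by rw [hm]; exact Ultrafilter.mem_pure.2 rfl)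
  obtain ⟨n, h1, h2, h3⟩ := (ev1.and (ev2.and ev3)).exists
  set m := μ (pt B n) with hm
  have hnE : pt B n ∉ E := by
    intro h
    rw [if_pos h] at h2
    have := mass_nonneg m E
    linarith
  have hmE : mass m E < ε / 16 := by
    rw [if_neg hnE, add_zero] at h2; exact h2
  set M : Set (K B) := (nbr k (pt B n) ∪ H')ᶜ \ E with hM
  have hmM : 2 * (ε / 4) < mass m M := by
    have h4 : mass m (nbr k (pt B n) ∪ H')ᶜ ≤ mass m M + mass m E := by
      refine (mass_mono m (fun x hx => ?_)).trans (mass_union_le m M E)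
      by_cases hxE : x ∈ E
      · exact Or.inr hxE
      · exact Or.inl ⟨hx, hxE⟩
    linarith
  obtain ⟨G, hGs, hGM, hG⟩ := exists_part hmM
  have hdisj : Disjoint (thick k (G : Set (K B))) F' := by
    rw [Set.disjoint_left]
    rintro x ⟨g, hgx, hg⟩ hxF
    have h4 := hGM g hg
    exact h4.1 (Or.inr (Or.inr (mem_biUnion hxF hgx)))
  obtain ⟨A₀, hA₀, hGA₀, hlamA₀⟩ := hF'Z _ (thick_finite G.finite_toSet) hdisj
  obtain ⟨O, hO, hGO, hOA₀⟩ := exists_open_thick (isClopen_star hA₀).isOpen hGA₀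
  obtain ⟨A, hA, hGA, hAO⟩ := exists_star_of_finite hB.out G.finite_toSet
    (O := O ∩ (E ∪ (H ∪ nbr k (pt B n) ∪ ((m.support \ G : Finset (K B)) : Set (K B))))ᶜ)
    (hO.inter (hE.union (((hH.union (nbr_finite k _)).union
      (Finset.finite_toSet _)).isClosed)).isOpen_compl) (by
      intro g hg
      refine ⟨hGO hg, ?_⟩
      have h4 := hGM g hg
      rintro (h5 | (h5 | h5) | h5)
      · exact h4.2 h5
      · exact h4.1 (Or.inr (Or.inl h5))
      · exact h4.1 (Or.inl h5)
      · have h6 := Finset.mem_sdiff.1 (Finset.mem_coe.1 h5)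
        exact h6.2 hg)
  refine ⟨n, A, hA, ?_, ?_, ?_, hmE.le, hnE, h3, ?_⟩
  · have h4 : thick k (star B A) ⊆ star B A₀ := (thick_mono fun x hx => (hAO hx).1).trans hOA₀
    have h5 := lam_union_le (U := U) hC E (thick k (star B A))
    have h6 := lam_mono (U := U) hC h4
    have h7 : lam U μ E + η < ε / 16 := by rw [hη]; linarith
    linarith
  · have h4 : ip m (chi A) = ∑ x ∈ G, m x := by
      rw [ip, ← Finset.sum_subset hGs (f := fun x => m x * chi A x)]
      · apply Finset.sum_congr rfl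
        intro x hx
        rw [chi_mem (hGA hx), mul_one]
      · intro x hx hxG
        rw [chi_notMem, mul_zero]
        intro h5
        exact (hAO h5).2 (Or.inr (Or.inr (by simpa using ⟨by simpa using hx, hxG⟩)))
    rw [h4]
    exact hG
  · rw [Set.disjoint_left]
    rintro x hx (h4 | h4)
    · exact (hAO hx).2 (Or.inr (Or.inl (Or.inl h4)))
    · exact (hAO hx).2 (Or.inl h4)
  · rw [Set.disjoint_left]
    intro x hx hxA
    exact (hAO hxA).2 (Or.inr (Or.inl (Or.inr hx)))

theorem exists_sequence : ∃ (n : ℕ → ℕ) (A : ℕ → Set ℕ), (∀ k, A k ∈ B) ∧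
    (∀ k, ε / 4 ≤ |ip (μ (pt B (n k))) (chi (A k))|) ∧
    (∀ k, Disjoint (nbr k (pt B (n k))) (star B (A k))) ∧
    ∀ j k, j < k → Disjoint (star B (A k)) (thick j (star B (A j))) ∧
      (∀ x ∈ (μ (pt B (n j))).support, x ∉ star B (A k)) ∧
      Disjoint (nbr j (pt B (n j))) (star B (A k)) ∧ pt B (n k) ∉ thick j (star B (A j)) ∧
      n k ≠ n j ∧ mass (μ (pt B (n k))) (⋃ i ∈ Iio k, star B (A i)) ≤ ε / 16 := by
  classical
  let St := {p : Set (K B) × Set (K B) // IsClosed p.1 ∧ p.2.Finite ∧ lam U μ p.1 < ε / 16}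
  have step := fun (k : ℕ) (st : St) => rec_step hC hε hε1 hU hU0 k st.2.1 st.2.2.1 st.2.2.2
  choose nn AA h1 h2 h3 h4 h5 h6 h7 h8 using step
  let next : ℕ → St → St := fun k st => ⟨(st.1.1 ∪ thick k (star B (AA k st)),
    st.1.2 ∪ ((μ (pt B (nn k st))).support : Set (K B)) ∪ nbr k (pt B (nn k st))),
    st.2.1.union (isClosed_thick (isClopen_star (h1 k st)).isClosed),
    (st.2.2.1.union (Finset.finite_toSet _)).union (nbr_finite k _), h2 k st⟩
  have h0 : lam U μ (∅ : Set (K B)) < ε / 16 := by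
    have h9 : lam U μ (∅ : Set (K B)) = 0 := by
      have := lam_union_disj (U := U) hC (Set.disjoint_empty (∅ : Set (K B)))
      rw [union_empty] at this
      linarith
    rw [h9]; linarith
  let st : ℕ → St := fun k => Nat.rec ⟨(∅, ∅), isClosed_empty, finite_empty, h0⟩ (fun k s => next k s) k
  have hst : ∀ k, st (k + 1) = next k (st k) := fun k => rfl
  have hE : ∀ k, (st (k + 1)).1.1 = (st k).1.1 ∪ thick k (star B (AA k (st k))) := fun k => rfl
  have hH : ∀ k, (st (k + 1)).1.2 = (st k).1.2 ∪ ((μ (pt B (nn k (st k)))).support : Set (K B)) ∪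
    nbr k (pt B (nn k (st k))) := fun k => rfl
  have mE : ∀ j k, j ≤ k → (st j).1.1 ⊆ (st k).1.1 := by
    intro j k hjk
    induction k, hjk using Nat.le_induction with
    | base => exact Subset.rfl
    | succ k _ ih => rw [hE]; exact ih.trans subset_union_left
  have mH : ∀ j k, j ≤ k → (st j).1.2 ⊆ (st k).1.2 := by
    intro j k hjk
    induction k, hjk using Nat.le_induction with
    | base => exact Subset.rfl
    | succ k _ ih => rw [hH, union_assoc]; exact ih.trans subset_union_left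
  have tE : ∀ j k, j < k → thick j (star B (AA j (st j))) ⊆ (st k).1.1 := by
    intro j k hjk
    refine Subset.trans ?_ (mE (j + 1) k hjk)
    rw [hE]
    exact subset_union_right
  have tH : ∀ j k, j < k → ((μ (pt B (nn j (st j)))).support : Set (K B)) ∪
      nbr j (pt B (nn j (st j))) ⊆ (st k).1.2 := by
    intro j k hjk
    refine Subset.trans ?_ (mH (j + 1) k hjk)
    rw [hH, union_assoc]
    exact subset_union_right
  refine ⟨fun k => nn k (st k), fun k => AA k (st k), fun k => h1 k _, fun k => h3 k _,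
    fun k => h8 k _, fun j k hjk => ⟨?_, ?_, ?_, ?_, ?_, ?_⟩⟩
  · have h9 := h4 k (st k)
    rw [Set.disjoint_left] at h9 ⊢
    exact fun x hx hx' => h9 hx (Or.inr (tE j k hjk hx'))
  · intro x hx hxA
    exact Set.disjoint_left.1 (h4 k (st k)) hxA (Or.inl (tH j k hjk (Or.inl hx)))
  · rw [Set.disjoint_left]
    intro x hx hxA
    exact Set.disjoint_left.1 (h4 k (st k)) hxA (Or.inl (tH j k hjk (Or.inr hx)))
  · exact fun h => h6 k (st k) (tE j k hjk h)
  · intro h
    apply h7 k (st k)
    apply tH j k hjk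
    right
    show pt B (nn k (st k)) ∈ _
    have h9 : nn k (st k) = nn j (st j) := h
    rw [h9]
    exact self_mem_nbr _ _
  · refine (mass_mono _ ?_).trans (h5 k (st k))
    intro x hx
    simp only [mem_iUnion] at hx
    obtain ⟨i, hi, hxi⟩ := hx
    exact tE i k hi (subset_thick _ _ hxi)

end Recursion

/-! ### The classification -/

theorem Separated.comp {n : ℕ → ℕ} {A : ℕ → Set ℕ} (h : Separated n A) {i : ℕ → ℕ}
    (hi : Function.Injective i) : Separated (n ∘ i) (A ∘ i) := by
  have key : ∀ m₀ : ℕ, ∃ m, ∀ k, m ≤ k → m₀ ≤ i k := by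
    intro m₀
    have h1 : {k | i k < m₀}.Finite := (finite_lt_nat m₀).preimage hi.injOn
    obtain ⟨b, hb⟩ := h1.bddAbove
    refine ⟨b + 1, fun k hk => ?_⟩
    by_contra h2
    have := hb (show k ∈ {k | i k < m₀} from not_le.1 h2)
    omega
  refine ⟨h.inj.comp hi, fun L => ?_, fun L => ?_⟩
  · obtain ⟨m₀, hm₀⟩ := h.s2 L
    obtain ⟨m, hm⟩ := key m₀
    exact ⟨m, fun j k hj hk hjk => hm₀ (i j) (i k) (hm j hj) (hm k hk) fun h => hjk (hi h)⟩
  · obtain ⟨m₀, hm₀⟩ := h.s3 L
    obtain ⟨m, hm⟩ := key m₀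
    exact ⟨m, fun j k hj hk => hm₀ (i j) (i k) (hm j hj) (hm k hk)⟩

/-- the enumeration of a branch -/
def bf (x : ℕ → Bool) (k : ℕ) : ℕ := Encodable.encode (List.ofFn fun i : Fin k => x i)

theorem bf_injective (x : ℕ → Bool) : Function.Injective (bf x) := by
  intro k k' h
  have h1 := Encodable.encode_injective h
  have h2 := congrArg List.length h1
  simpa using h2

theorem bf_inter {x y : ℕ → Bool} (h : x ≠ y) : (range (bf x) ∩ range (bf y)).Finite :=
  branch_inter h

theorem classification {μ : K B → (K B →₀ ℝ)} {C : ℝ} (hC : ∀ y, mass (μ y) univ ≤ C)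
    (hμ : ∀ f : K B → ℝ, Continuous f → Continuous fun y => ip (μ y) f)
    (hB2 : ∀ (n : ℕ → ℕ) (A : ℕ → Set ℕ), Separated n A → (∀ k, A k ∈ B) →
      ∃ I : Set ℕ, I.Infinite ∧ U A I ∈ B ∧ ∀ C ∈ B, ¬ Sep C (n '' I) (n '' Iᶜ))
    {ε : ℝ} (hε : 0 < ε) (hε1 : ε ≤ 1) :
    ∃ (L : ℕ) (F : Set (K B)), F.Finite ∧
      {n | ε < mass (μ (pt B n)) (nbr L (pt B n) ∪ F)ᶜ}.Finite := by
  classical
  by_contra hcon
  push Not at hcon
  -- the ultrafilter
  obtain ⟨V, hV, hV0⟩ : ∃ V : Ultrafilter ℕ, (∀ (L : ℕ) (F : Set (K B)), F.Finite →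
      ∀ᶠ n in (V : Filter ℕ), ε < mass (μ (pt B n)) (nbr L (pt B n) ∪ F)ᶜ) ∧
      ∀ n, {n} ∉ V := by
    let bad : ℕ × {F : Set (K B) // F.Finite} → Set ℕ := fun p =>
      {n | ε < mass (μ (pt B n)) (nbr p.1 (pt B n) ∪ p.2.1)ᶜ}
    have hdir : ∀ p q : ℕ × {F : Set (K B) // F.Finite}, ∃ r, bad r ⊆ bad p ∧ bad r ⊆ bad q := by
      intro p q
      refine ⟨(max p.1 q.1, ⟨p.2.1 ∪ q.2.1, p.2.2.union q.2.2⟩), ?_, ?_⟩
      · intro n hn
        refine lt_of_lt_of_le hn (mass_mono _ (compl_subset_compl.2 (union_subset_union ?_ ?_)))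
        · exact nbr_mono (le_max_left _ _) _
        · exact subset_union_left
      · intro n hn
        refine lt_of_lt_of_le hn (mass_mono _ (compl_subset_compl.2 (union_subset_union ?_ ?_)))
        · exact nbr_mono (le_max_right _ _) _
        · exact subset_union_right
    let f : Filter ℕ := (⨅ p, 𝓟 (bad p)) ⊓ cofinite
    have hne : f.NeBot := by
      have hd : Directed (· ≥ ·) fun p => 𝓟 (bad p) := by
        intro p q
        obtain ⟨r, h1, h2⟩ := hdir p q
        exact ⟨r, principal_mono.2 h1, principal_mono.2 h2⟩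
      have : Nonempty (ℕ × {F : Set (K B) // F.Finite}) := ⟨(0, ⟨∅, finite_empty⟩)⟩
      rw [Filter.inf_neBot_iff]
      intro s hs t ht
      rw [mem_iInf_of_directed hd] at hs
      obtain ⟨p, hp⟩ := hs
      rw [mem_principal] at hp
      have h1 : (bad p).Infinite := hcon p.1 p.2.1 p.2.2
      have h2 : tᶜ.Finite := ht
      obtain ⟨x, hx, hxt⟩ := (h1.diff h2).nonempty
      exact ⟨x, hp hx, not_not.1 hxt⟩
    have : f.NeBot := hne
    refine ⟨Ultrafilter.of f, ?_, ?_⟩
    · intro L F hF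
      have h1 : bad (L, ⟨F, hF⟩) ∈ f := mem_inf_of_left (mem_iInf_of_mem _ (mem_principal_self _))
      exact Ultrafilter.of_le f h1
    · intro n hn
      have h1 : ({n}ᶜ : Set ℕ) ∈ f := mem_inf_of_right (finite_singleton n).compl_mem_cofinite
      have h2 : ({n}ᶜ : Set ℕ) ∈ Ultrafilter.of f := Ultrafilter.of_le f h1
      rw [Ultrafilter.compl_mem_iff_notMem] at h2
      exact h2 hn
  obtain ⟨n, A, hA, hbig, hself, hlt⟩ := exists_sequence hC hε hε1 hV hV0
  -- disjointness
  have hdisj : ∀ j k, j ≠ k → Disjoint (A j) (A k) := by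
    have h1 : ∀ j k, j < k → Disjoint (A j) (A k) := by
      intro j k hjk
      rw [Set.disjoint_left]
      intro x hxj hxk
      have h2 := (hlt j k hjk).1
      refine Set.disjoint_left.1 h2 ((pt_mem_star (hA k) x).2 hxk) ?_
      exact subset_thick _ _ ((pt_mem_star (hA j) x).2 hxj)
    intro j k hjk
    rcases lt_or_gt_of_ne hjk with h | h
    · exact h1 j k h
    · exact (h1 k j h).symm
  -- separatedness
  have hsep : Separated n A := by
    refine ⟨?_, ?_, ?_⟩
    · intro j k hjk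
      by_contra hne
      rcases lt_or_gt_of_ne hne with h | h
      · exact (hlt j k h).2.2.2.2.1 hjk.symm
      · exact (hlt k j h).2.2.2.2.1 hjk
    · intro L
      refine ⟨3 * L, ?_⟩
      have key : ∀ j k, 3 * L ≤ j → j < k → ∀ x, (nbr L x ∩ A j).Nonempty →
          (nbr L x ∩ A k).Nonempty → False := by
        rintro j k hj hjk x ⟨y, hy, hyA⟩ ⟨z, hz, hzA⟩
        have h1 : y ∈ nbr (L + 2 * L) z := nbr_trans (nbr_symm hz) hy
        have h2 : y ∈ nbr j z := nbr_mono (by omega) z h1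
        refine Set.disjoint_left.1 (hlt j k hjk).1 ((pt_mem_star (hA k) z).2 hzA) ?_
        exact ⟨pt B y, mem_nbr_pt.2 ⟨y, h2, rfl⟩, (pt_mem_star (hA j) y).2 hyA⟩
      intro j k hj hk hjk x h1 h2
      rcases lt_or_gt_of_ne hjk with h | h
      · exact key j k hj h x h1 h2
      · exact key k j hk h x h2 h1
    · intro L
      refine ⟨L, fun j k hj hk => ?_⟩
      rintro ⟨y, hy, hyA⟩
      have hy' : ∀ i, L ≤ i → pt B y ∈ nbr i (pt B (n k)) := fun i hi =>
        mem_nbr_pt.2 ⟨y, nbr_mono hi _ hy, rfl⟩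
      have hyA' : pt B y ∈ star B (A j) := (pt_mem_star (hA j) y).2 hyA
      rcases lt_trichotomy j k with h | rfl | h
      · exact (hlt j k h).2.2.2.1 ⟨pt B y, hy' j hj, hyA'⟩
      · exact Set.disjoint_left.1 (hself j) (hy' j hj) hyA'
      · exact Set.disjoint_left.1 (hlt k j h).2.2.1 (hy' k hk) hyA'
  -- subsequences
  have hsub : ∀ x : ℕ → Bool, ∃ I : Set ℕ, I.Infinite ∧ U (A ∘ bf x) I ∈ B ∧
      ∀ C ∈ B, ¬ Sep C ((n ∘ bf x) '' I) ((n ∘ bf x) '' Iᶜ) := fun x =>
    hB2 _ _ (hsep.comp (bf_injective x)) fun k => hA _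
  choose I hI hD hnsep using hsub
  -- boundaries
  let bdx : (ℕ → Bool) → Set (K B) := fun x =>
    {y | y ∈ star B (U (A ∘ bf x) (I x)) ∧ ∀ k ∈ I x, y ∉ star B (A (bf x k))}
  have hbdx : ∀ x x' y, x ≠ x' → y ∈ bdx x → y ∈ bdx x' → False := by
    intro x x' y hne hy hy'
    have h1 : y ∈ star B (U (A ∘ bf x) (I x) ∩ U (A ∘ bf x') (I x')) := by
      rw [star_inter hB.out (hD x) (hD x')]
      exact ⟨hy.1, hy'.1⟩
    let J : Set ℕ := (bf x '' I x) ∩ (bf x' '' I x')
    have hJ : J.Finite := (bf_inter hne).subset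
      (inter_subset_inter (image_subset_range _ _) (image_subset_range _ _))
    have h2 : U (A ∘ bf x) (I x) ∩ U (A ∘ bf x') (I x') ⊆ ⋃ j ∈ J, A j := by
      rintro z ⟨hz, hz'⟩
      obtain ⟨k, hk, hzk⟩ := mem_U.1 hz
      obtain ⟨k', hk', hzk'⟩ := mem_U.1 hz'
      have h3 : bf x k = bf x' k' := by
        by_contra h4
        exact Set.disjoint_left.1 (hdisj _ _ h4) hzk hzk'
      exact mem_biUnion (show bf x k ∈ J from ⟨⟨k, hk, rfl⟩, ⟨k', hk', h3.symm⟩⟩) hzk
    have h3 := star_mono (hB.out.inter (hD x) (hD x')) (hB.out.biUnion hJ fun j _ => hA j) h2 h1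
    rw [star_biUnion hB.out hJ fun j _ => hA j] at h3
    simp only [mem_iUnion] at h3
    obtain ⟨j, ⟨⟨k, hk, rfl⟩, -⟩, hyj⟩ := h3
    exact hy.2 k hk hyj
  obtain ⟨x, hx⟩ : ∃ x, ∀ k, ∀ y ∈ (μ (pt B (n k))).support, y ∉ bdx x := by
    by_contra hno
    push Not at hno
    choose k y hy hyb using hno
    have hinj : Function.Injective fun x : ℕ → Bool => (⟨k x, ⟨y x, hy x⟩⟩ :
        Σ k : ℕ, (μ (pt B (n k))).support) := by
      intro x x' hxx
      by_contra hne
      have h1 : y x = y x' := by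
        have := congrArg (fun p : (Σ k : ℕ, (μ (pt B (n k))).support) => (p.2 : K B)) hxx
        exact this
      exact hbdx x x' (y x) hne (hyb x) (h1 ▸ hyb x')
    have h3 : Cardinal.mk (ℕ → Bool) = Cardinal.continuum := by simp
    have h1 : Countable (ℕ → Bool) := hinj.countable
    have h2 := Cardinal.mk_le_aleph0 (α := ℕ → Bool)
    rw [h3] at h2
    exact absurd h2 (not_le.2 Cardinal.aleph0_lt_continuum)
  -- the final contradiction
  set D := U (A ∘ bf x) (I x) with hDdef
  have hDB : D ∈ B := hD x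
  set h : K B → ℝ := fun y => ip (μ y) (chi D) with hh
  have hhc : Continuous h := hμ _ (continuous_chi hDB)
  have hloc : ∀ p, ∀ y ∈ (μ (pt B (n p))).support, y ∈ star B D →
      ∃ k ∈ I x, y ∈ star B (A (bf x k)) ∧ bf x k ≤ p := by
    intro p y hy hyD
    by_contra hno
    push Not at hno
    apply hx p y hy
    refine ⟨hyD, fun k hk hyk => ?_⟩
    have h1 := hno k hk hyk
    exact (hlt p (bf x k) h1).2.1 y hy hyk
  have hmass : ∀ p, mass (μ (pt B (n p))) (⋃ i ∈ Iio p, star B (A i)) ≤ ε / 16 := by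
    intro p
    rcases Nat.eq_zero_or_pos p with rfl | hp
    · rw [mass_eq_zero]
      · positivity
      · intro y hy
        simp at hy
    · exact (hlt 0 p hp).2.2.2.2.2
  have hin : ∀ k ∈ I x, 3 * ε / 16 ≤ |h (pt B (n (bf x k)))| := by
    intro k hk
    set p := bf x k with hp
    have h1 : |ip (μ (pt B (n p))) (chi D) - ip (μ (pt B (n p))) (chi (A p))| ≤ ε / 16 := by
      rw [← ip_sub]
      have h2 : ip (μ (pt B (n p))) (fun y => chi D y - chi (A p) y) =
          ip (μ (pt B (n p))) ((⋃ i ∈ Iio p, star B (A i)).indicator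
            fun y => chi D y - chi (A p) y) := by
        apply ip_congr
        intro y hy
        by_cases hyU : y ∈ ⋃ i ∈ Iio p, star B (A i)
        · rw [indicator_of_mem hyU]
        · rw [indicator_of_notMem hyU]
          by_cases hyD : y ∈ star B D
          · obtain ⟨k', hk', hyk', hle⟩ := hloc p y hy hyD
            have h3 : bf x k' = p := by
              by_contra h4
              apply hyU
              exact mem_biUnion (show bf x k' ∈ Iio p from lt_of_le_of_ne hle h4) hyk'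
            rw [h3] at hyk'
            rw [chi_mem hyD, chi_mem hyk', sub_self]
          · have h3 : y ∉ star B (A p) := fun h4 => hyD (star_mono (hA p) hDB (fun z hz =>
              mem_U.2 ⟨k, hk, hz⟩) h4)
            rw [chi_notMem hyD, chi_notMem h3, sub_self]
      rw [h2]
      refine (abs_ip_le (E := ⋃ i ∈ Iio p, star B (A i)) (M := 1) ?_ ?_).trans ?_
      · intro y hy
        rw [indicator_of_mem hy]
        by_cases h3 : y ∈ star B D <;> by_cases h4 : y ∈ star B (A p) <;>
          simp [chi, h3, h4]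
      · intro y hy
        exact indicator_of_notMem hy _
      · rw [mul_one]; exact hmass p
    have h2 := hbig p
    have h3 : |ip (μ (pt B (n p))) (chi (A p))| ≤ |ip (μ (pt B (n p))) (chi D)| +
        |ip (μ (pt B (n p))) (chi D) - ip (μ (pt B (n p))) (chi (A p))| := by
      have h4 : ip (μ (pt B (n p))) (chi (A p)) = ip (μ (pt B (n p))) (chi D) -
        (ip (μ (pt B (n p))) (chi D) - ip (μ (pt B (n p))) (chi (A p))) := by ring
      conv_lhs => rw [h4]
      exact abs_sub _ _
    show 3 * ε / 16 ≤ |ip (μ (pt B (n p))) (chi D)|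
    linarith
  have hout : ∀ k ∉ I x, |h (pt B (n (bf x k)))| ≤ ε / 16 := by
    intro k hk
    set p := bf x k with hp
    have h2 : ip (μ (pt B (n p))) (chi D) =
        ip (μ (pt B (n p))) ((⋃ i ∈ Iio p, star B (A i)).indicator (chi D)) := by
      apply ip_congr
      intro y hy
      by_cases hyU : y ∈ ⋃ i ∈ Iio p, star B (A i)
      · rw [indicator_of_mem hyU]
      · rw [indicator_of_notMem hyU]
        by_cases hyD : y ∈ star B D
        · exfalso
          obtain ⟨k', hk', hyk', hle⟩ := hloc p y hy hyD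
          have h3 : bf x k' = p := by
            by_contra h4
            apply hyU
            exact mem_biUnion (show bf x k' ∈ Iio p from lt_of_le_of_ne hle h4) hyk'
          have h4 := bf_injective x h3
          rw [h4] at hk'
          exact hk hk'
        · rw [chi_notMem hyD]
    show |ip (μ (pt B (n p))) (chi D)| ≤ ε / 16
    rw [h2]
    refine (abs_ip_le (E := ⋃ i ∈ Iio p, star B (A i)) (M := 1) ?_ ?_).trans ?_
    · intro y hy
      rw [indicator_of_mem hy]
      by_cases h3 : y ∈ star B D <;> simp [chi, h3]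
    · intro y hy
      exact indicator_of_notMem hy _
    · rw [mul_one]; exact hmass p
  -- separation by a clopen set
  have hcl : IsClosed {y : K B | 3 * ε / 16 ≤ |h y|} := isClosed_le continuous_const hhc.abs
  have hop : IsOpen {y : K B | ε / 16 < |h y|} := isOpen_lt continuous_const hhc.abs
  obtain ⟨A', hA', h1, h2⟩ := exists_star_of_isCompact hB.out hcl.isCompact hop (by
    intro y hy
    have h3 : 3 * ε / 16 ≤ |h y| := hy
    show ε / 16 < |h y|
    linarith)
  apply hnsep x A' hA'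
  constructor
  · have h3 : (n ∘ bf x) '' I x \ A' = ∅ := by
      ext z
      simp only [mem_diff, mem_empty_iff_false, iff_false, not_and, not_not]
      rintro ⟨k, hk, rfl⟩
      exact (pt_mem_star hA' _).1 (h1 (hin k hk))
    rw [h3]
    exact finite_empty
  · have h3 : (n ∘ bf x) '' (I x)ᶜ ∩ A' = ∅ := by
      ext z
      simp only [mem_inter_iff, mem_empty_iff_false, iff_false, not_and]
      rintro ⟨k, hk, rfl⟩ hkA
      have h4 : ε / 16 < |h (pt B (n (bf x k)))| := h2 ((pt_mem_star hA' _).2 hkA)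
      exact absurd (hout k hk) (not_le.2 h4)
    rw [h3]
    exact finite_empty

end Pool.Agent.Work.MP_e5cb06_gt
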