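import Pool.Agent.Work.MP_e5cb06_gt.Tree

/-!
# Algebras of subsets of `ℕ` closed under the dynamics, and flows
-/

set_option autoImplicit false

open Set

namespace Pool.Agent.Work.MP_e5cb06_gt

open Dyn

/-- The smallest family containing `G`, the singletons and the level classes, and closed under
complement, intersection, images and preimages under the maps `e b`. -/
inductive Gen (G : Set (Set ℕ)) : Set ℕ → Prop
  | base {s : Set ℕ} : s ∈ G → Gen G s
  | atom (n : ℕ) : Gen G {n}
  | lev (m r : ℕ) : Gen G {n | 1 ≤ n ∧ Nat.log 2 n % m = r}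
  | compl {s : Set ℕ} : Gen G s → Gen G sᶜ
  | inter {s t : Set ℕ} : Gen G s → Gen G t → Gen G (s ∩ t)
  | im (b : Bool) {s : Set ℕ} : Gen G s → Gen G (e b '' s)
  | pre (b : Bool) {s : Set ℕ} : Gen G s → Gen G (e b ⁻¹' s)

/-- A family is closed if it contains everything it generates. -/
def Closed (B : Set (Set ℕ)) : Prop := ∀ s, Gen B s → s ∈ B

theorem gen_closed (G : Set (Set ℕ)) : Closed {s | Gen G s} := by
  intro s hs
  show Gen G s
  induction hs with
  | base h => exact h
  | atom n => exact .atom n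
  | lev m r => exact .lev m r
  | compl _ ih => exact .compl ih
  | inter _ _ ih1 ih2 => exact .inter ih1 ih2
  | im b _ ih => exact .im b ih
  | pre b _ ih => exact .pre b ih

theorem gen_mono {G G' : Set (Set ℕ)} (h : G ⊆ G') {s : Set ℕ} (hs : Gen G s) : Gen G' s := by
  induction hs with
  | base h' => exact .base (h h')
  | atom n => exact .atom n
  | lev m r => exact .lev m r
  | compl _ ih => exact .compl ih
  | inter _ _ ih1 ih2 => exact .inter ih1 ih2
  | im b _ ih => exact .im b ih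
  | pre b _ ih => exact .pre b ih

theorem gen_gen {G G' : Set (Set ℕ)} (h : ∀ s ∈ G, Gen G' s) {s : Set ℕ} (hs : Gen G s) :
    Gen G' s := by
  induction hs with
  | base h' => exact h _ h'
  | atom n => exact .atom n
  | lev m r => exact .lev m r
  | compl _ ih => exact .compl ih
  | inter _ _ ih1 ih2 => exact .inter ih1 ih2
  | im b _ ih => exact .im b ih
  | pre b _ ih => exact .pre b ih

namespace Closed

variable {B : Set (Set ℕ)} (hB : Closed B)

include hB

theorem atom (n : ℕ) : {n} ∈ B := hB _ (.atom n)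

theorem lev (m r : ℕ) : {n | 1 ≤ n ∧ Nat.log 2 n % m = r} ∈ B := hB _ (.lev m r)

theorem compl {s : Set ℕ} (hs : s ∈ B) : sᶜ ∈ B := hB _ (.compl (.base hs))

theorem inter {s t : Set ℕ} (hs : s ∈ B) (ht : t ∈ B) : s ∩ t ∈ B :=
  hB _ (.inter (.base hs) (.base ht))

theorem union {s t : Set ℕ} (hs : s ∈ B) (ht : t ∈ B) : s ∪ t ∈ B := by
  have := hB.compl (hB.inter (hB.compl hs) (hB.compl ht))
  rwa [compl_inter, compl_compl, compl_compl] at this

theorem diff {s t : Set ℕ} (hs : s ∈ B) (ht : t ∈ B) : s \ t ∈ B :=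
  hB.inter hs (hB.compl ht)

theorem empty : ∅ ∈ B := by
  have := hB.inter (hB.atom 0) (hB.compl (hB.atom 0))
  rwa [inter_compl_self] at this

theorem univ : Set.univ ∈ B := by
  have := hB.compl hB.empty
  rwa [compl_empty] at this

theorem im (b : Bool) {s : Set ℕ} (hs : s ∈ B) : e b '' s ∈ B := hB _ (.im b (.base hs))

theorem pre (b : Bool) {s : Set ℕ} (hs : s ∈ B) : e b ⁻¹' s ∈ B := hB _ (.pre b (.base hs))

theorem finite {s : Set ℕ} (hs : s.Finite) : s ∈ B := by
  induction s, hs using Set.Finite.induction_on with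
  | empty => exact hB.empty
  | insert _ _ ih => rw [insert_eq]; exact hB.union (hB.atom _) ih

theorem biUnion {ι : Type*} {s : Set ι} (hs : s.Finite) {f : ι → Set ℕ} (hf : ∀ i ∈ s, f i ∈ B) :
    (⋃ i ∈ s, f i) ∈ B := by
  induction s, hs using Set.Finite.induction_on with
  | empty => simp [hB.empty]
  | insert _ _ ih =>
    rw [biUnion_insert]
    exact hB.union (hf _ (mem_insert _ _)) (ih fun i hi => hf i (mem_insert_of_mem _ hi))

theorem σ_pre {s : Set ℕ} (hs : s ∈ B) : σ ⁻¹' s ∈ B := by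
  have : σ ⁻¹' s = e false '' s ∪ e true '' s := by
    ext n
    constructor
    · intro hn
      obtain ⟨b, hb⟩ := surj n
      cases b
      · exact Or.inl ⟨σ n, hn, hb⟩
      · exact Or.inr ⟨σ n, hn, hb⟩
    · rintro (⟨m, hm, rfl⟩ | ⟨m, hm, rfl⟩)
      · show σ (e false m) ∈ s
        rwa [σ_e]
      · show σ (e true m) ∈ s
        rwa [σ_e]
  rw [this]
  exact hB.union (hB.im _ hs) (hB.im _ hs)

theorem σ_iter_pre {s : Set ℕ} (hs : s ∈ B) (k : ℕ) : σ^[k] ⁻¹' s ∈ B := by
  induction k with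
  | zero => simpa using hs
  | succ k ih =>
    have : (σ^[k + 1] : ℕ → ℕ) ⁻¹' s = σ ⁻¹' (σ^[k] ⁻¹' s) := by
      rw [← preimage_comp, ← Function.iterate_succ]
    rw [this]
    exact hB.σ_pre ih

theorem ap_pre {s : Set ℕ} (hs : s ∈ B) (u : List Bool) : (ap u : ℕ → ℕ) ⁻¹' s ∈ B := by
  induction u with
  | nil =>
    have : (ap [] : ℕ → ℕ) = id := by funext n; simp
    rw [this]; simpa using hs
  | cons b u ih => exact hB.pre b ih

theorem ap_im {s : Set ℕ} (hs : s ∈ B) (u : List Bool) : (ap u : ℕ → ℕ) '' s ∈ B := by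
  induction u generalizing s with
  | nil =>
    have : (ap [] : ℕ → ℕ) = id := by funext n; simp
    rw [this]; simpa using hs
  | cons b u ih =>
    have : (ap (b :: u) : ℕ → ℕ) '' s = (ap u : ℕ → ℕ) '' (e b '' s) := by
      rw [← image_comp]; rfl
    rw [this]
    exact ih (hB.im b hs)

end Closed

/-- value of an integer combination of sets at a point -/
noncomputable def val {T : Type*} (ev : T → Set ℕ) (l : List (ℤ × T)) (n : ℕ) : ℤ :=
  (l.map fun p => (ev p.2).indicator (fun _ => p.1) n).sum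

/-- the flow equation -/
def IsFlow (f : ℕ → ℤ) : Prop := ∀ n, 1 ≤ n → f n = f (2 * n) + f (2 * n + 1)

/-- no integer combination of members of `B` is a nonzero flow -/
def NoFlow (B : Set (Set ℕ)) : Prop :=
  ∀ l : List (ℤ × Set ℕ), (∀ p ∈ l, p.2 ∈ B) → IsFlow (val id l) → ∀ n, 1 ≤ n → val id l n = 0

/-- functions depending, far out, on the last digits and on the level modulo `m` only -/
def EvUnif {α : Type*} (f : ℕ → α) : Prop :=
  ∃ R m : ℕ, 1 ≤ m ∧ ∀ n n' : ℕ, 2 ^ R ≤ n → 2 ^ R ≤ n' → n % 2 ^ R = n' % 2 ^ R →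
    Nat.log 2 n % m = Nat.log 2 n' % m → f n = f n'

theorem EvUnif.comp {α β : Type*} {f : ℕ → α} (h : EvUnif f) (g : α → β) :
    EvUnif (fun n => g (f n)) := by
  obtain ⟨R, m, hm, h⟩ := h
  exact ⟨R, m, hm, fun n n' h1 h2 h3 h4 => congrArg g (h n n' h1 h2 h3 h4)⟩

theorem EvUnif.prod {α β : Type*} {f : ℕ → α} {g : ℕ → β} (hf : EvUnif f) (hg : EvUnif g) :
    EvUnif (fun n => (f n, g n)) := by
  obtain ⟨R, m, hm, hf⟩ := hf
  obtain ⟨R', m', hm', hg⟩ := hg
  refine ⟨max R R', m * m', Nat.mul_pos hm hm', fun n n' h1 h2 h3 h4 => ?_⟩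
  have p1 : 2 ^ R ≤ 2 ^ (max R R') := Nat.pow_le_pow_right (by norm_num) (le_max_left _ _)
  have p2 : 2 ^ R' ≤ 2 ^ (max R R') := Nat.pow_le_pow_right (by norm_num) (le_max_right _ _)
  have d1 : 2 ^ R ∣ 2 ^ (max R R') := pow_dvd_pow _ (le_max_left _ _)
  have d2 : 2 ^ R' ∣ 2 ^ (max R R') := pow_dvd_pow _ (le_max_right _ _)
  have q1 : n % 2 ^ R = n' % 2 ^ R := by
    rw [← Nat.mod_mod_of_dvd n d1, ← Nat.mod_mod_of_dvd n' d1, h3]
  have q2 : n % 2 ^ R' = n' % 2 ^ R' := by
    rw [← Nat.mod_mod_of_dvd n d2, ← Nat.mod_mod_of_dvd n' d2, h3]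
  have r1 : Nat.log 2 n % m = Nat.log 2 n' % m := by
    rw [← Nat.mod_mod_of_dvd (Nat.log 2 n) (Dvd.intro m' rfl), 
      ← Nat.mod_mod_of_dvd (Nat.log 2 n') (Dvd.intro m' rfl), h4]
  have r2 : Nat.log 2 n % m' = Nat.log 2 n' % m' := by
    rw [← Nat.mod_mod_of_dvd (Nat.log 2 n) (Dvd.intro_left m rfl), 
      ← Nat.mod_mod_of_dvd (Nat.log 2 n') (Dvd.intro_left m rfl), h4]
  exact Prod.ext (hf n n' (p1.trans h1) (p1.trans h2) q1 r1)
    (hg n n' (p2.trans h1) (p2.trans h2) q2 r2)

theorem log_e (b : Bool) (n : ℕ) (hn : 1 ≤ n) : Nat.log 2 (e b n) = Nat.log 2 n + 1 := by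
  rw [Nat.log_of_one_lt_of_le (by norm_num) (by rw [e_nat]; cases b <;> simp <;> omega)]
  have : (e b n : ℕ) / 2 = n := by rw [e_nat]; cases b <;> simp <;> omega
  rw [this]

theorem evUnif_of_gen {s : Set ℕ} (hs : Gen ∅ s) : EvUnif (fun n => n ∈ s) := by
  induction hs with
  | base h => exact absurd h (notMem_empty _)
  | atom a =>
    refine ⟨a + 1, 1, le_rfl, fun n n' h1 h2 _ _ => ?_⟩
    have : a + 1 < 2 ^ (a + 1) := Nat.lt_two_pow_self
    simp only [mem_singleton_iff, eq_iff_iff]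
    constructor <;> intro h <;> omega
  | lev m r =>
    rcases Nat.eq_zero_or_pos m with rfl | hm
    · -- `% 0` is the identity: the level class is a finite set
      refine ⟨r + 1, 1, le_rfl, fun n n' h1 h2 _ _ => ?_⟩
      have e1 : r + 1 ≤ Nat.log 2 n := Nat.le_log_of_pow_le (by norm_num) h1
      have e2 : r + 1 ≤ Nat.log 2 n' := Nat.le_log_of_pow_le (by norm_num) h2
      simp only [Nat.mod_zero, mem_setOf_eq, eq_iff_iff]
      constructor
      · rintro ⟨_, h⟩; omega
      · rintro ⟨_, h⟩; omega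
    · refine ⟨0, m, hm, fun n n' h1 h2 _ h4 => ?_⟩
      simp only [pow_zero] at h1 h2
      simp only [mem_setOf_eq, h1, h2, true_and, h4]
  | compl _ ih => exact ih.comp (fun p => ¬ p)
  | inter _ _ ih1 ih2 => exact (ih1.prod ih2).comp (fun p => p.1 ∧ p.2)
  | im b _ ih =>
    obtain ⟨R, m, hm, h⟩ := ih
    refine ⟨R + 1, m, hm, fun n n' h1 h2 h3 h4 => ?_⟩
    rw [pow_succ] at h1 h2 h3
    have hR : 0 < 2 ^ R := by positivity
    obtain ⟨c, hc⟩ := surj n
    obtain ⟨c', hc'⟩ := surj n'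
    have h5 : c = c' := by
      have : n % 2 = n' % 2 := by
        rw [← Nat.mod_mod_of_dvd n (Dvd.intro_left (2 ^ R) rfl),
          ← Nat.mod_mod_of_dvd n' (Dvd.intro_left (2 ^ R) rfl), h3]
      rw [e_nat] at hc hc'
      rw [σ_nat] at hc hc'
      cases c <;> cases c' <;> simp at hc hc' <;> first | rfl | omega
    have h6 : 2 ^ R ≤ σ n := by rw [σ_nat]; omega
    have h7 : 2 ^ R ≤ σ n' := by rw [σ_nat]; omega
    have h8 : (σ n : ℕ) % 2 ^ R = σ n' % 2 ^ R := by
      rw [σ_nat, σ_nat, mul_comm] at *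
      rw [← Nat.mod_mul_right_div_self, ← Nat.mod_mul_right_div_self, h3]
    have h9 : Nat.log 2 (σ n) % m = Nat.log 2 (σ n') % m := by
      have e1 := log_e c (σ n) (by omega)
      have e2 := log_e c' (σ n') (by omega)
      rw [hc] at e1
      rw [hc'] at e2
      rw [e1, e2] at h4
      exact Nat.ModEq.add_right_cancel' 1 h4
    have h10 := h (σ n) (σ n') h6 h7 h8 h9
    simp only [eq_iff_iff] at h10 ⊢
    constructor
    · rintro ⟨x, hx, hxn⟩
      rw [← hc, e_eq_iff] at hxn
      refine ⟨σ n', h10.1 (hxn.2 ▸ hx), ?_⟩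
      rw [← hc', hxn.1, h5, σ_e]
    · rintro ⟨x, hx, hxn⟩
      rw [← hc', e_eq_iff] at hxn
      refine ⟨σ n, h10.2 (hxn.2 ▸ hx), ?_⟩
      rw [← hc, hxn.1, ← h5, σ_e]
  | pre b _ ih =>
    obtain ⟨R, m, hm, h⟩ := ih
    refine ⟨R, m, hm, fun n n' h1 h2 h3 h4 => ?_⟩
    have hR : 0 < 2 ^ R := by positivity
    apply h
    · rw [e_nat]; omega
    · rw [e_nat]; omega
    · rw [e_nat, e_nat]
      exact Nat.ModEq.add_right _ (Nat.ModEq.mul_left 2 h3)
    · rw [log_e b n (by omega), log_e b n' (by omega)]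
      exact Nat.ModEq.add_right 1 h4

theorem evUnif_flow {f : ℕ → ℤ} (hf : EvUnif f) (hflow : IsFlow f) : ∀ n, 1 ≤ n → f n = 0 := by
  obtain ⟨R, m, hm, h⟩ := hf
  have hR : 0 < 2 ^ R := by positivity
  -- fewer and fewer digits are needed
  have h1 : ∀ j ≤ R, ∀ n n' : ℕ, 2 ^ R ≤ n → 2 ^ R ≤ n' → n % 2 ^ (R - j) = n' % 2 ^ (R - j) →
      Nat.log 2 n % m = Nat.log 2 n' % m → f n = f n' := by
    intro j hj
    induction j with
    | zero => simpa using h
    | succ j ih =>
      intro n n' hn hn' hmod hlog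
      rw [hflow n (by omega), hflow n' (by omega)]
      have key : ∀ b : Bool, f (e b n) = f (e b n') := by
        intro b
        apply ih (by omega)
        · rw [e_nat]; omega
        · rw [e_nat]; omega
        · have e1 : R - j = (R - (j + 1)) + 1 := by omega
          rw [e1, pow_succ, e_nat, e_nat]
          have e2 : (2 * n) % (2 ^ (R - (j + 1)) * 2) = (2 * n') % (2 ^ (R - (j + 1)) * 2) := by
            rw [mul_comm (2 ^ (R - (j + 1))) 2, Nat.mul_mod_mul_left, Nat.mul_mod_mul_left, hmod]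
          exact Nat.ModEq.add_right _ e2
        · rw [log_e b n (by omega), log_e b n' (by omega)]
          exact Nat.ModEq.add_right 1 hlog
      exact congrArg₂ (· + ·) (key false) (key true)
  have h2 : ∀ n n' : ℕ, 2 ^ R ≤ n → 2 ^ R ≤ n' → Nat.log 2 n % m = Nat.log 2 n' % m →
      f n = f n' := by
    intro n n' hn hn' hlog
    apply h1 R le_rfl n n' hn hn' _ hlog
    simp [Nat.mod_one]
  have h3 : ∀ n : ℕ, 2 ^ R ≤ n → ∀ k, f n = 2 ^ k * f (2 ^ k * n) := by
    intro n hn k
    induction k with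
    | zero => simp
    | succ k ih =>
      have hpos : 1 ≤ 2 ^ k := Nat.one_le_two_pow
      have hle : n ≤ 2 ^ k * n := Nat.le_mul_of_pos_left n hpos
      have e1 := hflow (2 ^ k * n) (by omega)
      have e2 : f (2 * (2 ^ k * n) + 1) = f (2 * (2 ^ k * n)) := by
        apply h2
        · omega
        · omega
        · have a1 := log_e true (2 ^ k * n) (by omega)
          have a2 := log_e false (2 ^ k * n) (by omega)
          rw [e_true] at a1
          rw [e_false] at a2
          rw [a1, a2]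
      have e3 : 2 ^ (k + 1) * n = 2 * (2 ^ k * n) := by ring
      rw [ih, e1, e2, e3]
      ring
  have h4 : ∀ n : ℕ, 2 ^ R ≤ n → f n = 0 := by
    intro n hn
    have e1 := h3 n hn m
    have hpos : 1 ≤ 2 ^ m := Nat.one_le_two_pow
    have hle : n ≤ 2 ^ m * n := Nat.le_mul_of_pos_left n hpos
    have e2 : f (2 ^ m * n) = f n := by
      apply h2 _ _ (by omega) hn
      have : Nat.log 2 (2 ^ m * n) = Nat.log 2 n + m := by
        clear e1
        induction m with
        | zero => simp
        | succ m ihm =>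
          clear ihm
          have : ∀ j, Nat.log 2 (2 ^ j * n) = Nat.log 2 n + j := by
            intro j
            induction j with
            | zero => simp
            | succ j ihj =>
              have a0 : 1 ≤ 2 ^ j * n := Nat.mul_pos (by positivity) (by omega)
              have a2 := log_e false (2 ^ j * n) a0
              rw [e_false] at a2
              have a3 : 2 ^ (j + 1) * n = 2 * (2 ^ j * n) := by ring
              rw [a3, a2, ihj]; ring
          exact this _
      rw [this]; simp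
    rw [e2] at e1
    have e3 : ((2 : ℤ) ^ m - 1) * f n = 0 := by linarith
    rcases mul_eq_zero.1 e3 with h5 | h5
    · exfalso
      have : (2 : ℤ) ^ 1 ≤ 2 ^ m := pow_le_pow_right₀ (by norm_num) hm
      linarith
    · exact h5
  have h5 : ∀ k, ∀ n : ℕ, 1 ≤ n → 2 ^ R ≤ 2 ^ k * n → f n = 0 := by
    intro k
    induction k with
    | zero => intro n _ hn; exact h4 n (by simpa using hn)
    | succ k ih =>
      intro n hn1 hn
      rw [hflow n hn1, ih (2 * n) (by omega) (by rw [pow_succ] at hn; nlinarith),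
        ih (2 * n + 1) (by omega) (by rw [pow_succ] at hn; nlinarith)]
      rfl
  intro n hn
  exact h5 R n hn (Nat.le_mul_of_pos_right _ hn)

theorem evUnif_val {l : List (ℤ × Set ℕ)} (hl : ∀ p ∈ l, Gen ∅ p.2) : EvUnif (val id l) := by
  classical
  induction l with
  | nil => exact ⟨0, 1, le_rfl, fun _ _ _ _ _ _ => by simp [val]⟩
  | cons p l ih =>
    have h1 := evUnif_of_gen (hl p List.mem_cons_self)
    have h2 := ih fun q hq => hl q (List.mem_cons_of_mem _ hq)
    have h3 := (h1.prod h2).comp (fun q : Prop × ℤ => (if q.1 then p.1 else 0) + q.2)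
    have h4 : val id (p :: l) = fun n => (if n ∈ p.2 then p.1 else 0) + val id l n := by
      funext n
      simp [val, indicator_apply]
    rw [h4]
    exact h3

theorem noFlow_empty : NoFlow {s | Gen ∅ s} := fun _ hl hflow =>
  evUnif_flow (evUnif_val hl) hflow

end Pool.Agent.Work.MP_e5cb06_gt
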