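import Pool.Agent.Work.MP_e5cb06_gt.Band
import Pool.Agent.Work.MP_e5cb06_gt.Gen

/-!
# The index of the compressions to the subtrees is a flow
-/

set_option autoImplicit false

open Set Filter Topology

namespace Pool.Agent.Work.MP_e5cb06_gt

open Dyn

/-- the embedding of the tree onto the subtree with root `n` -/
def iot (n m : ℕ) : ℕ := if m = 0 then 0 else n * 2 ^ (Nat.log 2 m) + (m - 2 ^ (Nat.log 2 m))

@[simp] theorem iot_zero (n : ℕ) : iot n 0 = 0 := by simp [iot]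

@[simp] theorem iot_one (n : ℕ) : iot n 1 = n := by simp [iot]

theorem iot_e (n : ℕ) (b : Bool) {m : ℕ} (hm : 1 ≤ m) : iot n (e b m) = e b (iot n m) := by
  have h1 : (e b m : ℕ) ≠ 0 := by have := e_pos b hm; omega
  have h2 : m ≠ 0 := by omega
  have h3 : 2 ^ Nat.log 2 m ≤ m := Nat.pow_log_le_self 2 h2
  rw [iot, iot, if_neg h1, if_neg h2, log_e' b m hm, e_nat, e_nat, pow_succ]
  have h4 : n * (2 ^ Nat.log 2 m * 2) = 2 * (n * 2 ^ Nat.log 2 m) := by ring
  rw [h4]
  omega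

theorem iot_ap (n : ℕ) (u : List Bool) {m : ℕ} (hm : 1 ≤ m) : iot n (ap u m) = ap u (iot n m) := by
  induction u generalizing m with
  | nil => rfl
  | cons b u ih => rw [ap_cons, ap_cons, ih (e_pos b hm), iot_e n b hm]

theorem iot_σ (n : ℕ) {m : ℕ} (hm : 1 ≤ Nat.log 2 m) : iot n (σ m) = σ (iot n m) := by
  obtain ⟨b, hb⟩ := surj m
  have h1 : 1 ≤ (σ m : ℕ) := σ_iter_pos (k := 1) hm (pos_of_log hm)
  conv_rhs => rw [← hb]
  rw [iot_e n b h1, σ_e]

theorem iot_σ_iter (n : ℕ) {k m : ℕ} (hm : k ≤ Nat.log 2 m) :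
    iot n (σ^[k] m) = σ^[k] (iot n m) := by
  induction k generalizing m with
  | zero => rfl
  | succ k ih =>
    rw [Function.iterate_succ_apply, Function.iterate_succ_apply, ih (by rw [log_σ]; omega),
      iot_σ n (by omega)]

theorem exists_ap_one {m : ℕ} (hm : 1 ≤ m) : ∃ u : List Bool, u.length = Nat.log 2 m ∧
    ap u (1 : ℕ) = m := by
  obtain ⟨u, hu, hum⟩ := exists_ap (Nat.log 2 m) m
  refine ⟨u, hu, ?_⟩
  have h1 : 1 ≤ (σ^[Nat.log 2 m] m : ℕ) := σ_iter_pos le_rfl hm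
  have h2 : Nat.log 2 (σ^[Nat.log 2 m] m) = 0 := by rw [log_σ_iter]; omega
  have h3 : σ^[Nat.log 2 m] m = 1 := by
    rw [Nat.log_eq_zero_iff] at h2
    omega
  rwa [h3] at hum

theorem iot_pos {n m : ℕ} (hn : 1 ≤ n) (hm : 1 ≤ m) : 1 ≤ iot n m := by
  obtain ⟨u, -, rfl⟩ := exists_ap_one hm
  rw [iot_ap n u le_rfl, iot_one]
  exact ap_pos u hn

theorem log_iot {n m : ℕ} (hn : 1 ≤ n) (hm : 1 ≤ m) :
    Nat.log 2 (iot n m) = Nat.log 2 n + Nat.log 2 m := by
  obtain ⟨u, hu, rfl⟩ := exists_ap_one hm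
  rw [iot_ap n u le_rfl, iot_one, log_ap u hn, hu]

theorem iot_self (m : ℕ) : iot 1 m = m := by
  rcases Nat.eq_zero_or_pos m with rfl | hm
  · simp
  · obtain ⟨u, hu, rfl⟩ := exists_ap_one hm
    rw [iot_ap 1 u le_rfl, iot_one]

theorem iot_iot {n k : ℕ} (hk : 1 ≤ k) (m : ℕ) : iot n (iot k m) = iot (iot n k) m := by
  rcases Nat.eq_zero_or_pos m with rfl | hm
  · simp
  · obtain ⟨u, hu, rfl⟩ := exists_ap_one hm
    rw [iot_ap k u le_rfl, iot_one, iot_ap n u hk, iot_ap _ u le_rfl, iot_one]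

/-- distinct words give distinct descendants of a node `n ≥ 1` -/
theorem ap_inj {n : ℕ} (hn : 1 ≤ n) {u v : List Bool} (h : ap u n = ap v n) : u = v := by
  have h1 : u.length = v.length := by
    have h2 := log_ap u hn
    have h3 := log_ap v hn
    rw [h] at h2
    omega
  exact (ap_injective_of_length h1 h).1

theorem iot_injective {n : ℕ} (hn : 1 ≤ n) : Function.Injective (iot n) := by
  intro a b h
  rcases Nat.eq_zero_or_pos a with rfl | ha
  · rcases Nat.eq_zero_or_pos b with rfl | hb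
    · rfl
    · have := iot_pos hn hb
      rw [← h] at this
      simp at this
  · rcases Nat.eq_zero_or_pos b with rfl | hb
    · have := iot_pos hn ha
      rw [h] at this
      simp at this
    · obtain ⟨u, hu, rfl⟩ := exists_ap_one ha
      obtain ⟨v, hv, rfl⟩ := exists_ap_one hb
      rw [iot_ap n u le_rfl, iot_ap n v le_rfl, iot_one] at h
      rw [ap_inj hn h]

theorem exists_iot {m : ℕ} (hm : 1 ≤ Nat.log 2 m) : ∃ x, 1 ≤ x ∧ Nat.log 2 m = Nat.log 2 x + 1 ∧
    (m = iot 2 x ∨ m = iot 3 x) := by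
  obtain ⟨u, hu, rfl⟩ := exists_ap_one (pos_of_log hm)
  rcases u with _ | ⟨b, u⟩
  · simp at hm
  · refine ⟨ap u 1, ap_pos u le_rfl, ?_, ?_⟩
    · rw [← hu, log_ap u le_rfl]; simp
    · rw [iot_ap 2 u le_rfl, iot_ap 3 u le_rfl, iot_one, iot_one]
      cases b
      · exact Or.inl rfl
      · exact Or.inr rfl

theorem iot_two_ne_three {x y : ℕ} (hx : 1 ≤ x) (hy : 1 ≤ y) : iot 2 x ≠ iot 3 y := by
  intro h
  obtain ⟨u, hu, rfl⟩ := exists_ap_one hx
  obtain ⟨v, hv, rfl⟩ := exists_ap_one hy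
  rw [iot_ap 2 u le_rfl, iot_ap 3 v le_rfl, iot_one, iot_one] at h
  have h1 : (ap (false :: u) 1 : ℕ) = ap (true :: v) 1 := h
  have h2 := ap_inj le_rfl h1
  simp at h2

/-- transport of coefficients to the subtree of `n` -/
def sub (a : List Bool → ℕ → ℝ) (n : ℕ) : List Bool → ℕ → ℝ := fun u m => a u (iot n m)

theorem sub_one (a : List Bool → ℕ → ℝ) : sub a 1 = a := by
  funext u m
  rw [sub, iot_self]

theorem RB_sub {L : ℕ} {C : ℝ} {a : List Bool → ℕ → ℝ} (h : RB L C a) (n : ℕ) :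
    RB L C (sub a n) := fun m => h (iot n m)

theorem GdL_sub {L D : ℕ} {c C : ℝ} (hc : 0 ≤ c) (hC : 0 ≤ C) (hD : 1 ≤ D) (hLD : 2 * L ≤ D)
    {a b : List Bool → ℕ → ℝ} (ha : RB L C a) (hb : RB L C b) (h : GdL L D c a b) {n : ℕ}
    (hn : 1 ≤ n) : GdL L D c (sub a n) (sub b n) := by
  intro m hm f
  have hm1 : 1 ≤ m := pos_of_log (hD.trans hm)
  have hinj := iot_injective hn
  have key : Op L (sub b n) (Op L (sub a n) f) m =
      Op L b (Op L a (push (iot n) f)) (iot n m) := by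
    rw [Op_apply hC (RB_sub hb n), Op_apply hC hb]
    apply Finset.sum_congr rfl
    intro v hv
    have h1 : iot n (ap v (σ^[L] m)) = ap v (σ^[L] (iot n m)) := by
      rw [iot_ap n v (σ_iter_pos (by omega) hm1), iot_σ_iter n (by omega)]
    have h2 : L ≤ Nat.log 2 (ap v (σ^[L] m)) := by
      have := log_ap_σ_ge L v (m := m) (by omega) hm1
      omega
    have h3 : 1 ≤ (ap v (σ^[L] m) : ℕ) := ap_pos v (σ_iter_pos (by omega) hm1)
    show sub b n v m * _ = b v (iot n m) * _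
    rw [sub, Op_apply hC (RB_sub ha n), Op_apply hC ha, ← h1]
    congr 1
    apply Finset.sum_congr rfl
    intro u hu
    have h4 : iot n (ap u (σ^[L] (ap v (σ^[L] m)))) = ap u (σ^[L] (iot n (ap v (σ^[L] m)))) := by
      rw [iot_ap n u (σ_iter_pos h2 h3), iot_σ_iter n h2]
    rw [← h4, push_apply_mem hinj]
    rfl
  rw [key]
  have h5 : f m = push (iot n) f (iot n m) := (push_apply_mem hinj f m).symm
  rw [h5]
  have h6 : D ≤ Nat.log 2 (iot n m) := by
    rw [log_iot hn hm1]; omega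
  refine (h _ h6 _).trans (mul_le_mul_of_nonneg_left ?_ hc)
  have := (push (iot n)).le_of_opNorm_le (norm_push_le (iot n)) f
  rwa [one_mul] at this

/-- the index of the compression to the subtree of `n` -/
noncomputable def fidx (L : ℕ) (a : List Bool → ℕ → ℝ) (n : ℕ) : ℤ := idx (Op L (sub a n))

theorem notMem_range_three {x : ℕ} (hx : 1 ≤ x) : iot 2 x ∉ range (iot 3) := by
  rintro ⟨y, hy⟩
  rcases Nat.eq_zero_or_pos y with rfl | hy1
  · have := iot_pos (n := 2) (by norm_num) hx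
    rw [← hy] at this
    simp at this
  · exact iot_two_ne_three hx hy1 hy.symm

theorem notMem_range_two {x : ℕ} (hx : 1 ≤ x) : iot 3 x ∉ range (iot 2) := by
  rintro ⟨y, hy⟩
  rcases Nat.eq_zero_or_pos y with rfl | hy1
  · have := iot_pos (n := 3) (by norm_num) hx
    rw [← hy] at this
    simp at this
  · exact iot_two_ne_three hy1 hx hy

theorem fidx_flow {L D : ℕ} {c C : ℝ} (hc : 0 ≤ c) (hc1 : c < 1) (hC : 0 ≤ C) (hD : 1 ≤ D)
    (hLD : 2 * L ≤ D) {a b : List Bool → ℕ → ℝ} (ha : RB L C a) (hb : RB L C b)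
    (h : GdL L D c a b) (h' : GdL L D c b a) : IsFlow (fidx L a) := by
  intro n hn
  have hpar : ∀ k, 1 ≤ k → Par c (Op L (sub a k)) (Op L (sub b k)) := fun k hk =>
    ⟨(GdL_sub hc hC hD hLD ha hb h hk).sm hc, (GdL_sub hc hC hD hLD hb ha h' hk).sm hc⟩
  have e2 : iot n 2 = 2 * n := by
    have := iot_e n false (m := 1) le_rfl
    rw [e_false, e_false, iot_one] at this
    exact this
  have e3 : iot n 3 = 2 * n + 1 := by
    have := iot_e n true (m := 1) le_rfl
    rw [e_true, e_true, iot_one] at this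
    exact this
  have i2 : Function.Injective (iot 2) := iot_injective (by norm_num)
  have i3 : Function.Injective (iot 3) := iot_injective (by norm_num)
  set A2 := Op L (sub a (2 * n)) with hA2
  set A3 := Op L (sub a (2 * n + 1)) with hA3
  have p2 := (hpar (2 * n) (by omega)).ext hc i2
  have p3 := (hpar (2 * n + 1) (by omega)).ext hc i3
  have hmul := p2.idx_mul hc1 hc1 p3
  rw [idx_ext i2, idx_ext i3] at hmul
  have hfr : FR (ext (iot 2) A2 * ext (iot 3) A3 - Op L (sub a n)) := by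
    apply fr_of_rows (finite_log_lt (L + 1))
    intro f m hm
    simp only [mem_setOf_eq, not_lt] at hm
    show ext (iot 2) A2 (ext (iot 3) A3 f) m - Op L (sub a n) f m = 0
    rw [sub_eq_zero]
    obtain ⟨x, hx1, hlog, hmx⟩ := exists_iot (m := m) (by omega)
    have hxL : L ≤ Nat.log 2 x := by omega
    rcases hmx with rfl | rfl
    · rw [ext_apply_mem i2, hA2, Op_apply hC (RB_sub ha _), Op_apply hC (RB_sub ha _)]
      apply Finset.sum_congr rfl
      intro u _
      have h1 : iot 2 (ap u (σ^[L] x)) = ap u (σ^[L] (iot 2 x)) := by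
        rw [iot_ap 2 u (σ_iter_pos hxL hx1), iot_σ_iter 2 hxL]
      rw [pull_apply, ext_apply_notMem _ _ (notMem_range_three (ap_pos u (σ_iter_pos hxL hx1))), h1]
      rw [sub, sub, iot_iot (by norm_num), e2]
    · rw [ext_apply_notMem _ _ (notMem_range_two hx1), ext_apply_mem i3, hA3,
        Op_apply hC (RB_sub ha _), Op_apply hC (RB_sub ha _)]
      apply Finset.sum_congr rfl
      intro u _
      have h1 : iot 3 (ap u (σ^[L] x)) = ap u (σ^[L] (iot 3 x)) := by
        rw [iot_ap 3 u (σ_iter_pos hxL hx1), iot_σ_iter 3 hxL]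
      rw [pull_apply, h1, sub, sub, iot_iot (by norm_num), e3]
  have h3 := (hpar n hn).idx_eq_of_FR hc1 hfr
  rw [fidx, fidx, fidx, ← h3, hmul]

theorem fidx_lim {L D : ℕ} {c C : ℝ} (hc : 0 ≤ c) (hc1 : c < 1) (hC : 0 ≤ C) (hD : 1 ≤ D)
    (hLD : 2 * L ≤ D) {a b : List Bool → ℕ → ℝ} (ha : RB L C a) (hb : RB L C b)
    (h : GdL L D c a b) (h' : GdL L D c b a) (V : Ultrafilter ℕ)
    (hV : ∀ᶠ n in (V : Filter ℕ), 1 ≤ n) :
    (∀ᶠ n in (V : Filter ℕ), fidx L a n = idx (Op L (limC V (sub a)))) ∧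
    Par c (Op L (limC V (sub a))) (Op L (limC V (sub b))) := by
  have h1 : ∀ᶠ n in (V : Filter ℕ), GdL L D c (sub a n) (sub b n) := by
    filter_upwards [hV] with n hn
    exact GdL_sub hc hC hD hLD ha hb h hn
  have h2 : ∀ᶠ n in (V : Filter ℕ), GdL L D c (sub b n) (sub a n) := by
    filter_upwards [hV] with n hn
    exact GdL_sub hc hC hD hLD hb ha h' hn
  refine ⟨idx_limC hc hc1 hC hD (fun n => RB_sub ha n) (fun n => RB_sub hb n) h1 h2, ?_, ?_⟩
  · exact (GdL_limC hC (fun n => RB_sub ha n) (fun n => RB_sub hb n) h1).sm hc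
  · exact (GdL_limC hC (fun n => RB_sub hb n) (fun n => RB_sub ha n) h2).sm hc

end Pool.Agent.Work.MP_e5cb06_gt
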