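import Pool.Agent.Work.MP_e5cb06_gt.Classify
import Pool.Agent.Work.MP_e5cb06_gt.Flow

/-!
# Coefficients near the diagonal
-/

set_option autoImplicit false

open Set Filter Topology

namespace Pool.Agent.Work.MP_e5cb06_gt

open Dyn

variable {B : Set (Set ℕ)} [hB : Fact (Closed B)]

/-- a family of rows which is small outside of the neighbourhoods and of a finite set -/
structure Cl (m : K B → (K B →₀ ℝ)) (L : ℕ) (F : Set (K B)) (ε C : ℝ) : Prop where
  fin : F.Finite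
  hC : ∀ y, mass (m y) univ ≤ C
  cont : ∀ f : K B → ℝ, Continuous f → Continuous fun y => ip (m y) f
  bad : {n | ε < mass (m (pt B n)) (nbr L (pt B n) ∪ F)ᶜ}.Finite

/-- good natural numbers -/
def Gd (m : K B → (K B →₀ ℝ)) (L : ℕ) (F : Set (K B)) (ε : ℝ) (n : ℕ) : Prop :=
  1 ≤ n ∧ L ≤ Nat.log 2 n ∧ mass (m (pt B n)) (nbr L (pt B n) ∪ F)ᶜ ≤ ε

open Classical in
/-- coefficients near the diagonal -/
noncomputable def co (m : K B → (K B →₀ ℝ)) (L : ℕ) (u : List Bool) (n : ℕ) : ℝ :=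
  if 1 ≤ n ∧ L ≤ Nat.log 2 n then m (pt B n) (pt B (ap u (σ^[L] n))) else 0

omit hB in
theorem sum_inj_le {ι : Type*} {s : Finset ι} {p : ι → K B} (hp : Function.Injective p)
    (m : K B →₀ ℝ) : ∑ u ∈ s, |m (p u)| ≤ mass m univ := by
  classical
  have h1 : ∑ u ∈ s, |m (p u)| = ∑ x ∈ s.image p, |m x| := by
    rw [Finset.sum_image fun a _ b _ h => hp h]
  rw [h1, mass]
  simp only [mem_univ, if_true]
  have h2 : ∑ x ∈ s.image p, |m x| = ∑ x ∈ (s.image p).filter (· ∈ m.support), |m x| := by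
    rw [Finset.sum_filter]
    apply Finset.sum_congr rfl
    intro x _
    split_ifs with h
    · rfl
    · rw [Finsupp.notMem_support_iff.1 h, abs_zero]
  rw [h2]
  apply Finset.sum_le_sum_of_subset_of_nonneg
  · intro x hx
    exact (Finset.mem_filter.1 hx).2
  · intro x _ _
    exact abs_nonneg _

theorem co_RB {m : K B → (K B →₀ ℝ)} {L : ℕ} {C : ℝ} (hC0 : 0 ≤ C)
    (hC : ∀ y, mass (m y) univ ≤ C) : RB L C (co m L) := by
  classical
  intro n
  by_cases h : 1 ≤ n ∧ L ≤ Nat.log 2 n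
  · have h1 : ∀ u, co m L u n = m (pt B n) (pt B (ap u (σ^[L] n))) := fun u => if_pos h
    simp only [h1]
    refine (sum_inj_le (p := fun u => pt B (ap u (σ^[L] n))) ?_ _).trans (hC _)
    intro u v huv
    exact ap_inj (σ_iter_pos h.2 h.1) (pt_injective hB.out huv)
  · have h1 : ∀ u, co m L u n = 0 := fun u => if_neg h
    simp only [h1, abs_zero, Finset.sum_const_zero]
    exact hC0

/-- the near part of a row -/
theorem sum_near {L : ℕ} {n : ℕ} (hn : 1 ≤ n) (hL : L ≤ Nat.log 2 n) (m : K B →₀ ℝ)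
    (f : K B → ℝ) : ∑ u ∈ W L, m (ap u (σ^[L] (pt B n))) * f (ap u (σ^[L] (pt B n))) =
      ip m ((nbr L (pt B n)).indicator f) := by
  classical
  have hinj : Function.Injective fun u : List Bool => (ap u (σ^[L] (pt B n)) : K B) := by
    intro u v huv
    simp only [σ_iter_pt, ap_pt] at huv
    exact ap_inj (σ_iter_pos hL hn) (pt_injective hB.out huv)
  have h1 : ∑ u ∈ W L, m (ap u (σ^[L] (pt B n))) * f (ap u (σ^[L] (pt B n))) =
      ∑ x ∈ (W L).image fun u => ap u (σ^[L] (pt B n)), m x * f x := by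
    rw [Finset.sum_image fun a _ b _ h => hinj h]
  have hmem : ∀ x, x ∈ (W L).image (fun u => ap u (σ^[L] (pt B n))) ↔ x ∈ nbr L (pt B n) := by
    intro x
    simp only [Finset.mem_image, mem_W]
    rfl
  rw [h1, ip_eq_sum (s := m.support ∪ (W L).image fun u => ap u (σ^[L] (pt B n)))
    Finset.subset_union_left]
  apply Finset.sum_subset_zero_on_sdiff Finset.subset_union_right
  · intro x hx
    have h2 := (Finset.mem_sdiff.1 hx).2
    rw [hmem] at h2
    rw [indicator_of_notMem h2, mul_zero]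
  · intro x hx
    rw [hmem] at hx
    rw [indicator_of_mem hx]

theorem near_estimate {m : K B → (K B →₀ ℝ)} {L : ℕ} {F : Set (K B)} {ε : ℝ} {n : ℕ}
    (hn : Gd m L F ε n) {f : K B → ℝ} {M : ℝ} (hM : 0 ≤ M) (hf : ∀ x, |f x| ≤ M)
    (hf0 : ∀ x ∈ F, x ∉ nbr L (pt B n) → f x = 0) :
    |ip (m (pt B n)) f - ∑ u ∈ W L, co m L u n * f (ap u (σ^[L] (pt B n)))| ≤ ε * M := by
  classical
  have h1 : ∀ u, co m L u n = m (pt B n) (ap u (σ^[L] (pt B n))) := fun u => by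
    rw [co, if_pos ⟨hn.1, hn.2.1⟩, σ_iter_pt, ap_pt]
  simp only [h1]
  rw [sum_near hn.1 hn.2.1, ← ip_sub]
  refine (abs_ip_le (E := (nbr L (pt B n) ∪ F)ᶜ) (M := M) ?_ ?_).trans
    (mul_le_mul_of_nonneg_right hn.2.2 hM)
  · intro x hx
    have h2 : x ∉ nbr L (pt B n) := fun h => hx (Or.inl h)
    rw [indicator_of_notMem h2, sub_zero]
    exact hf x
  · intro x hx
    rw [mem_compl_iff, not_not] at hx
    by_cases h2 : x ∈ nbr L (pt B n)
    · rw [indicator_of_mem h2, sub_self]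
    · rcases hx with h3 | h3
      · exact absurd h3 h2
      · rw [indicator_of_notMem h2, hf0 x h3 h2, sub_zero]

theorem tendsto_pt {V : Ultrafilter ℕ} {φ : ℕ → ℕ} {y : K B} (h : tr B (V.map φ) = y) :
    Tendsto (fun n => pt B (φ n)) V (𝓝 y) := by
  rw [tendsto_nhds]
  intro O hO hy
  obtain ⟨A, hA, hyA, hAO⟩ := exists_star hB.out hO hy
  rw [← h, tr_mem_star hA] at hyA
  have h1 : φ ⁻¹' A ∈ (V : Filter ℕ) := hyA
  filter_upwards [h1] with n hn
  exact hAO ((pt_mem_star hA _).2 hn)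

/-- **Limit lemma.** -/
theorem limit_lemma {m : K B → (K B →₀ ℝ)} {L : ℕ} {F : Set (K B)} {ε C : ℝ} (hC0 : 0 ≤ C)
    (h : Cl m L F ε C) {V : Ultrafilter ℕ} {φ : ℕ → ℕ} {y : K B} (hy : tr B (V.map φ) = y)
    (hgood : ∀ᶠ n in (V : Filter ℕ), Gd m L F ε (φ n)) {f : K B → ℝ} {M : ℝ} (hM : 0 ≤ M)
    (hf : ∀ x, |f x| ≤ M) (hf0 : ∀ x ∈ F, f x = 0) :
    |ip (m y) f - ∑ u ∈ W L, (ulim V fun n => co m L u (φ n)) * f (ap u (σ^[L] y))| ≤ ε * M := by
  classical
  have hRB := co_RB (L := L) hC0 h.hC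
  obtain ⟨f', hf'c, hf'Z, hf'M⟩ := exists_interp hB.out
    (Z := ((m y).support : Set (K B)) ∪ (F ∪ (((W L).image fun u => ap u (σ^[L] y) :
      Finset (K B)) : Set (K B))))
    ((Finset.finite_toSet _).union (h.fin.union (Finset.finite_toSet _))) f hM fun x _ => hf x
  have h1 : ip (m y) f = ip (m y) f' := ip_congr fun x hx => (hf'Z x (Or.inl hx)).symm
  have h2 : ∀ u ∈ W L, f (ap u (σ^[L] y)) = f' (ap u (σ^[L] y)) := fun u hu =>
    (hf'Z _ (Or.inr (Or.inr (Finset.mem_coe.2 (Finset.mem_image.2 ⟨u, hu, rfl⟩))))).symm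
  have h3 : ∀ x ∈ F, f' x = 0 := fun x hx => by rw [hf'Z x (Or.inr (Or.inl hx)), hf0 x hx]
  rw [h1, Finset.sum_congr rfl fun u hu => by rw [h2 u hu]]
  have hpt := tendsto_pt (B := B) hy
  have t1 : Tendsto (fun n => ip (m (pt B (φ n))) f') V (𝓝 (ip (m y) f')) :=
    (h.cont f' hf'c).continuousAt.tendsto.comp hpt
  have t2 : ∀ u ∈ W L, Tendsto (fun n => co m L u (φ n)) V
      (𝓝 (ulim V fun n => co m L u (φ n))) := fun u hu => by
    apply tendsto_ulim V (C := C)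
    refine Eventually.of_forall fun n => ?_
    exact (Finset.single_le_sum (f := fun u => |co m L u (φ n)|) (fun _ _ => abs_nonneg _)
      hu).trans (hRB _)
  have t3 : ∀ u, Tendsto (fun n => f' (ap u (σ^[L] (pt B (φ n))))) V
      (𝓝 (f' (ap u (σ^[L] y)))) := fun u =>
    ((hf'c.comp (continuous_phi L u)).continuousAt.tendsto.comp hpt)
  have t4 : Tendsto (fun n => |ip (m (pt B (φ n))) f' -
      ∑ u ∈ W L, co m L u (φ n) * f' (ap u (σ^[L] (pt B (φ n))))|) V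
      (𝓝 |ip (m y) f' - ∑ u ∈ W L, (ulim V fun n => co m L u (φ n)) * f' (ap u (σ^[L] y))|) :=
    (t1.sub (tendsto_finsetSum _ fun u hu => (t2 u hu).mul (t3 u))).abs
  refine le_of_tendsto t4 ?_
  filter_upwards [hgood] with n hn
  exact near_estimate hn hM hf'M fun x hx _ => h3 x hx

theorem eventually_good {m : K B → (K B →₀ ℝ)} {L : ℕ} {F : Set (K B)} {ε C : ℝ}
    (h : Cl m L F ε C) : {n | ¬ Gd m L F ε n}.Finite := by
  refine ((finite_log_lt (L + 1)).union h.bad).subset ?_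
  intro n hn
  by_contra h2
  rw [mem_union, not_or] at h2
  simp only [mem_setOf_eq, not_lt] at h2
  apply hn
  exact ⟨pos_of_log (by omega), by omega, h2.2⟩

theorem exists_level {E : Set ℕ} (hE : E.Finite) : ∃ D, ∀ n, D ≤ Nat.log 2 n → n ∉ E := by
  obtain ⟨b, hb⟩ := hE.bddAbove
  refine ⟨b + 1, fun n hn hnE => ?_⟩
  have h1 := hb hnE
  have h2 : Nat.log 2 n ≤ n := Nat.log_le_self 2 n
  omega

/-- the near parts compose like the operators -/
theorem exists_GdL {m₁ m₂ : K B → (K B →₀ ℝ)} {L : ℕ} {F : Set (K B)} {ε C : ℝ} (hε : 0 ≤ ε)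
    (hC0 : 0 ≤ C) (h₁ : Cl m₁ L F ε C) (h₂ : Cl m₂ L F ε C) {Y : Set (K B)} (hY : Y.Finite)
    (hid : ∀ (n : ℕ) (f : K B → ℝ), (∀ x ∈ Y, f x = 0) →
      ip (m₂ (pt B n)) (fun x => ip (m₁ x) f) = f (pt B n)) :
    ∃ D₀, ∀ D, D₀ ≤ D → GdL L D (2 * C * ε) (co m₁ L) (co m₂ L) := by
  classical
  set Y' : Set (K B) := Y ∪ (F ∪ ⋃ x ∈ F, ((m₁ x).support : Set (K B))) with hY'
  have hY'f : Y'.Finite := hY.union (h₁.fin.union (h₁.fin.biUnion fun x _ => Finset.finite_toSet _))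
  have hfar : {n | ¬ Disjoint (nbr (2 * L) (pt B n)) Y'}.Finite := by
    refine ((thick_finite (k := 2 * L) hY'f).preimage (pt_injective hB.out).injOn).subset ?_
    intro n hn
    rw [mem_setOf_eq, Set.not_disjoint_iff] at hn
    obtain ⟨x, hx, hxY⟩ := hn
    exact ⟨x, hx, hxY⟩
  obtain ⟨D₁, hD₁⟩ := exists_level (eventually_good h₁)
  obtain ⟨D₂, hD₂⟩ := exists_level (eventually_good h₂)
  obtain ⟨D₃, hD₃⟩ := exists_level hfar
  refine ⟨D₁ + D₂ + D₃ + 2 * L + 1, fun D hD n hn f => ?_⟩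
  have hn1 : 1 ≤ n := pos_of_log (by omega)
  have g₂ : Gd m₂ L F ε n := not_not.1 (hD₂ n (by omega))
  have hdis : Disjoint (nbr (2 * L) (pt B n)) Y' := not_not.1 (hD₃ n (by omega))
  set M := ‖f‖ with hM
  have hM0 : 0 ≤ M := norm_nonneg _
  -- the test function
  set f₁ : K B → ℝ := (nbr (2 * L) (pt B n)).indicator (push (pt B) f) with hf₁
  have hf₁M : ∀ x, |f₁ x| ≤ M := by
    intro x
    by_cases hx : x ∈ nbr (2 * L) (pt B n)
    · rw [hf₁, indicator_of_mem hx]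
      refine (Linf.le_norm _ _).trans ?_
      have := (push (pt B)).le_of_opNorm_le (norm_push_le (pt B)) f
      rwa [one_mul] at this
    · rw [hf₁, indicator_of_notMem hx, abs_zero]
      exact hM0
  have hf₁Y : ∀ x ∈ Y', f₁ x = 0 := fun x hx =>
    indicator_of_notMem (fun h => Set.disjoint_left.1 hdis h hx) _
  have hf₁pt : ∀ k ∈ nbr (2 * L) n, f₁ (pt B k) = f k := by
    intro k hk
    rw [hf₁, indicator_of_mem (mem_nbr_pt.2 ⟨k, hk, rfl⟩), push_apply_mem (pt_injective hB.out)]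
  set h1 : K B → ℝ := fun x => ip (m₁ x) f₁ with hh1
  have hh1M : ∀ x, |h1 x| ≤ C * M := fun x =>
    (abs_ip_le_univ hf₁M).trans (mul_le_mul_of_nonneg_right (h₁.hC x) hM0)
  have hh1F : ∀ x ∈ F, h1 x = 0 := by
    intro x hx
    rw [hh1]
    apply Finset.sum_eq_zero
    intro z hz
    rw [hf₁Y z (Or.inr (Or.inr (mem_biUnion hx hz))), mul_zero]
  have e1 : ip (m₂ (pt B n)) h1 = f n := by
    rw [hh1, hid n f₁ fun x hx => hf₁Y x (Or.inl hx), hf₁pt n (self_mem_nbr _ _)]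
  have e2 := near_estimate g₂ (f := h1) (M := C * M) (mul_nonneg hC0 hM0) hh1M
    fun x hx _ => hh1F x hx
  rw [e1] at e2
  -- compare the inner sums
  have hlogk : ∀ v, Nat.log 2 n - L ≤ Nat.log 2 (ap v (σ^[L] n)) := fun v =>
    log_ap_σ_ge L v (by omega) hn1
  have e3 : ∀ v ∈ W L, |h1 (ap v (σ^[L] (pt B n))) -
      Op L (co m₁ L) f (ap v (σ^[L] n))| ≤ ε * M := by
    intro v hv
    have g₁ : Gd m₁ L F ε (ap v (σ^[L] n)) := not_not.1 (hD₁ _ (by have := hlogk v; omega))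
    have h3 := near_estimate g₁ (f := f₁) (M := M) hM0 hf₁M
      fun x hx _ => hf₁Y x (Or.inr (Or.inl hx))
    rw [Op_apply hC0 (co_RB hC0 h₁.hC), σ_iter_pt, ap_pt]
    have h4 : ∑ u ∈ W L, co m₁ L u (ap v (σ^[L] n)) * f (ap u (σ^[L] (ap v (σ^[L] n)))) =
        ∑ u ∈ W L, co m₁ L u (ap v (σ^[L] n)) *
          f₁ (ap u (σ^[L] (pt B (ap v (σ^[L] n))))) := by
      apply Finset.sum_congr rfl
      intro u hu
      rw [σ_iter_pt, ap_pt, hf₁pt]
      have h5 : ap v (σ^[L] n) ∈ nbr L n := ⟨v, mem_W.1 hv, rfl⟩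
      have h6 : ap u (σ^[L] (ap v (σ^[L] n))) ∈ nbr L (ap v (σ^[L] n)) := ⟨u, mem_W.1 hu, rfl⟩
      have h7 := nbr_trans h5 h6
      have h8 : L + L = 2 * L := by ring
      rwa [h8] at h7
    rw [h4]
    exact h3
  rw [Op_apply hC0 (co_RB hC0 h₂.hC)]
  have e4 : |∑ v ∈ W L, co m₂ L v n * (Op L (co m₁ L) f (ap v (σ^[L] n)) -
      h1 (ap v (σ^[L] (pt B n))))| ≤ C * (ε * M) := by
    refine (abs_sum_mul_le (M := ε * M) fun v hv => ?_).trans
      (mul_le_mul_of_nonneg_right (co_RB hC0 h₂.hC n) (mul_nonneg hε hM0))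
    rw [abs_sub_comm]
    exact e3 v hv
  have e5 : ∑ v ∈ W L, co m₂ L v n * Op L (co m₁ L) f (ap v (σ^[L] n)) - f n =
      ∑ v ∈ W L, co m₂ L v n * (Op L (co m₁ L) f (ap v (σ^[L] n)) -
        h1 (ap v (σ^[L] (pt B n)))) -
      (f n - ∑ v ∈ W L, co m₂ L v n * h1 (ap v (σ^[L] (pt B n)))) := by
    simp only [mul_sub, Finset.sum_sub_distrib]
    ring
  rw [e5]
  refine (abs_sub _ _).trans ?_
  calc _ ≤ C * (ε * M) + ε * (C * M) := add_le_add e4 e2
    _ = 2 * C * ε * M := by ring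

end Pool.Agent.Work.MP_e5cb06_gt
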