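import Mathlib

/-!
# Index of linear operators modulo finite rank and small operators
-/

set_option autoImplicit false

open LinearMap

namespace Pool.Agent.Work.MP_e5cb06_gt

section Algebraic

variable {V : Type*} [AddCommGroup V] [Module ℝ V]

/-- finite-dimensional kernel and cokernel -/
def Fred (T : V →ₗ[ℝ] V) : Prop :=
  FiniteDimensional ℝ (ker T) ∧ FiniteDimensional ℝ (V ⧸ range T)

theorem fred_one_add {F : V →ₗ[ℝ] V} (hF : F.HasFiniteRange) :
    Fred (LinearMap.id + F) ∧ (LinearMap.id + F).index = 0 := by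
  set W : Submodule ℝ V := range F with hW
  have hfd : FiniteDimensional ℝ W := by
    have := hF.fg_range
    exact Module.Finite.iff_fg.2 this
  set T : V →ₗ[ℝ] V := LinearMap.id + F with hT
  have hTx : ∀ x, T x = x + F x := fun x => rfl
  have hTW : ∀ x ∈ W, T x ∈ W := fun x hx => by
    rw [hTx]; exact W.add_mem hx ⟨x, rfl⟩
  let g : W →ₗ[ℝ] W := T.restrict hTW
  have hg : ∀ w : W, (g w : V) = T w := fun w => rfl
  -- kernels
  let k : ker g →ₗ[ℝ] ker T :=
    { toFun := fun w => ⟨w.1.1, by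
        have := w.2
        rw [mem_ker] at this ⊢
        have h := congrArg Subtype.val this
        exact h⟩
      map_add' := fun _ _ => rfl
      map_smul' := fun _ _ => rfl }
  have hk : Function.Bijective k := by
    constructor
    · intro a b hab
      have := congrArg Subtype.val hab
      exact Subtype.ext (Subtype.ext this)
    · rintro ⟨x, hx⟩
      have hx' : x + F x = 0 := hx
      have hxW : x ∈ W := by
        have : x = F (-x) := by
          rw [map_neg]; exact eq_neg_of_add_eq_zero_left hx'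
        rw [this]; exact ⟨_, rfl⟩
      exact ⟨⟨⟨x, hxW⟩, Subtype.ext hx⟩, rfl⟩
  -- cokernels
  let q : W →ₗ[ℝ] V ⧸ range T := (range T).mkQ ∘ₗ W.subtype
  have hq : Function.Surjective q := by
    intro y
    obtain ⟨x, rfl⟩ := (range T).mkQ_surjective y
    refine ⟨⟨F (-x), ⟨_, rfl⟩⟩, ?_⟩
    show (range T).mkQ (F (-x)) = (range T).mkQ x
    rw [← sub_eq_zero, ← map_sub, Submodule.mkQ_apply, Submodule.Quotient.mk_eq_zero]
    refine ⟨-x, ?_⟩
    rw [hTx]; simp; abel
  have hkq : ker q = range g := by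
    ext w
    constructor
    · intro hw
      have h1 : (range T).mkQ (w : V) = 0 := hw
      rw [Submodule.mkQ_apply, Submodule.Quotient.mk_eq_zero] at h1
      obtain ⟨x, hx⟩ := h1
      have hxW : x ∈ W := by
        have : x = w + F (-x) := by rw [← hx, hTx, map_neg]; abel
        rw [this]; exact W.add_mem w.2 ⟨_, rfl⟩
      exact ⟨⟨x, hxW⟩, Subtype.ext hx⟩
    · rintro ⟨x, rfl⟩
      show (range T).mkQ (T x) = 0
      rw [Submodule.mkQ_apply, Submodule.Quotient.mk_eq_zero]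
      exact ⟨x, rfl⟩
  have e1 : ker g ≃ₗ[ℝ] ker T := LinearEquiv.ofBijective k hk
  have e2 : (W ⧸ range g) ≃ₗ[ℝ] (V ⧸ range T) :=
    (Submodule.quotEquivOfEq _ _ hkq.symm).trans (q.quotKerEquivOfSurjective hq)
  refine ⟨⟨Module.Finite.equiv e1, Module.Finite.equiv e2⟩, ?_⟩
  have h0 := index_eq_of_finiteDimensional (f := g)
  rw [sub_self, index_eq_finrank_sub, e1.finrank_eq, e2.finrank_eq] at h0
  rw [index_eq_finrank_sub]
  exact h0

theorem Fred.of_comp {A B : V →ₗ[ℝ] V} (h1 : Fred (B ∘ₗ A)) (h2 : Fred (A ∘ₗ B)) : Fred A := by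
  constructor
  · have := h1.1
    have hle : ker A ≤ ker (B ∘ₗ A) := ker_le_ker_comp A B
    exact Submodule.finiteDimensional_of_le hle
  · have := h2.2
    have hle : range (A ∘ₗ B) ≤ range A := range_comp_le_range B A
    exact Module.Finite.of_surjective (Submodule.factor hle) (Submodule.factor_surjective hle)

theorem Fred.index_comp {A B : V →ₗ[ℝ] V} (hA : Fred A) (hB : Fred B) :
    (B ∘ₗ A).index = B.index + A.index := by
  have := hA.1
  have := hA.2
  have := hB.1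
  have := hB.2
  exact LinearMap.index_comp B

theorem Fred.comp {A B : V →ₗ[ℝ] V} (hA : Fred A) (hB : Fred B) : Fred (B ∘ₗ A) := by
  have := hA.1
  have := hA.2
  have := hB.1
  have := hB.2
  constructor
  · rw [ker_comp]; infer_instance
  · rw [range_comp]; infer_instance

theorem fred_equiv_add (U : V ≃ₗ[ℝ] V) {F : V →ₗ[ℝ] V} (hF : F.HasFiniteRange) :
    Fred (U.toLinearMap + F) ∧ (U.toLinearMap + F).index = 0 := by
  have h1 : U.toLinearMap + F = U.toLinearMap ∘ₗ (LinearMap.id + U.symm.toLinearMap ∘ₗ F) := by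
    ext x; simp
  have h2 := fred_one_add (hF.comp_left U.symm.toLinearMap)
  have h3 : Fred U.toLinearMap := by
    constructor
    · rw [LinearEquiv.ker]; infer_instance
    · rw [LinearEquiv.range]; infer_instance
  rw [h1]
  refine ⟨h2.1.comp h3, ?_⟩
  rw [h2.1.index_comp h3, h2.2, LinearEquiv.index_eq_zero, add_zero]

end Algebraic

section Stabilise

variable {V W : Type*} [AddCommGroup V] [Module ℝ V] [AddCommGroup W] [Module ℝ W]

/-- extending an operator by the identity of a complement does not change the index -/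
theorem index_extend (E : V →ₗ[ℝ] W) (r : W →ₗ[ℝ] V) (hrE : ∀ v, r (E v) = v) (T : V →ₗ[ℝ] V) :
    (E ∘ₗ T ∘ₗ r + (LinearMap.id - E ∘ₗ r)).index = T.index := by
  set T' : W →ₗ[ℝ] W := E ∘ₗ T ∘ₗ r + (LinearMap.id - E ∘ₗ r) with hT'
  have hT'x : ∀ w, T' w = E (T (r w)) + (w - E (r w)) := fun w => rfl
  have hr : ∀ w, r (T' w) = T (r w) := fun w => by
    rw [hT'x, map_add, map_sub, hrE, hrE, sub_self, add_zero]
  -- kernels
  let k : ker T →ₗ[ℝ] ker T' :=
    { toFun := fun v => ⟨E v.1, by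
        rw [mem_ker, hT'x, hrE, mem_ker.1 v.2, map_zero, sub_self, add_zero]⟩
      map_add' := fun _ _ => Subtype.ext (map_add _ _ _)
      map_smul' := fun _ _ => Subtype.ext (map_smul _ _ _) }
  have hk : Function.Bijective k := by
    constructor
    · intro a b hab
      have h1 := congrArg Subtype.val hab
      have h2 : E a.1 = E b.1 := h1
      have h3 := congrArg r h2
      rw [hrE, hrE] at h3
      exact Subtype.ext h3
    · rintro ⟨w, hw⟩
      rw [mem_ker] at hw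
      have h1 : T (r w) = 0 := by rw [← hr, hw, map_zero]
      have h2 : w = E (r w) := by
        rw [hT'x, h1, map_zero, zero_add, sub_eq_zero] at hw
        exact hw
      exact ⟨⟨r w, h1⟩, Subtype.ext h2.symm⟩
  -- cokernels
  let q : W →ₗ[ℝ] V ⧸ range T := (range T).mkQ ∘ₗ r
  have hq : Function.Surjective q := by
    intro y
    obtain ⟨x, rfl⟩ := (range T).mkQ_surjective y
    exact ⟨E x, by show (range T).mkQ (r (E x)) = _; rw [hrE]⟩
  have hkq : ker q = range T' := by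
    ext w
    constructor
    · intro hw
      have h1 : (range T).mkQ (r w) = 0 := hw
      rw [Submodule.mkQ_apply, Submodule.Quotient.mk_eq_zero] at h1
      obtain ⟨x, hx⟩ := h1
      refine ⟨E x + (w - E (r w)), ?_⟩
      rw [hT'x, map_add, map_sub, hrE, hrE, sub_self, add_zero, hx]
      abel
    · rintro ⟨x, rfl⟩
      show (range T).mkQ (r (T' x)) = 0
      rw [hr, Submodule.mkQ_apply, Submodule.Quotient.mk_eq_zero]
      exact ⟨_, rfl⟩
  have e1 : ker T ≃ₗ[ℝ] ker T' := LinearEquiv.ofBijective k hk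
  have e2 : (W ⧸ range T') ≃ₗ[ℝ] (V ⧸ range T) :=
    (Submodule.quotEquivOfEq _ _ hkq.symm).trans (q.quotKerEquivOfSurjective hq)
  rw [index_eq_finrank_sub, index_eq_finrank_sub, e1.finrank_eq, e2.finrank_eq]

end Stabilise

section Normed

variable {V : Type*} [NormedAddCommGroup V] [NormedSpace ℝ V]

/-- finite rank operators -/
def FR (T : V →L[ℝ] V) : Prop := (T : V →ₗ[ℝ] V).HasFiniteRange

theorem FR.add {S T : V →L[ℝ] V} (hS : FR S) (hT : FR T) : FR (S + T) :=
  LinearMap.HasFiniteRange.add hS hT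

theorem FR.neg {S : V →L[ℝ] V} (hS : FR S) : FR (-S) := LinearMap.HasFiniteRange.neg hS

theorem FR.sub {S T : V →L[ℝ] V} (hS : FR S) (hT : FR T) : FR (S - T) :=
  LinearMap.HasFiniteRange.sub hS hT

theorem FR.mul_left {S : V →L[ℝ] V} (hS : FR S) (T : V →L[ℝ] V) : FR (T * S) :=
  LinearMap.HasFiniteRange.comp_left hS (T : V →ₗ[ℝ] V)

theorem FR.mul_right {S : V →L[ℝ] V} (hS : FR S) (T : V →L[ℝ] V) : FR (S * T) :=
  LinearMap.HasFiniteRange.comp_right hS (T : V →ₗ[ℝ] V)

theorem FR.zero : FR (0 : V →L[ℝ] V) := LinearMap.HasFiniteRange.zero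

/-- operators of norm at most `c` modulo finite rank -/
def SM (c : ℝ) (T : V →L[ℝ] V) : Prop := ∃ X : V →L[ℝ] V, ‖X‖ ≤ c ∧ FR (T - X)

theorem SM.add {c c' : ℝ} {S T : V →L[ℝ] V} (hS : SM c S) (hT : SM c' T) : SM (c + c') (S + T) := by
  obtain ⟨X, hX, hSX⟩ := hS
  obtain ⟨Y, hY, hTY⟩ := hT
  refine ⟨X + Y, (norm_add_le _ _).trans (add_le_add hX hY), ?_⟩
  have : S + T - (X + Y) = (S - X) + (T - Y) := by abel
  rw [this]
  exact hSX.add hTY

theorem SM.neg {c : ℝ} {S : V →L[ℝ] V} (hS : SM c S) : SM c (-S) := by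
  obtain ⟨X, hX, hSX⟩ := hS
  refine ⟨-X, by rwa [norm_neg], ?_⟩
  have : -S - -X = -(S - X) := by abel
  rw [this]
  exact hSX.neg

theorem SM.mono {c c' : ℝ} {S : V →L[ℝ] V} (hS : SM c S) (h : c ≤ c') : SM c' S := by
  obtain ⟨X, hX, hSX⟩ := hS
  exact ⟨X, hX.trans h, hSX⟩

theorem FR.sm {S : V →L[ℝ] V} (hS : FR S) : SM 0 S := ⟨0, by simp, by simpa using hS⟩

theorem SM.mul_left {c C : ℝ} {S : V →L[ℝ] V} (hS : SM c S) {T : V →L[ℝ] V} (hT : ‖T‖ ≤ C) :
    SM (C * c) (T * S) := by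
  obtain ⟨X, hX, hSX⟩ := hS
  refine ⟨T * X, (norm_mul_le _ _).trans
    (mul_le_mul hT hX (norm_nonneg _) ((norm_nonneg _).trans hT)), ?_⟩
  rw [← mul_sub]
  exact hSX.mul_left T

theorem SM.mul_right {c C : ℝ} {S : V →L[ℝ] V} (hS : SM c S) {T : V →L[ℝ] V} (hT : ‖T‖ ≤ C) :
    SM (c * C) (S * T) := by
  obtain ⟨X, hX, hSX⟩ := hS
  refine ⟨X * T, (norm_mul_le _ _).trans
    (mul_le_mul hX hT (norm_nonneg _) ((norm_nonneg _).trans hX)), ?_⟩
  rw [← sub_mul]
  exact hSX.mul_right T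

/-- `B` is a parametrix of `A` up to finite rank and norm `c` -/
def Par (c : ℝ) (A B : V →L[ℝ] V) : Prop := SM c (B * A - 1) ∧ SM c (A * B - 1)

theorem Par.symm {c : ℝ} {A B : V →L[ℝ] V} (h : Par c A B) : Par c B A := ⟨h.2, h.1⟩

/-- the index -/
noncomputable def idx (T : V →L[ℝ] V) : ℤ := (T : V →ₗ[ℝ] V).index

theorem Par.perturb {c C η : ℝ} {A B A' : V →L[ℝ] V} (h : Par c A B) (hB : ‖B‖ ≤ C)
    (hA' : SM η (A' - A)) : Par (c + C * η) A' B := by
  constructor
  · have : B * A' - 1 = (B * A - 1) + B * (A' - A) := by rw [mul_sub]; abel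
    rw [this]
    exact h.1.add (hA'.mul_left hB)
  · have : A' * B - 1 = (A * B - 1) + (A' - A) * B := by rw [sub_mul]; abel
    rw [this, mul_comm C η]
    exact h.2.add (hA'.mul_right hB)

variable [CompleteSpace V]

theorem SM.fred {c : ℝ} (hc : c < 1) {T : V →L[ℝ] V} (h : SM c (T - 1)) :
    Fred (T : V →ₗ[ℝ] V) ∧ idx T = 0 := by
  obtain ⟨X, hX, hTX⟩ := h
  have hu : ‖-X‖ < 1 := by rw [norm_neg]; exact hX.trans_lt hc
  let u : (V →L[ℝ] V)ˣ := Units.oneSub (-X) hu
  have hu' : (u : V →L[ℝ] V) = 1 + X := by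
    show 1 - -X = 1 + X
    abel
  let U : V ≃ₗ[ℝ] V := (ContinuousLinearEquiv.unitsEquiv ℝ V u).toLinearEquiv
  have hU : U.toLinearMap = ((1 + X : V →L[ℝ] V) : V →ₗ[ℝ] V) := by
    ext x
    show (u : V →L[ℝ] V) x = (1 + X) x
    rw [hu']
  have h1 : (T : V →ₗ[ℝ] V) = U.toLinearMap + ((T - 1 - X : V →L[ℝ] V) : V →ₗ[ℝ] V) := by
    rw [hU]
    ext x
    simp
  have h2 := fred_equiv_add U hTX
  rw [idx, h1]
  exact h2

theorem Par.fred {c : ℝ} (hc : c < 1) {A B : V →L[ℝ] V} (h : Par c A B) :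
    Fred (A : V →ₗ[ℝ] V) := by
  have h1 := (h.1.fred hc).1
  have h2 := (h.2.fred hc).1
  exact Fred.of_comp (B := (B : V →ₗ[ℝ] V)) h1 h2

theorem Par.idx_add {c : ℝ} (hc : c < 1) {A B : V →L[ℝ] V} (h : Par c A B) :
    idx A + idx B = 0 := by
  have h1 := h.1.fred hc
  have h2 := Fred.index_comp (h.fred hc) (h.symm.fred hc)
  have h3 : idx (B * A) = idx B + idx A := h2
  rw [h1.2] at h3
  omega

theorem Par.idx_mul {c c' : ℝ} (hc : c < 1) (hc' : c' < 1) {A B A' B' : V →L[ℝ] V} (h : Par c A B)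
    (h' : Par c' A' B') : idx (A * A') = idx A + idx A' :=
  Fred.index_comp (h'.fred hc') (h.fred hc)

theorem Par.idx_eq {c C η : ℝ} (hc : c < 1) (hη : c + C * η < 1) {A B A' : V →L[ℝ] V}
    (h : Par c A B) (hB : ‖B‖ ≤ C) (hA' : SM η (A' - A)) : idx A' = idx A := by
  have h1 := h.idx_add hc
  have h2 := (h.perturb hB hA').idx_add hη
  omega

theorem Par.idx_eq_of_FR {c : ℝ} (hc : c < 1) {A B A' : V →L[ℝ] V}
    (h : Par c A B) (hA' : FR (A' - A)) : idx A' = idx A :=
  h.idx_eq (C := ‖B‖) (η := 0) hc (by simpa using hc) le_rfl hA'.sm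

theorem idx_zero_of_small {A B : V →L[ℝ] V} (h1 : ‖B * A - 1‖ < 1) (h2 : ‖A * B - 1‖ < 1) :
    idx A = 0 := by
  have hu1 : IsUnit (B * A) := by
    have := (Units.oneSub (1 - B * A) (by rwa [norm_sub_rev])).isUnit
    simpa using this
  have hu2 : IsUnit (A * B) := by
    have := (Units.oneSub (1 - A * B) (by rwa [norm_sub_rev])).isUnit
    simpa using this
  have hA : IsUnit A := by
    obtain ⟨u, hu⟩ := hu1
    obtain ⟨v, hv⟩ := hu2
    have hl : (↑u⁻¹ * B) * A = 1 := by rw [mul_assoc, ← hu]; simp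
    have hr : A * (B * ↑v⁻¹) = 1 := by rw [← mul_assoc, ← hv]; simp
    have heq : (↑u⁻¹ * B) = (B * ↑v⁻¹) := left_inv_eq_right_inv hl hr
    exact ⟨⟨A, B * ↑v⁻¹, hr, by rw [← heq]; exact hl⟩, rfl⟩
  obtain ⟨u, rfl⟩ := hA
  let U : V ≃ₗ[ℝ] V := (ContinuousLinearEquiv.unitsEquiv ℝ V u).toLinearEquiv
  have hU : U.toLinearMap = ((u : V →L[ℝ] V) : V →ₗ[ℝ] V) := rfl
  rw [idx, ← hU]
  exact LinearEquiv.index_eq_zero

end Normed

end Pool.Agent.Work.MP_e5cb06_gt
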