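import Pool.Agent.Work.MP_e5cb06_gt.Coef

/-!
# The limit operator on the Stone space
-/

set_option autoImplicit false

open Set Filter Topology

namespace Pool.Agent.Work.MP_e5cb06_gt

open Dyn

variable {B : Set (Set ℕ)} [hB : Fact (Closed B)]

/-- operator with given rows -/
noncomputable def rowL (m : K B → (K B →₀ ℝ)) : (K B → ℝ) →ₗ[ℝ] (K B → ℝ) where
  toFun f y := ip (m y) f
  map_add' f g := funext fun y => ip_add (m y) f g
  map_smul' c f := funext fun y => ip_smul (m y) c f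

omit hB in
theorem rowL_bdd {m : K B → (K B →₀ ℝ)} {C : ℝ} (hC : ∀ y, mass (m y) univ ≤ C) :
    BddBy C (rowL m) := fun _ _ hM hf y =>
  (abs_ip_le_univ hf).trans (mul_le_mul_of_nonneg_right (hC y) hM)

/-- operator with given rows -/
noncomputable def opRow (m : K B → (K B →₀ ℝ)) : Linf (K B) →L[ℝ] Linf (K B) := op (rowL m)

omit hB in
theorem opRow_apply {m : K B → (K B →₀ ℝ)} {C : ℝ} (hC0 : 0 ≤ C) (hC : ∀ y, mass (m y) univ ≤ C)
    (f : Linf (K B)) (y : K B) : opRow m f y = ip (m y) f :=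
  op_apply hC0 (rowL_bdd hC) f y

omit hB in
theorem norm_opRow_le {m : K B → (K B →₀ ℝ)} {C : ℝ} (hC0 : 0 ≤ C)
    (hC : ∀ y, mass (m y) univ ≤ C) : ‖opRow m‖ ≤ C :=
  norm_op_le hC0 (rowL_bdd hC)

/-- coefficients on the Stone space -/
noncomputable def hat (s : K B → Ultrafilter ℕ) (c : List Bool → ℕ → ℝ) : List Bool → K B → ℝ :=
  fun u y => ulim (s y) fun n => c u n

omit hB in
theorem tendsto_coef {L : ℕ} {C : ℝ} {c : List Bool → ℕ → ℝ} (hc : RB L C c) (V : Ultrafilter ℕ)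
    (φ : ℕ → ℕ) {u : List Bool} (hu : u ∈ W L) :
    Tendsto (fun n => c u (φ n)) V (𝓝 (ulim V fun n => c u (φ n))) := by
  apply tendsto_ulim V (C := C)
  refine Eventually.of_forall fun n => ?_
  exact (Finset.single_le_sum (f := fun u => |c u (φ n)|) (fun _ _ => abs_nonneg _) hu).trans
    (hc _)

theorem RB_hat {L : ℕ} {C : ℝ} {c : List Bool → ℕ → ℝ} (hc : RB L C c)
    (s : K B → Ultrafilter ℕ) : RB L C (hat s c) := by
  intro y
  have h1 : Tendsto (fun n => ∑ u ∈ W L, |c u n|) (s y) (𝓝 (∑ u ∈ W L, |hat s c u y|)) :=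
    tendsto_finsetSum _ fun u hu => (tendsto_coef hc (s y) id hu).abs
  exact le_of_tendsto h1 (Eventually.of_forall fun n => hc n)

variable {s : K B → Ultrafilter ℕ} (hs1 : ∀ x, tr B (s x) = x)
  (hs2 : ∀ b x, s (e b x) = (s x).map (e b)) (hs3 : ∀ n, s (pt B n) = pure n)

omit hB in
theorem hat_pt (hs3 : ∀ n, s (pt B n) = pure n) (c : List Bool → ℕ → ℝ) (u : List Bool) (n : ℕ) :
    hat s c u (pt B n) = c u n := by
  rw [hat, hs3]
  apply ulim_eq
  rw [Ultrafilter.coe_pure]
  exact tendsto_pure_nhds _ _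

theorem s_ap (hs2 : ∀ b x, s (e b x) = (s x).map (e b)) (w : List Bool) (z : K B) :
    s (ap w z) = (s z).map (ap w) := by
  induction w generalizing z with
  | nil =>
    rw [ap_nil]
    exact (map_eq_self (A := univ) Filter.univ_mem fun n _ => rfl).symm
  | cons b w ih =>
    rw [ap_cons, ih, hs2, Ultrafilter.map_map]
    rfl

theorem eventually_of_finite {V : Ultrafilter ℕ} (hV : tr B V ∈ bd B) {P : ℕ → Prop}
    (hP : {n | ¬ P n}.Finite) : ∀ᶠ n in (V : Filter ℕ), P n := by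
  have h1 := cofinite_mem hV hP
  filter_upwards [h1] with n hn
  exact not_not.1 hn

include hs1 hs3 in
/-- the operator is a small perturbation of the limit operator modulo finite rank -/
theorem sm_row_sub_hat {m : K B → (K B →₀ ℝ)} {L : ℕ} {F : Set (K B)} {ε C : ℝ} (hε : 0 ≤ ε)
    (hC0 : 0 ≤ C) (h : Cl m L F ε C) : SM ε (opRow m - Op L (hat s (co m L))) := by
  refine sm_of_rows ((eventually_good h).image (pt B)) h.fin hε fun f hf y hy => ?_
  show |opRow m f y - Op L (hat s (co m L)) f y| ≤ _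
  rw [opRow_apply hC0 h.hC, Op_apply hC0 (RB_hat (co_RB hC0 h.hC) s)]
  by_cases hyb : y ∈ bd B
  · refine limit_lemma hC0 h (V := s y) (φ := id) ?_ ?_ (norm_nonneg _) (Linf.le_norm f) hf
    · rw [Ultrafilter.map_id, hs1]
    · exact eventually_of_finite (by rw [hs1]; exact hyb) (eventually_good h)
  · have h1 : ∃ n, pt B n = y := by simpa [bd] using hyb
    obtain ⟨n, rfl⟩ := h1
    have h2 : Gd m L F ε n := by
      by_contra h3
      exact hy ⟨n, h3, rfl⟩
    simp only [hat_pt hs3]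
    exact near_estimate h2 (norm_nonneg _) (Linf.le_norm f) fun x hx _ => hf x hx

/-- the position after going up and down twice -/
def wrd (L : ℕ) (t v u : List Bool) : List Bool :=
  (t.take L ++ v).take v.length ++ u

theorem ap_σ_one {X : Type} [Dyn X] {L : ℕ} {t : List Bool} (ht : t.length = 2 * L)
    (v : List Bool) (z : X) : ap v (σ^[L] (ap t z)) = ap (t.take L ++ v) z := by
  rw [σ_iter_ap_le t z L (by omega), ap_append]
  congr 3
  omega

theorem ap_σ_two {X : Type} [Dyn X] {L : ℕ} {t : List Bool} (ht : t.length = 2 * L)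
    (v u : List Bool) (z : X) :
    ap u (σ^[L] (ap (t.take L ++ v) z)) = ap (wrd L t v u) z := by
  have h1 : (t.take L ++ v).length = L + v.length := by
    rw [List.length_append, List.length_take]; omega
  rw [σ_iter_ap_le (t.take L ++ v) z L (by omega), wrd, ap_append]
  congr 3
  omega

include hs1 hs2 in
theorem hat_comp {L D : ℕ} {c C : ℝ} (hc : 0 ≤ c) (hC0 : 0 ≤ C) {a b : List Bool → ℕ → ℝ}
    (ha : RB L C a) (hb : RB L C b) (h : GdL L D c a b) {y : K B} (hy : y ∈ bd B)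
    (f : Linf (K B)) :
    |Op L (hat s b) (Op L (hat s a) f) y - f y| ≤ c * ‖f‖ := by
  classical
  obtain ⟨t, ht, hty⟩ := exists_ap (2 * L) y
  set z := σ^[2 * L] y with hz
  have hzb : z ∈ bd B := σ_iter_mem_bd.2 hy
  set V := s z with hV
  have hVz : tr B V = z := hs1 z
  have hsw : ∀ w, s (ap w z) = V.map (ap w) := fun w => s_ap hs2 w z
  -- the test functions
  have hfn : ∀ n : ℕ, ∃ g : Linf ℕ, ‖g‖ ≤ ‖f‖ ∧ (1 ≤ n → ∀ w, g (ap w n) = f (ap w z)) := by
    intro n
    let g0 : ℕ → ℝ := fun k => if hk : ∃ w, ap w n = k then f (ap hk.choose z) else 0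
    have hg0 : ∀ k, |g0 k| ≤ ‖f‖ := by
      intro k
      simp only [g0]
      split_ifs
      · exact Linf.le_norm f _
      · rw [abs_zero]; exact norm_nonneg _
    refine ⟨Linf.mk g0 ⟨‖f‖, hg0⟩, Linf.norm_le (norm_nonneg _) hg0, fun hn w => ?_⟩
    rw [Linf.mk_apply]
    have hk : ∃ w', ap w' n = ap w n := ⟨w, rfl⟩
    simp only [g0, dif_pos hk]
    rw [ap_inj hn hk.choose_spec]
  choose g hg hgw using hfn
  -- the limit
  have t1 : Tendsto (fun n => |∑ v ∈ W L, b v (ap t n) * (∑ u ∈ W L, a u (ap (t.take L ++ v) n) *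
      f (ap (wrd L t v u) z)) - f (ap t z)|) V
      (𝓝 |∑ v ∈ W L, hat s b v (ap t z) * (∑ u ∈ W L, hat s a u (ap (t.take L ++ v) z) *
      f (ap (wrd L t v u) z)) - f (ap t z)|) := by
    refine (Tendsto.sub_const (tendsto_finsetSum _ fun v hv => ?_) _).abs
    refine Tendsto.mul ?_ (tendsto_finsetSum _ fun u hu => Tendsto.mul_const _ ?_)
    · rw [hat, hsw, ulim_map]
      exact tendsto_coef hb V (ap t) hv
    · rw [hat, hsw, ulim_map]
      exact tendsto_coef ha V (ap (t.take L ++ v)) hu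
  have e1 : Op L (hat s b) (Op L (hat s a) f) y - f y =
      ∑ v ∈ W L, hat s b v (ap t z) * (∑ u ∈ W L, hat s a u (ap (t.take L ++ v) z) *
      f (ap (wrd L t v u) z)) - f (ap t z) := by
    rw [← hty, Op_apply hC0 (RB_hat hb s)]
    congr 1
    apply Finset.sum_congr rfl
    intro v _
    rw [Op_apply hC0 (RB_hat ha s), ap_σ_one ht]
    congr 1
    apply Finset.sum_congr rfl
    intro u _
    rw [ap_σ_two ht]
  rw [e1]
  refine le_of_tendsto t1 ?_
  have hVb : tr B V ∈ bd B := by rw [hVz]; exact hzb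
  have ev1 : ∀ᶠ n in (V : Filter ℕ), 2 * L + D + 1 ≤ Nat.log 2 n := by
    apply eventually_of_finite hVb
    refine (finite_log_lt (2 * L + D + 1)).subset fun n hn => ?_
    exact not_le.1 hn
  filter_upwards [ev1] with n hn
  have hn1 : 1 ≤ n := pos_of_log (by omega)
  have h1 := h (ap t n) (by rw [log_ap t hn1]; omega) (g n)
  rw [Op_apply hC0 hb, hgw n hn1 t] at h1
  have e2 : ∑ v ∈ W L, b v (ap t n) * (Op L a (g n)) (ap v (σ^[L] (ap t n))) =
      ∑ v ∈ W L, b v (ap t n) * (∑ u ∈ W L, a u (ap (t.take L ++ v) n) *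
      f (ap (wrd L t v u) z)) := by
    apply Finset.sum_congr rfl
    intro v _
    rw [Op_apply hC0 ha, ap_σ_one ht]
    congr 1
    apply Finset.sum_congr rfl
    intro u _
    rw [ap_σ_two ht, hgw n hn1]
  rw [e2] at h1
  exact h1.trans (mul_le_mul_of_nonneg_left (hg n) hc)

/-- the boundary part of the limit operator -/
noncomputable def bdOp (L : ℕ) (c : List Bool → K B → ℝ) : Linf (K B) →L[ℝ] Linf (K B) :=
  Pr (bd B) * Op L c * Pr (bd B) + (1 - Pr (bd B))

theorem bdOp_apply_mem {L : ℕ} {C : ℝ} (hC0 : 0 ≤ C) {c : List Bool → K B → ℝ} (hc : RB L C c)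
    (f : Linf (K B)) {y : K B} (hy : y ∈ bd B) : bdOp L c f y = Op L c f y := by
  show (Pr (bd B) (Op L c (Pr (bd B) f)) + (f - Pr (bd B) f)) y = _
  rw [Linf.add_apply, Linf.sub_apply, Pr_apply_mem hy, Pr_apply_mem hy, sub_self, add_zero,
    Op_apply hC0 hc, Op_apply hC0 hc]
  apply Finset.sum_congr rfl
  intro u _
  rw [Pr_apply_mem (ap_mem_bd.2 (σ_iter_mem_bd.2 hy))]

theorem bdOp_apply_notMem {L : ℕ} {c : List Bool → K B → ℝ}
    (f : Linf (K B)) {y : K B} (hy : y ∉ bd B) : bdOp L c f y = f y := by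
  show (Pr (bd B) (Op L c (Pr (bd B) f)) + (f - Pr (bd B) f)) y = _
  rw [Linf.add_apply, Linf.sub_apply, Pr_apply_notMem hy, Pr_apply_notMem hy, sub_zero, zero_add]

include hs1 hs2 in
theorem norm_bdOp {L D : ℕ} {c C : ℝ} (hc : 0 ≤ c) (hC0 : 0 ≤ C) {a b : List Bool → ℕ → ℝ}
    (ha : RB L C a) (hb : RB L C b) (h : GdL L D c a b) :
    ‖bdOp L (hat s b) * bdOp L (hat s a) - 1‖ ≤ c := by
  apply opNorm_le_of_rows hc
  intro f y
  show |bdOp L (hat s b) (bdOp L (hat s a) f) y - f y| ≤ _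
  by_cases hy : y ∈ bd B
  · rw [bdOp_apply_mem hC0 (RB_hat hb s) _ hy]
    have h1 : Op L (hat s b) (bdOp L (hat s a) f) y = Op L (hat s b) (Op L (hat s a) f) y := by
      rw [Op_apply hC0 (RB_hat hb s), Op_apply hC0 (RB_hat hb s)]
      apply Finset.sum_congr rfl
      intro u _
      rw [bdOp_apply_mem hC0 (RB_hat ha s) _ (ap_mem_bd.2 (σ_iter_mem_bd.2 hy))]
    rw [h1]
    exact hat_comp hs1 hs2 hc hC0 ha hb h hy f
  · rw [bdOp_apply_notMem _ hy, bdOp_apply_notMem _ hy, sub_self, abs_zero]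
    exact mul_nonneg hc (norm_nonneg _)

include hs3 in
theorem ext_mul_bdOp {L : ℕ} {C : ℝ} (hC0 : 0 ≤ C) {a : List Bool → ℕ → ℝ}
    (ha : RB L C a) : ext (pt B) (Op L a) * bdOp L (hat s a) = Op L (hat s a) := by
  ext f y
  show ext (pt B) (Op L a) (bdOp L (hat s a) f) y = Op L (hat s a) f y
  by_cases hy : y ∈ bd B
  · rw [ext_apply_notMem _ _ hy, bdOp_apply_mem hC0 (RB_hat ha s) _ hy]
  · have h1 : ∃ n, pt B n = y := by simpa [bd] using hy
    obtain ⟨n, rfl⟩ := h1
    rw [ext_apply_mem (pt_injective hB.out), Op_apply hC0 ha, Op_apply hC0 (RB_hat ha s)]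
    apply Finset.sum_congr rfl
    intro u _
    have h2 : pt B (ap u (σ^[L] n)) ∉ bd B := fun h => h ⟨_, rfl⟩
    rw [pull_apply, bdOp_apply_notMem _ h2, hat_pt hs3, σ_iter_pt, ap_pt]

include hs1 hs2 hs3 in
/-- the index of the limit operator is the index of its part on `ℕ` -/
theorem idx_hat {L D : ℕ} {c C : ℝ} (hc : 0 ≤ c) (hc1 : c < 1) (hC0 : 0 ≤ C)
    {a b : List Bool → ℕ → ℝ} (ha : RB L C a) (hb : RB L C b) (h : GdL L D c a b)
    (h' : GdL L D c b a) : idx (Op L (hat s a)) = idx (Op L a) := by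
  have n1 := norm_bdOp hs1 hs2 hc hC0 ha hb h
  have n2 := norm_bdOp hs1 hs2 hc hC0 hb ha h'
  have i1 : idx (bdOp L (hat s a)) = 0 :=
    idx_zero_of_small (n1.trans_lt hc1) (n2.trans_lt hc1)
  have p1 : Par c (bdOp L (hat s a)) (bdOp L (hat s b)) :=
    ⟨⟨_, n1, by rw [sub_self]; exact FR.zero⟩, ⟨_, n2, by rw [sub_self]; exact FR.zero⟩⟩
  have p2 : Par c (ext (pt B) (Op L a)) (ext (pt B) (Op L b)) :=
    Par.ext hc (pt_injective hB.out) ⟨h.sm hc, h'.sm hc⟩
  have h1 := p2.idx_mul hc1 hc1 p1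
  rw [ext_mul_bdOp hs3 hC0 ha, idx_ext (pt_injective hB.out), i1, add_zero] at h1
  exact h1

/-! ### The index of the original operator -/

theorem idx_rows (d : Rows B) {C : ℝ} (hC0 : 0 ≤ C) (hμ : ∀ y, mass (d.μ y) univ ≤ C)
    (hν : ∀ y, mass (d.ν y) univ ≤ C) :
    Par 0 (opRow d.μ) (opRow d.ν) ∧ idx (opRow d.μ) = -1 := by
  classical
  have hRS : opRow d.ν * opRow d.μ = 1 := by
    ext f y
    show opRow d.ν (opRow d.μ f) y = f y
    rw [opRow_apply hC0 hν]
    have h1 : (opRow d.μ f : K B → ℝ) = fun x => ip (d.μ x) f := by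
      funext x
      exact opRow_apply hC0 hμ f x
    rw [h1]
    exact d.id1 f y
  obtain ⟨Mg, hMg⟩ := (isCompact_univ (X := K B)).exists_bound_of_continuousOn d.hg.continuousOn
  let g : Linf (K B) := Linf.mk d.g ⟨Mg, fun x => hMg x (mem_univ x)⟩
  have hSR : ∀ f : Linf (K B), opRow d.μ (opRow d.ν f) = f - (ip d.s f) • g := by
    intro f
    apply Linf.ext
    intro y
    rw [opRow_apply hC0 hμ, Linf.sub_apply, Linf.smul_apply]
    have h1 : (opRow d.ν f : K B → ℝ) = fun x => ip (d.ν x) f := by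
      funext x
      exact opRow_apply hC0 hν f x
    rw [h1]
    exact d.id2 f y
  have hfr : FR (opRow d.μ * opRow d.ν - 1) := by
    let φ : Linf (K B) →ₗ[ℝ] ℝ :=
      { toFun := fun f => -ip d.s f
        map_add' := fun f g => by
          have : ip d.s (↑(f + g) : K B → ℝ) = ip d.s f + ip d.s g := ip_add d.s f g
          rw [this]; ring
        map_smul' := fun c f => by
          have : ip d.s (↑(c • f) : K B → ℝ) = c * ip d.s f := ip_smul d.s c f
          rw [this]; simp }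
    let ψ : ℝ →ₗ[ℝ] Linf (K B) := LinearMap.toSpanSingleton ℝ _ g
    have h1 : ((opRow d.μ * opRow d.ν - 1 : Linf (K B) →L[ℝ] Linf (K B)) :
        Linf (K B) →ₗ[ℝ] Linf (K B)) = ψ ∘ₗ φ := by
      apply LinearMap.ext
      intro f
      show opRow d.μ (opRow d.ν f) - f = (-ip d.s f) • g
      rw [hSR f]
      rw [neg_smul]
      abel
    rw [FR, h1]
    exact LinearMap.HasFiniteRange.comp_left
      (LinearMap.HasFiniteRange.of_isNoetherian_rng (f := φ)) ψ
  have hpar : Par 0 (opRow d.μ) (opRow d.ν) := by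
    refine ⟨?_, hfr.sm⟩
    rw [hRS, sub_self]
    exact FR.zero.sm
  refine ⟨hpar, ?_⟩
  have hadd := hpar.idx_add zero_lt_one
  -- the index of the left inverse
  have hsurj : Function.Surjective ((opRow d.ν : Linf (K B) →L[ℝ] Linf (K B)) :
      Linf (K B) →ₗ[ℝ] Linf (K B)) := by
    intro f
    refine ⟨opRow d.μ f, ?_⟩
    show (opRow d.ν * opRow d.μ) f = f
    rw [hRS]; rfl
  have hg0 : g ≠ 0 := by
    intro h
    have h1 := d.id4
    have h2 : ip d.s d.g = 0 := by
      apply Finset.sum_eq_zero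
      intro x _
      have : d.g x = 0 := by
        have h3 : g x = (0 : Linf (K B)) x := by rw [h]
        exact h3
      rw [this, mul_zero]
    rw [h2] at h1
    exact zero_ne_one h1
  have hker : LinearMap.ker ((opRow d.ν : Linf (K B) →L[ℝ] Linf (K B)) :
      Linf (K B) →ₗ[ℝ] Linf (K B)) = Submodule.span ℝ {g} := by
    ext f
    rw [Submodule.mem_span_singleton]
    constructor
    · intro hf
      have hf' : opRow d.ν f = 0 := hf
      refine ⟨ip d.s f, ?_⟩
      have h1 := hSR f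
      rw [hf', map_zero] at h1
      exact (sub_eq_zero.1 h1.symm).symm
    · rintro ⟨c, rfl⟩
      show opRow d.ν (c • g) = 0
      rw [map_smul]
      have h1 : opRow d.ν g = 0 := by
        apply Linf.ext
        intro y
        rw [opRow_apply hC0 hν]
        exact d.id3 y
      rw [h1, smul_zero]
  have hR : idx (opRow d.ν) = 1 := by
    rw [idx, LinearMap.index_of_surjective hsurj, hker, finrank_span_singleton hg0]
    rfl
  rw [hR] at hadd
  omega

end Pool.Agent.Work.MP_e5cb06_gt
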