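import Pool.Agent.Work.MP_e5cb06_gt.Sect

/-!
# Rows of pointwise continuous operators
-/

set_option autoImplicit false

open Set Filter Topology

namespace Pool.Agent.Work.MP_e5cb06_gt

section Meas

variable {X : Type}

/-- integral of a function against a finitely supported measure -/
noncomputable def ip (m : X →₀ ℝ) (f : X → ℝ) : ℝ := ∑ x ∈ m.support, m x * f x

open Classical in
/-- total variation of a set -/
noncomputable def mass (m : X →₀ ℝ) (E : Set X) : ℝ := ∑ x ∈ m.support, if x ∈ E then |m x| else 0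

theorem ip_add (m : X →₀ ℝ) (f g : X → ℝ) : ip m (fun x => f x + g x) = ip m f + ip m g := by
  simp only [ip, mul_add, Finset.sum_add_distrib]

theorem ip_sub (m : X →₀ ℝ) (f g : X → ℝ) : ip m (fun x => f x - g x) = ip m f - ip m g := by
  simp only [ip, mul_sub, Finset.sum_sub_distrib]

theorem ip_smul (m : X →₀ ℝ) (c : ℝ) (f : X → ℝ) : ip m (fun x => c * f x) = c * ip m f := by
  simp only [ip, Finset.mul_sum]
  exact Finset.sum_congr rfl fun x _ => by ring

theorem ip_sum (m : X →₀ ℝ) {ι : Type*} (s : Finset ι) (f : ι → X → ℝ) :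
    ip m (fun x => ∑ i ∈ s, f i x) = ∑ i ∈ s, ip m (f i) := by
  simp only [ip, Finset.mul_sum]
  exact Finset.sum_comm

theorem ip_congr {m : X →₀ ℝ} {f g : X → ℝ} (h : ∀ x ∈ m.support, f x = g x) : ip m f = ip m g :=
  Finset.sum_congr rfl fun x hx => by rw [h x hx]

/-- sum over a larger finite set -/
theorem ip_eq_sum {m : X →₀ ℝ} {s : Finset X} (hs : m.support ⊆ s) (f : X → ℝ) :
    ip m f = ∑ x ∈ s, m x * f x := by
  apply Finset.sum_subset hs
  intro x _ hx
  rw [Finsupp.notMem_support_iff.1 hx, zero_mul]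

theorem mass_nonneg (m : X →₀ ℝ) (E : Set X) : 0 ≤ mass m E := by
  classical
  apply Finset.sum_nonneg
  intro x _
  split_ifs
  · exact abs_nonneg _
  · exact le_rfl

theorem mass_mono (m : X →₀ ℝ) {E F : Set X} (h : E ⊆ F) : mass m E ≤ mass m F := by
  classical
  apply Finset.sum_le_sum
  intro x _
  by_cases hx : x ∈ E
  · rw [if_pos hx, if_pos (h hx)]
  · rw [if_neg hx]
    split_ifs
    · exact abs_nonneg _
    · exact le_rfl

theorem mass_union_le (m : X →₀ ℝ) (E F : Set X) : mass m (E ∪ F) ≤ mass m E + mass m F := by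
  classical
  rw [mass, mass, mass, ← Finset.sum_add_distrib]
  apply Finset.sum_le_sum
  intro x _
  by_cases hE : x ∈ E
  · rw [if_pos (show x ∈ E ∪ F from Or.inl hE), if_pos hE]
    have : (0 : ℝ) ≤ if x ∈ F then |m x| else 0 := by split_ifs; exacts [abs_nonneg _, le_rfl]
    linarith
  · by_cases hF : x ∈ F
    · rw [if_pos (show x ∈ E ∪ F from Or.inr hF), if_neg hE, if_pos hF, zero_add]
    · rw [if_neg (by simp [hE, hF]), if_neg hE, if_neg hF, zero_add]

theorem mass_union_disj (m : X →₀ ℝ) {E F : Set X} (h : Disjoint E F) :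
    mass m (E ∪ F) = mass m E + mass m F := by
  classical
  rw [mass, mass, mass, ← Finset.sum_add_distrib]
  apply Finset.sum_congr rfl
  intro x _
  by_cases hE : x ∈ E
  · rw [if_pos (show x ∈ E ∪ F from Or.inl hE), if_pos hE, if_neg (Set.disjoint_left.1 h hE), add_zero]
  · by_cases hF : x ∈ F
    · rw [if_pos (show x ∈ E ∪ F from Or.inr hF), if_neg hE, if_pos hF, zero_add]
    · rw [if_neg (by simp [hE, hF]), if_neg hE, if_neg hF, zero_add]

theorem mass_eq_zero {m : X →₀ ℝ} {E : Set X} (h : ∀ x ∈ E, m x = 0) : mass m E = 0 := by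
  classical
  apply Finset.sum_eq_zero
  intro x _
  split_ifs with hx
  · rw [h x hx, abs_zero]
  · rfl

theorem abs_ip_le {m : X →₀ ℝ} {E : Set X} {f : X → ℝ} {M : ℝ} (hf : ∀ x ∈ E, |f x| ≤ M)
    (hf0 : ∀ x ∉ E, f x = 0) : |ip m f| ≤ mass m E * M := by
  classical
  rw [ip, mass, Finset.sum_mul]
  refine (Finset.abs_sum_le_sum_abs _ _).trans (Finset.sum_le_sum fun x _ => ?_)
  rw [abs_mul]
  by_cases hx : x ∈ E
  · rw [if_pos hx]
    exact mul_le_mul_of_nonneg_left (hf x hx) (abs_nonneg _)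
  · rw [if_neg hx, hf0 x hx, abs_zero, mul_zero, zero_mul]

theorem abs_ip_le_univ {m : X →₀ ℝ} {f : X → ℝ} {M : ℝ} (hf : ∀ x, |f x| ≤ M) :
    |ip m f| ≤ mass m univ * M :=
  abs_ip_le (fun x _ => hf x) fun x hx => absurd (mem_univ x) hx

theorem mass_eq_ip (m : X →₀ ℝ) (E : Set X) : ∃ f : X → ℝ, (∀ x, |f x| ≤ 1) ∧
    (∀ x ∉ E, f x = 0) ∧ ip m f = mass m E := by
  classical
  refine ⟨fun x => if x ∈ E then SignType.sign (m x) else 0, ?_, ?_, ?_⟩
  · intro x
    beta_reduce
    split_ifs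
    · rcases lt_trichotomy (m x) 0 with h | h | h
      · simp [sign_neg h]
      · simp [h]
      · simp [sign_pos h]
    · simp
  · intro x hx
    exact if_neg hx
  · rw [ip, mass]
    apply Finset.sum_congr rfl
    intro x _
    split_ifs
    · rw [mul_comm]; exact sign_mul_self _
    · rw [mul_zero]

end Meas

open Dyn

variable {B : Set (Set ℕ)}

/-- representation of pointwise continuous functionals -/
theorem exists_row (hB : Closed B) {φ : (K B → ℝ) → ℝ}
    (hlin : ∀ (a : ℝ) (f g : K B → ℝ), Continuous f → Continuous g →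
      φ (a • f + g) = a * φ f + φ g)
    (hcont : ContinuousOn φ {f : K B → ℝ | Continuous f}) :
    ∃ m : K B →₀ ℝ, ∀ f : K B → ℝ, Continuous f → φ f = ip m f := by
  classical
  have h0 : φ 0 = 0 := by
    have := hlin 1 0 0 continuous_const continuous_const
    simp only [smul_zero, add_zero, one_mul] at this
    linarith
  have hsmul : ∀ (a : ℝ) (f : K B → ℝ), Continuous f → φ (a • f) = a * φ f := by
    intro a f hf
    have := hlin a f 0 hf continuous_const
    rwa [add_zero, h0, add_zero] at this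
  have hadd : ∀ f g : K B → ℝ, Continuous f → Continuous g → φ (f + g) = φ f + φ g := by
    intro f g hf hg
    have := hlin 1 f g hf hg
    rwa [one_smul, one_mul] at this
  -- finite support
  have h1 : ∃ Z : Finset (K B), ∃ ε : ℝ, 0 < ε ∧ ∀ f : K B → ℝ, Continuous f →
      (∀ x ∈ Z, |f x| < ε) → |φ f| < 1 := by
    have h2 : {f | |φ f| < 1} ∈ 𝓝[{f : K B → ℝ | Continuous f}] 0 := by
      have h3 := hcont 0 (show Continuous (0 : K B → ℝ) from continuous_const)
      have h4 : Metric.ball (0 : ℝ) 1 ∈ 𝓝 (φ 0) := by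
        rw [h0]; exact Metric.ball_mem_nhds _ one_pos
      have h5 := h3 h4
      refine mem_of_superset h5 fun f hf => ?_
      have : dist (φ f) 0 < 1 := hf
      rwa [Real.dist_eq, sub_zero] at this
    rw [mem_nhdsWithin] at h2
    obtain ⟨O, hO, h0O, hOφ⟩ := h2
    obtain ⟨I, u, hu, huO⟩ := isOpen_pi_iff.1 hO 0 h0O
    have h3 : ∀ i : K B, ∃ ε : ℝ, 0 < ε ∧ (i ∈ I → ∀ t : ℝ, |t| < ε → t ∈ u i) := by
      intro i
      by_cases hi : i ∈ I
      · obtain ⟨ε, hε, hεu⟩ := Metric.isOpen_iff.1 (hu i hi).1 _ (hu i hi).2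
        refine ⟨ε, hε, fun _ t ht => hεu ?_⟩
        rw [Metric.mem_ball, Real.dist_eq]
        simpa using ht
      · exact ⟨1, one_pos, fun h => absurd h hi⟩
    choose ε hε hεu using h3
    rcases I.eq_empty_or_nonempty with rfl | hne
    · refine ⟨∅, 1, one_pos, fun f hf _ => hOφ ⟨huO ?_, hf⟩⟩
      intro i hi
      simp at hi
    · refine ⟨I, I.inf' hne ε, ?_, ?_⟩
      · rw [Finset.lt_inf'_iff]
        exact fun i _ => hε i
      · intro f hf hfI
        refine hOφ ⟨huO ?_, hf⟩
        intro i hi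
        exact hεu i hi _ ((hfI i hi).trans_le (Finset.inf'_le _ hi))
  obtain ⟨Z, ε, hε, hZ⟩ := h1
  have h2 : ∀ f : K B → ℝ, Continuous f → (∀ x ∈ Z, f x = 0) → φ f = 0 := by
    intro f hf hfZ
    by_contra hne
    have h3 := hZ ((φ f)⁻¹ • f) (hf.const_smul _) fun x hx => by
      show |(φ f)⁻¹ * f x| < ε
      rw [hfZ x hx, mul_zero, abs_zero]
      exact hε
    rw [hsmul _ _ hf, inv_mul_cancel₀ hne, abs_one] at h3
    exact absurd h3 (lt_irrefl _)
  have h3 : ∀ z : K B, ∃ ez : K B → ℝ, Continuous ez ∧ ∀ x ∈ Z, ez x = if x = z then 1 else 0 := by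
    intro z
    obtain ⟨g, hg, hgZ, -⟩ := exists_interp hB (Z.finite_toSet) (fun x => if x = z then 1 else 0)
      zero_le_one (fun x _ => by split_ifs <;> simp)
    exact ⟨g, hg, fun x hx => hgZ x hx⟩
  choose ez hez hezZ using h3
  refine ⟨∑ z ∈ Z, Finsupp.single z (φ (ez z)), fun f hf => ?_⟩
  have hsumc : ∀ s : Finset (K B), Continuous (∑ z ∈ s, f z • ez z) ∧
      φ (∑ z ∈ s, f z • ez z) = ∑ z ∈ s, f z * φ (ez z) := by
    intro s
    induction s using Finset.induction_on with
    | empty => exact ⟨by rw [Finset.sum_empty]; exact continuous_const, by simpa using h0⟩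
    | insert a s ha ih =>
      rw [Finset.sum_insert ha, Finset.sum_insert ha]
      have h4 : Continuous (f a • ez a) := (hez a).const_smul _
      exact ⟨h4.add ih.1, by rw [hadd _ _ h4 ih.1, hsmul _ _ (hez a), ih.2]⟩
  have h4 : φ f = ∑ z ∈ Z, f z * φ (ez z) := by
    have h5 : f = (f - ∑ z ∈ Z, f z • ez z) + ∑ z ∈ Z, f z • ez z := by
      rw [sub_add_cancel]
    have h6 : φ (f - ∑ z ∈ Z, f z • ez z) = 0 := by
      apply h2 _ (hf.sub (hsumc Z).1)
      intro x hx
      rw [Pi.sub_apply, Finset.sum_apply, sub_eq_zero]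
      rw [Finset.sum_eq_single x]
      · simp [hezZ x x hx]
      · intro z _ hzx
        simp [hezZ z x hx, Ne.symm hzx]
      · intro h; exact absurd hx h
    rw [h5, hadd _ _ (hf.sub (hsumc Z).1) (hsumc Z).1, h6, zero_add, (hsumc Z).2]
    congr 1
    rw [← h5]
  rw [h4]
  have h5 : (∑ z ∈ Z, Finsupp.single z (φ (ez z))).support ⊆ Z := by
    refine Finsupp.support_finsetSum.trans ?_
    intro x hx
    simp only [Finset.mem_biUnion] at hx
    obtain ⟨z, hz, hxz⟩ := hx
    have := Finsupp.support_single_subset hxz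
    rw [Finset.mem_singleton] at this
    rwa [this]
  rw [ip_eq_sum h5]
  apply Finset.sum_congr rfl
  intro x hx
  rw [Finsupp.finsetSum_apply, Finset.sum_eq_single x]
  · rw [Finsupp.single_eq_same, mul_comm]
  · intro z _ hzx
    exact Finsupp.single_eq_of_ne (Ne.symm hzx)
  · intro h; exact absurd hx h

/-- uniform bound for the rows of an operator on `C(K)` -/
theorem exists_bound (hB : Closed B) {μ : K B → (K B →₀ ℝ)}
    (hμ : ∀ f : K B → ℝ, Continuous f → Continuous fun y => ip (μ y) f) :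
    ∃ C : ℝ, 0 ≤ C ∧ ∀ y, mass (μ y) univ ≤ C := by
  classical
  let g : K B → (C(K B, ℝ) →L[ℝ] ℝ) := fun y =>
    LinearMap.mkContinuous
      { toFun := fun f => ip (μ y) f
        map_add' := fun f g => ip_add (μ y) f g
        map_smul' := fun c f => ip_smul (μ y) c f } (mass (μ y) univ) (fun f => by
          have := abs_ip_le_univ (m := μ y) (f := f) (M := ‖f‖) fun x => f.norm_coe_le_norm x
          exact this)
  have h1 : ∀ f : C(K B, ℝ), ∃ C, ∀ y, ‖g y f‖ ≤ C := by
    intro f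
    have h2 := hμ f f.continuous
    obtain ⟨C, hC⟩ := (isCompact_univ (X := K B)).exists_bound_of_continuousOn h2.continuousOn
    exact ⟨C, fun y => hC y (mem_univ y)⟩
  obtain ⟨C, hC⟩ := banach_steinhaus h1
  refine ⟨max C 0, le_max_right _ _, fun y => ?_⟩
  obtain ⟨f, hf1, -, hf2⟩ := mass_eq_ip (μ y) univ
  obtain ⟨f', hf'c, hf'Z, hf'M⟩ := exists_interp hB (μ y).support.finite_toSet f zero_le_one
    fun x _ => hf1 x
  rw [← hf2, ← ip_congr fun x hx => hf'Z x hx]
  have h3 : g y ⟨f', hf'c⟩ = ip (μ y) f' := rfl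
  rw [← h3]
  have h4 := (g y).le_of_opNorm_le (hC y) ⟨f', hf'c⟩
  have h5 : ‖(⟨f', hf'c⟩ : C(K B, ℝ))‖ ≤ 1 := by
    rw [ContinuousMap.norm_le _ zero_le_one]
    exact hf'M
  have h6 : C * ‖(⟨f', hf'c⟩ : C(K B, ℝ))‖ ≤ max C 0 := by
    calc C * ‖(⟨f', hf'c⟩ : C(K B, ℝ))‖ ≤ max C 0 * ‖(⟨f', hf'c⟩ : C(K B, ℝ))‖ :=
          mul_le_mul_of_nonneg_right (le_max_left _ _) (norm_nonneg _)
      _ ≤ max C 0 * 1 := mul_le_mul_of_nonneg_left h5 (le_max_right _ _)
      _ = max C 0 := mul_one _
  exact (le_abs_self _).trans (h4.trans h6)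

/-- the data extracted from an isomorphism `C_p(K) × ℝ ≃ C_p(K)` -/
structure Rows (B : Set (Set ℕ)) where
  μ : K B → (K B →₀ ℝ)
  ν : K B → (K B →₀ ℝ)
  s : K B →₀ ℝ
  g : K B → ℝ
  hμ : ∀ f : K B → ℝ, Continuous f → Continuous fun y => ip (μ y) f
  hν : ∀ f : K B → ℝ, Continuous f → Continuous fun y => ip (ν y) f
  hg : Continuous g
  id1 : ∀ (f : K B → ℝ) (y : K B), ip (ν y) (fun x => ip (μ x) f) = f y
  id2 : ∀ (f : K B → ℝ) (y : K B), ip (μ y) (fun x => ip (ν x) f) = f y - ip s f * g y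
  id3 : ∀ y, ip (ν y) g = 0
  id4 : ip s g = 1

theorem exists_rows (hB : Closed B) {T : (K B → ℝ) × ℝ → (K B → ℝ)} {S : (K B → ℝ) → (K B → ℝ) × ℝ}
    (h1 : ∀ p : (K B → ℝ) × ℝ, Continuous p.1 → Continuous (T p))
    (h2 : ∀ g : K B → ℝ, Continuous g → Continuous (S g).1)
    (h3 : ∀ p : (K B → ℝ) × ℝ, Continuous p.1 → S (T p) = p)
    (h4 : ∀ g : K B → ℝ, Continuous g → T (S g) = g)
    (h5 : ∀ (a : ℝ) (p q : (K B → ℝ) × ℝ), Continuous p.1 → Continuous q.1 →
      T (a • p + q) = a • T p + T q)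
    (h6 : ContinuousOn T {p : (K B → ℝ) × ℝ | Continuous p.1})
    (h7 : ContinuousOn S {g : K B → ℝ | Continuous g}) : Nonempty (Rows B) := by
  classical
  have hSlin : ∀ (a : ℝ) (f g : K B → ℝ), Continuous f → Continuous g →
      S (a • f + g) = a • S f + S g := by
    intro a f g hf hg
    have h8 := h5 a (S f) (S g) (h2 f hf) (h2 g hg)
    rw [h4 f hf, h4 g hg] at h8
    rw [← h8, h3]
    exact ((h2 f hf).const_smul a).add (h2 g hg)
  have hμ : ∀ y : K B, ∃ m : K B →₀ ℝ, ∀ f : K B → ℝ, Continuous f → T (f, 0) y = ip m f := by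
    intro y
    apply exists_row hB (φ := fun f => T (f, 0) y)
    · intro a f g hf hg
      have h8 := h5 a (f, 0) (g, 0) hf hg
      have h9 : a • ((f, 0) : (K B → ℝ) × ℝ) + (g, 0) = (a • f + g, 0) := by
        ext <;> simp
      rw [h9] at h8
      show T (a • f + g, 0) y = _
      rw [h8]
      rfl
    · have h8 : ContinuousOn (fun f : K B → ℝ => T (f, (0 : ℝ))) {f : K B → ℝ | Continuous f} := by
        refine h6.comp ?_ fun f hf => hf
        exact (continuous_id.prodMk continuous_const).continuousOn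
      exact (continuous_apply y).comp_continuousOn h8
  have hν : ∀ y : K B, ∃ m : K B →₀ ℝ, ∀ f : K B → ℝ, Continuous f → (S f).1 y = ip m f := by
    intro y
    apply exists_row hB (φ := fun f => (S f).1 y)
    · intro a f g hf hg
      show (S (a • f + g)).1 y = _
      rw [hSlin a f g hf hg]
      rfl
    · exact (continuous_apply y).comp_continuousOn (continuous_fst.comp_continuousOn h7)
  obtain ⟨s, hs⟩ : ∃ m : K B →₀ ℝ, ∀ f : K B → ℝ, Continuous f → (S f).2 = ip m f := by
    apply exists_row hB (φ := fun f => (S f).2)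
    · intro a f g hf hg
      show (S (a • f + g)).2 = _
      rw [hSlin a f g hf hg]
      rfl
    · exact continuous_snd.comp_continuousOn h7
  choose μ hμ using hμ
  choose ν hν using hν
  set g : K B → ℝ := T (0, 1) with hg
  have c0 : Continuous (0 : K B → ℝ) := continuous_const
  -- identities for continuous functions
  have e1 : ∀ f : K B → ℝ, Continuous f → ∀ y, ip (ν y) (fun x => ip (μ x) f) = f y := by
    intro f hf y
    have h8 : (fun x => ip (μ x) f) = T (f, 0) := by
      funext x; rw [hμ x f hf]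
    rw [h8, ← hν y _ (h1 _ hf), h3 (f, 0) hf]
  have e2 : ∀ f : K B → ℝ, Continuous f → ∀ y,
      ip (μ y) (fun x => ip (ν x) f) = f y - ip s f * g y := by
    intro f hf y
    have h8 : (fun x => ip (ν x) f) = (S f).1 := by
      funext x; rw [hν x f hf]
    rw [h8, ← hμ y _ (h2 f hf), ← hs f hf]
    have h9 : S f = (S f).2 • ((0, 1) : (K B → ℝ) × ℝ) + ((S f).1, 0) := by
      ext <;> simp
    have h10 := h5 (S f).2 (0, 1) ((S f).1, 0) c0 (h2 f hf)
    rw [← h9, h4 f hf] at h10
    have h11 := congrFun h10 y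
    rw [Pi.add_apply, Pi.smul_apply, smul_eq_mul, ← hg] at h11
    rw [h11]
    ring
  refine ⟨⟨μ, ν, s, g, ?_, ?_, h1 _ c0, ?_, ?_, ?_, ?_⟩⟩
  · intro f hf
    have h8 : (fun x => ip (μ x) f) = T (f, 0) := by
      funext x; rw [hμ x f hf]
    rw [h8]
    exact h1 _ hf
  · intro f hf
    have h8 : (fun x => ip (ν x) f) = (S f).1 := by
      funext x; rw [hν x f hf]
    rw [h8]
    exact h2 f hf
  · intro f y
    obtain ⟨f', hf', hfZ⟩ := exists_interp' hB
      (Z := insert y (⋃ x ∈ (ν y).support, ((μ x).support : Set (K B))))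
      ((Set.Finite.biUnion (ν y).support.finite_toSet fun x _ =>
        (μ x).support.finite_toSet).insert y) f
    rw [← hfZ y (mem_insert _ _), ← e1 f' hf' y]
    apply ip_congr
    intro x hx
    apply ip_congr
    intro z hz
    exact (hfZ z (mem_insert_of_mem _ (mem_biUnion hx hz))).symm
  · intro f y
    obtain ⟨f', hf', hfZ⟩ := exists_interp' hB
      (Z := insert y ((s.support : Set (K B)) ∪
        ⋃ x ∈ (μ y).support, ((ν x).support : Set (K B))))
      (((Set.Finite.union s.support.finite_toSet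
        (Set.Finite.biUnion (μ y).support.finite_toSet fun x _ =>
        (ν x).support.finite_toSet))).insert y) f
    rw [← hfZ y (mem_insert _ _)]
    have h8 : ip s f = ip s f' := ip_congr fun x hx =>
      (hfZ x (mem_insert_of_mem _ (Or.inl hx))).symm
    rw [h8, ← e2 f' hf' y]
    apply ip_congr
    intro x hx
    apply ip_congr
    intro z hz
    exact (hfZ z (mem_insert_of_mem _ (Or.inr (mem_biUnion hx hz)))).symm
  · intro y
    rw [← hν y g (h1 _ c0), hg, h3 (0, 1) c0]
    rfl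
  · rw [← hs g (h1 _ c0), hg, h3 (0, 1) c0]

end Pool.Agent.Work.MP_e5cb06_gt
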