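import Pool.Agent.Work.MP_e5cb06_gt.Space

/-!
# Equivariant choice of ultrafilters, `K ⊕ K ≃ₜ K`, interpolation
-/

set_option autoImplicit false

open Set Filter Topology

namespace Pool.Agent.Work.MP_e5cb06_gt

open Dyn

variable {B : Set (Set ℕ)} [hB : Fact (Closed B)]

theorem range_ap_mem (u : List Bool) : range (ap u : ℕ → ℕ) ∈ B := by
  rw [← image_univ]
  exact hB.out.ap_im hB.out.univ u

/-- going up and down again does not change an ultrafilter converging to a point -/
theorem map_up_down {V : Ultrafilter ℕ} {k : ℕ} {s : List Bool} (hs : s.length = k)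
    (h : ap s (σ^[k] (tr B V)) = tr B V) : (V.map σ^[k]).map (ap s) = V := by
  have h1 : range (ap s : ℕ → ℕ) ∈ V := by
    have h2 : tr B V ∈ star B (range (ap s : ℕ → ℕ)) := by
      rw [← h, σ_iter_tr, ap_tr, tr_mem_star (range_ap_mem s)]
      show (ap s : ℕ → ℕ) ⁻¹' range (ap s) ∈ V.map σ^[k]
      exact Filter.univ_mem' fun n => ⟨n, rfl⟩
    rwa [tr_mem_star (range_ap_mem s)] at h2
  rw [Ultrafilter.map_map]
  refine map_eq_self h1 ?_
  rintro _ ⟨n, rfl⟩
  show ap s (σ^[k] (ap s n)) = ap s n
  rw [← hs, σ_iter_ap]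

/-- same tail -/
def tailRel (x y : K B) : Prop := ∃ i j, σ^[i] x = σ^[j] y

theorem tailRel_equiv : Equivalence (tailRel (B := B)) where
  refl x := ⟨0, 0, rfl⟩
  symm := fun ⟨i, j, h⟩ => ⟨j, i, h.symm⟩
  trans := by
    rintro x y z ⟨i, j, h⟩ ⟨i', j', h'⟩
    refine ⟨i' + i, j + j', ?_⟩
    rw [Function.iterate_add_apply, h, ← Function.iterate_add_apply, Nat.add_comm i' j,
      Function.iterate_add_apply, h', ← Function.iterate_add_apply]

/-- the setoid of tail equivalence -/
def tailSetoid (B : Set (Set ℕ)) [Fact (Closed B)] : Setoid (K B) := ⟨tailRel, tailRel_equiv⟩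

/-- representative of the tail class -/
noncomputable def rep (x : K B) : K B := (Quotient.mk (tailSetoid B) x).out

theorem rep_rel (x : K B) : tailRel x (rep x) :=
  tailRel_equiv.symm (Quotient.mk_out (s := tailSetoid B) x)

theorem rep_e (b : Bool) (x : K B) : rep (e b x) = rep x := by
  have h1 : Quotient.mk (tailSetoid B) (e b x) = Quotient.mk (tailSetoid B) x :=
    Quotient.sound (s := tailSetoid B) ⟨1, 0, σ_e b x⟩
  rw [rep, h1, rep]

theorem sect_unique {x y : K B} (hx : x ∈ bd B) {V : Ultrafilter ℕ} (hV : tr B V = y)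
    {i j i' j' : ℕ} {t t' : List Bool} (h : σ^[i] x = σ^[j] y) (h' : σ^[i'] x = σ^[j'] y)
    (ht : t.length = i) (ht' : t'.length = i') (htx : ap t (σ^[i] x) = x)
    (htx' : ap t' (σ^[i'] x) = x) :
    (V.map σ^[j]).map (ap t) = (V.map σ^[j']).map (ap t') := by
  -- symmetric in the two data
  suffices H : ∀ {i j i' j' : ℕ} {t t' : List Bool}, σ^[i] x = σ^[j] y → σ^[i'] x = σ^[j'] y →
      t.length = i → t'.length = i' → ap t (σ^[i] x) = x → ap t' (σ^[i'] x) = x → i ≤ i' →
      (V.map σ^[j]).map (ap t) = (V.map σ^[j']).map (ap t') by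
    rcases le_total i i' with hle | hle
    · exact H h h' ht ht' htx htx' hle
    · exact (H h' h ht' ht htx' htx hle).symm
  clear h h' ht ht' htx htx' i j i' j' t t'
  intro i j i' j' t t' h h' ht ht' htx htx' hle
  obtain ⟨k, rfl⟩ := Nat.exists_eq_add_of_le hle
  have hy : y ∈ bd B := by
    rw [← σ_iter_mem_bd (k := j), ← h, σ_iter_mem_bd]
    exact hx
  have h1 : σ^[j'] y = σ^[k + j] y := by
    rw [← h', Nat.add_comm i k, Function.iterate_add_apply, h, ← Function.iterate_add_apply]
  have h2 : j' = k + j := σ_aperiodic hy h1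
  subst h2
  set z := σ^[i] x with hz
  obtain ⟨s, hs, hsz⟩ := exists_ap k z
  have h3 : σ^[i + k] x = σ^[k] z := by rw [Nat.add_comm i k, Function.iterate_add_apply]
  have h4 : ap (s ++ t) (σ^[i + k] x) = x := by rw [h3, ap_append, hsz, htx]
  have h5 : s ++ t = t' := by
    have h6 : (s ++ t).length = t'.length := by rw [List.length_append]; omega
    exact (ap_injective_of_length h6 (h4.trans htx'.symm)).1
  rw [← h5]
  have h6 : tr B (V.map σ^[j]) = z := by
    rw [← σ_iter_tr, hV, h]
  have h7 := map_up_down (B := B) (V := V.map σ^[j]) hs (by rw [h6]; exact hsz)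
  have h8 : (V.map σ^[k + j]).map (ap (s ++ t)) = (((V.map σ^[j]).map σ^[k]).map (ap s)).map
      (ap t) := by
    rw [Ultrafilter.map_map, Ultrafilter.map_map, Ultrafilter.map_map, Ultrafilter.map_map]
    congr 1
    funext n
    simp only [Function.comp_apply]
    rw [ap_append, Function.iterate_add_apply]
  rw [h8, h7]

/-- **Equivariant choice of ultrafilters.** -/
theorem exists_sect (B : Set (Set ℕ)) [Fact (Closed B)] :
    ∃ s : K B → Ultrafilter ℕ, (∀ x, tr B (s x) = x) ∧
      (∀ b x, s (e b x) = (s x).map (e b)) ∧ ∀ n, s (pt B n) = pure n := by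
  classical
  choose V hV using fun x : K B => exists_tr x
  choose i j hij using fun x : K B => rep_rel x
  choose t ht htx using fun x : K B => exists_ap (i x) x
  let s : K B → Ultrafilter ℕ := fun x =>
    if h : ∃ n, pt B n = x then pure h.choose
    else ((V (rep x)).map σ^[j x]).map (ap (t x))
  have hpt : ∀ n, s (pt B n) = pure n := by
    intro n
    have h : ∃ m, pt B m = pt B n := ⟨n, rfl⟩
    simp only [s, dif_pos h]
    rw [pt_injective (Fact.out : Closed B) h.choose_spec]
  have hbd : ∀ x ∈ bd B, s x = ((V (rep x)).map σ^[j x]).map (ap (t x)) := by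
    intro x hx
    have h : ¬ ∃ n, pt B n = x := hx
    simp only [s, dif_neg h]
  refine ⟨s, ?_, ?_, hpt⟩
  · intro x
    by_cases hx : x ∈ bd B
    · rw [hbd x hx, ← ap_tr, ← σ_iter_tr, hV, ← hij x, htx]
    · have h : ∃ n, pt B n = x := by simpa [bd] using hx
      obtain ⟨n, rfl⟩ := h
      rw [hpt]
      rfl
  · intro b x
    by_cases hx : x ∈ bd B
    · rw [hbd x hx, hbd _ (e_mem_bd.2 hx), rep_e, Ultrafilter.map_map ((V (rep x)).map σ^[j x])]
      have h1 := sect_unique (B := B) (e_mem_bd (b := b).2 hx) (hV (rep x))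
        (i := i (e b x)) (j := j (e b x)) (i' := i x + 1) (j' := j x)
        (t := t (e b x)) (t' := t x ++ [b]) (by rw [hij, rep_e])
        (by rw [Function.iterate_succ_apply, σ_e, hij]) (ht _)
        (by rw [List.length_append, ht]; rfl) (htx _)
        (by rw [ap_append, Function.iterate_succ_apply, σ_e, htx]; rfl)
      rw [h1]
      congr 1
      funext n
      simp only [Function.comp_apply]
      rw [ap_append]
      rfl
    · have h : ∃ n, pt B n = x := by simpa [bd] using hx
      obtain ⟨n, rfl⟩ := h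
      rw [e_pt, hpt, hpt, Ultrafilter.map_pure]

/-! ### The homeomorphism -/

theorem bijective_sum : Function.Bijective (Sum.elim (e false) (e true) : K B ⊕ K B → K B) := by
  constructor
  · rintro (x | x) (y | y) h
    · exact congrArg _ (e_injective false h)
    · exact absurd h (disj x y)
    · exact absurd h.symm (disj y x)
    · exact congrArg _ (e_injective true h)
  · intro x
    obtain ⟨b, hb⟩ := surj x
    cases b
    · exact ⟨Sum.inl _, hb⟩
    · exact ⟨Sum.inr _, hb⟩

/-- `K ⊕ K` is homeomorphic to `K` -/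
noncomputable def sumHomeo : K B ⊕ K B ≃ₜ K B :=
  Continuous.homeoOfEquivCompactToT2 (f := Equiv.ofBijective _ bijective_sum)
    ((continuous_e false).sumElim (continuous_e true))

/-! ### Interpolation -/

omit hB in
open Classical in
/-- a function on a finite set can be interpolated by a continuous function with the same bound -/
theorem exists_interp (hB : Closed B) {Z : Set (K B)} (hZ : Z.Finite) (f : K B → ℝ) {M : ℝ}
    (hM : 0 ≤ M) (hf : ∀ x ∈ Z, |f x| ≤ M) :
    ∃ g : K B → ℝ, Continuous g ∧ (∀ x ∈ Z, g x = f x) ∧ ∀ x, |g x| ≤ M := by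
  induction Z, hZ using Set.Finite.induction_on with
  | empty => exact ⟨fun _ => 0, continuous_const, by simp, fun _ => by rw [abs_zero]; exact hM⟩
  | @insert a Z ha hZ ih =>
    obtain ⟨g, hg, hgZ, hgM⟩ := ih fun x hx => hf x (mem_insert_of_mem _ hx)
    obtain ⟨A, hA, haA, hAZ⟩ := exists_star hB hZ.isClosed.isOpen_compl (show a ∈ Zᶜ from ha)
    refine ⟨(star B A).piecewise (fun _ => f a) g, ?_, ?_, ?_⟩
    · exact continuous_const.piecewise (by
        rw [(isClopen_star hA).frontier_eq]; simp) hg
    · intro x hx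
      rcases hx with rfl | hx
      · rw [piecewise_eq_of_mem _ _ _ haA]
      · rw [piecewise_eq_of_notMem _ _ _ fun h => hAZ h hx]
        exact hgZ x hx
    · intro x
      by_cases hx : x ∈ star B A
      · rw [piecewise_eq_of_mem _ _ _ hx]
        exact hf a (mem_insert _ _)
      · rw [piecewise_eq_of_notMem _ _ _ hx]
        exact hgM x

omit hB in
theorem exists_interp' (hB : Closed B) {Z : Set (K B)} (hZ : Z.Finite) (f : K B → ℝ) :
    ∃ g : K B → ℝ, Continuous g ∧ ∀ x ∈ Z, g x = f x := by
  obtain ⟨g, h1, h2, -⟩ := exists_interp hB hZ f (M := ∑ x ∈ hZ.toFinset, |f x|)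
    (Finset.sum_nonneg fun _ _ => abs_nonneg _) (fun x hx =>
      Finset.single_le_sum (f := fun x => |f x|) (fun _ _ => abs_nonneg _)
        ((Set.Finite.mem_toFinset _).2 hx))
  exact ⟨g, h1, h2⟩

end Pool.Agent.Work.MP_e5cb06_gt
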