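import Pool.Agent.Work.MP_e5cb06_gt.Gen

/-!
# The Stone space of a closed algebra of subsets of `ℕ`
-/

set_option autoImplicit false

open Set Filter Topology

namespace Pool.Agent.Work.MP_e5cb06_gt

open Dyn

open Classical in
/-- trace of an ultrafilter on a family of sets -/
noncomputable def trf (B : Set (Set ℕ)) (V : Ultrafilter ℕ) : B → Bool := fun s => decide (s.1 ∈ V)

theorem continuous_trf (B : Set (Set ℕ)) : Continuous (trf B) := by
  classical
  refine continuous_pi fun s => ?_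
  rw [continuous_discrete_rng]
  intro b
  cases b
  · have : (fun V => trf B V s) ⁻¹' {false} = {V | s.1 ∈ V}ᶜ := by
      ext V; simp [trf]
    rw [this]
    exact (ultrafilter_isClosed_basic s.1).isOpen_compl
  · have : (fun V => trf B V s) ⁻¹' {true} = {V | s.1 ∈ V} := by
      ext V; simp [trf]
    rw [this]
    exact ultrafilter_isOpen_basic s.1

/-- the Stone space -/
def K (B : Set (Set ℕ)) : Type := ↥(range (trf B))

instance (B : Set (Set ℕ)) : TopologicalSpace (K B) := inferInstanceAs (TopologicalSpace ↥(range _))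

instance (B : Set (Set ℕ)) : CompactSpace (K B) :=
  isCompact_iff_compactSpace.1 (isCompact_range (continuous_trf B))

instance (B : Set (Set ℕ)) : T2Space (K B) := inferInstanceAs (T2Space ↥(range _))

/-- the point defined by an ultrafilter -/
noncomputable def tr (B : Set (Set ℕ)) (V : Ultrafilter ℕ) : K B := ⟨trf B V, V, rfl⟩

theorem exists_tr {B : Set (Set ℕ)} (x : K B) : ∃ V, tr B V = x := by
  obtain ⟨x, V, rfl⟩ := x
  exact ⟨V, rfl⟩

/-- clopen set defined by a subset of `ℕ` -/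
def star (B : Set (Set ℕ)) (A : Set ℕ) : Set (K B) := {x | ∃ h : A ∈ B, x.1 ⟨A, h⟩ = true}

section

variable {B : Set (Set ℕ)}

theorem tr_mem_star {A : Set ℕ} (hA : A ∈ B) (V : Ultrafilter ℕ) : tr B V ∈ star B A ↔ A ∈ V := by
  classical
  constructor
  · rintro ⟨h, h1⟩
    simpa [tr, trf] using h1
  · intro h
    exact ⟨hA, by simpa [tr, trf] using h⟩

theorem K_ext {x y : K B} (h : ∀ A ∈ B, x ∈ star B A ↔ y ∈ star B A) : x = y := by
  apply Subtype.ext
  funext s
  have h1 := h s.1 s.2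
  have hx : x ∈ star B s.1 ↔ x.1 s = true := ⟨fun ⟨_, h⟩ => h, fun h => ⟨s.2, h⟩⟩
  have hy : y ∈ star B s.1 ↔ y.1 s = true := ⟨fun ⟨_, h⟩ => h, fun h => ⟨s.2, h⟩⟩
  rw [hx, hy] at h1
  cases h2 : x.1 s <;> cases h3 : y.1 s <;> simp_all

theorem continuous_val (s : B) : Continuous fun x : K B => x.1 s :=
  (continuous_apply s).comp (continuous_subtype_val : Continuous
    (Subtype.val : ↥(range (trf B)) → (B → Bool)))

theorem isClopen_star {A : Set ℕ} (hA : A ∈ B) : IsClopen (star B A) := by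
  have h1 : star B A = (fun x : K B => x.1 ⟨A, hA⟩) ⁻¹' {true} := by
    ext x
    exact ⟨fun ⟨_, h⟩ => h, fun h => ⟨hA, h⟩⟩
  rw [h1]
  exact (isClopen_discrete _).preimage (continuous_val _)

variable (hB : Closed B)

include hB

theorem star_compl {A : Set ℕ} (hA : A ∈ B) : star B Aᶜ = (star B A)ᶜ := by
  ext x
  obtain ⟨V, rfl⟩ := exists_tr x
  rw [tr_mem_star (hB.compl hA), mem_compl_iff, tr_mem_star hA, Ultrafilter.compl_mem_iff_notMem]

theorem star_inter {A A' : Set ℕ} (hA : A ∈ B) (hA' : A' ∈ B) :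
    star B (A ∩ A') = star B A ∩ star B A' := by
  ext x
  obtain ⟨V, rfl⟩ := exists_tr x
  rw [mem_inter_iff, tr_mem_star (hB.inter hA hA'), tr_mem_star hA, tr_mem_star hA']
  exact Filter.inter_mem_iff (f := (V : Filter ℕ))

theorem star_union {A A' : Set ℕ} (hA : A ∈ B) (hA' : A' ∈ B) :
    star B (A ∪ A') = star B A ∪ star B A' := by
  ext x
  obtain ⟨V, rfl⟩ := exists_tr x
  rw [mem_union, tr_mem_star (hB.union hA hA'), tr_mem_star hA, tr_mem_star hA',
    Ultrafilter.union_mem_iff]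

theorem star_univ : star B univ = univ := by
  ext x
  obtain ⟨V, rfl⟩ := exists_tr x
  rw [tr_mem_star hB.univ]
  exact ⟨fun _ => trivial, fun _ => Filter.univ_mem⟩

theorem star_empty : star B ∅ = ∅ := by
  have h1 := star_compl hB hB.univ
  rwa [star_univ hB, compl_univ, compl_univ] at h1

omit hB in
theorem star_mono {A A' : Set ℕ} (hA : A ∈ B) (hA' : A' ∈ B) (h : A ⊆ A') :
    star B A ⊆ star B A' := by
  intro x hx
  obtain ⟨V, rfl⟩ := exists_tr x
  rw [tr_mem_star hA] at hx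
  rw [tr_mem_star hA']
  exact mem_of_superset hx h

theorem star_biUnion {ι : Type*} {s : Set ι} (hs : s.Finite) {f : ι → Set ℕ}
    (hf : ∀ i ∈ s, f i ∈ B) : star B (⋃ i ∈ s, f i) = ⋃ i ∈ s, star B (f i) := by
  induction s, hs using Set.Finite.induction_on with
  | empty => simp [star_empty hB]
  | @insert a s _ hs ih =>
    rw [biUnion_insert, biUnion_insert, star_union hB (hf _ (mem_insert _ _))
      (hB.biUnion hs fun i hi => hf i (mem_insert_of_mem _ hi)),
      ih fun i hi => hf i (mem_insert_of_mem _ hi)]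

theorem exists_star {O : Set (K B)} (hO : IsOpen O) {x : K B} (hx : x ∈ O) :
    ∃ A ∈ B, x ∈ star B A ∧ star B A ⊆ O := by
  obtain ⟨O', hO', rfl⟩ := isOpen_induced_iff.1 hO
  obtain ⟨I, u, hu, huO⟩ := isOpen_pi_iff.1 hO' x.1 hx
  -- intersect finitely many clopen sets
  have key : ∀ J : Finset B, ∃ A ∈ B, x ∈ star B A ∧ ∀ y ∈ star B A, ∀ s ∈ J, y.1 s = x.1 s := by
    classical
    intro J
    induction J using Finset.induction_on with
    | empty => exact ⟨univ, hB.univ, by rw [star_univ hB]; trivial, by simp⟩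
    | insert s J hs ih =>
      obtain ⟨A, hA, hxA, hAJ⟩ := ih
      have hmem : ∀ y : K B, y ∈ star B s.1 ↔ y.1 s = true := fun y =>
        ⟨fun ⟨_, h⟩ => h, fun h => ⟨s.2, h⟩⟩
      by_cases hxs : x ∈ star B s.1
      · refine ⟨A ∩ s.1, hB.inter hA s.2, ?_, ?_⟩
        · rw [star_inter hB hA s.2]; exact ⟨hxA, hxs⟩
        · intro y hy t ht
          rw [star_inter hB hA s.2] at hy
          rcases Finset.mem_insert.1 ht with rfl | ht
          · rw [(hmem y).1 hy.2, (hmem x).1 hxs]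
          · exact hAJ y hy.1 t ht
      · refine ⟨A ∩ s.1ᶜ, hB.inter hA (hB.compl s.2), ?_, ?_⟩
        · rw [star_inter hB hA (hB.compl s.2), star_compl hB s.2]; exact ⟨hxA, hxs⟩
        · intro y hy t ht
          rw [star_inter hB hA (hB.compl s.2), star_compl hB s.2] at hy
          rcases Finset.mem_insert.1 ht with rfl | ht
          · have h1 := hy.2
            rw [mem_compl_iff, hmem] at h1
            rw [hmem] at hxs
            simp only [Bool.not_eq_true] at h1 hxs
            rw [h1, hxs]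
          · exact hAJ y hy.1 t ht
  obtain ⟨A, hA, hxA, hAI⟩ := key I
  refine ⟨A, hA, hxA, fun y hy => huO ?_⟩
  intro s hs
  rw [hAI y hy s hs]
  exact (hu s hs).2

theorem exists_star_of_isCompact {C O : Set (K B)} (hC : IsCompact C) (hO : IsOpen O)
    (hCO : C ⊆ O) : ∃ A ∈ B, C ⊆ star B A ∧ star B A ⊆ O := by
  refine hC.induction_on (p := fun C => ∃ A ∈ B, C ⊆ star B A ∧ star B A ⊆ O) ?_ ?_ ?_ ?_
  · exact ⟨∅, hB.empty, empty_subset _, by rw [star_empty hB]; exact empty_subset _⟩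
  · rintro s t hst ⟨A, hA, h1, h2⟩
    exact ⟨A, hA, hst.trans h1, h2⟩
  · rintro s t ⟨A, hA, h1, h2⟩ ⟨A', hA', h1', h2'⟩
    refine ⟨A ∪ A', hB.union hA hA', ?_, ?_⟩
    · rw [star_union hB hA hA']; exact union_subset_union h1 h1'
    · rw [star_union hB hA hA']; exact union_subset h2 h2'
  · intro x hx
    obtain ⟨A, hA, h1, h2⟩ := exists_star hB hO (hCO hx)
    exact ⟨star B A, mem_nhdsWithin_of_mem_nhds ((isClopen_star hA).isOpen.mem_nhds h1),
      A, hA, Subset.rfl, h2⟩

theorem exists_star_of_finite {C O : Set (K B)} (hC : C.Finite) (hO : IsOpen O)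
    (hCO : C ⊆ O) : ∃ A ∈ B, C ⊆ star B A ∧ star B A ⊆ O :=
  exists_star_of_isCompact hB hC.isCompact hO hCO

end

/-- the point of `K` corresponding to a natural number -/
noncomputable def pt (B : Set (Set ℕ)) (n : ℕ) : K B := tr B (pure n)

section

variable {B : Set (Set ℕ)}

theorem pt_mem_star {A : Set ℕ} (hA : A ∈ B) (n : ℕ) : pt B n ∈ star B A ↔ n ∈ A := by
  rw [pt, tr_mem_star hA, Ultrafilter.mem_pure]

variable (hB : Closed B)

include hB

theorem star_singleton (n : ℕ) : star B {n} = {pt B n} := by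
  apply Subset.antisymm
  · intro x hx
    obtain ⟨V, rfl⟩ := exists_tr x
    rw [tr_mem_star (hB.atom n)] at hx
    obtain ⟨m, hm, hV⟩ := Ultrafilter.eq_pure_of_finite_mem (finite_singleton n) hx
    rw [hV, mem_singleton_iff.1 hm]
    rfl
  · rintro x rfl
    rw [pt_mem_star (hB.atom n)]
    rfl

theorem pt_injective : Function.Injective (pt B) := by
  intro m n h
  have h1 : pt B m ∈ star B {n} := by rw [star_singleton hB, h]; rfl
  rw [pt_mem_star (hB.atom n)] at h1
  exact h1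

theorem denseRange_pt : DenseRange (pt B) := by
  rw [DenseRange, dense_iff_inter_open]
  rintro O hO ⟨x, hx⟩
  obtain ⟨A, hA, h1, h2⟩ := exists_star hB hO hx
  have hne : A.Nonempty := by
    rw [nonempty_iff_ne_empty]
    rintro rfl
    rw [star_empty hB] at h1
    exact h1
  obtain ⟨n, hn⟩ := hne
  exact ⟨pt B n, h2 ((pt_mem_star hA n).2 hn), n, rfl⟩

end

/-! ### Dynamics on the Stone space -/

section

variable {B : Set (Set ℕ)} [hB : Fact (Closed B)]

/-- the map of `K` induced by a map of `ℕ` -/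
def kmap (f : ℕ → ℕ) (hf : ∀ A ∈ B, f ⁻¹' A ∈ B) (x : K B) : K B :=
  ⟨fun s => x.1 ⟨f ⁻¹' s.1, hf s.1 s.2⟩, by
    obtain ⟨V, hV⟩ := x.2
    refine ⟨V.map f, ?_⟩
    funext s
    rw [← hV]
    rfl⟩

omit hB in
theorem kmap_tr (f : ℕ → ℕ) (hf : ∀ A ∈ B, f ⁻¹' A ∈ B) (V : Ultrafilter ℕ) :
    kmap f hf (tr B V) = tr B (V.map f) := rfl

omit hB in
theorem continuous_kmap (f : ℕ → ℕ) (hf : ∀ A ∈ B, f ⁻¹' A ∈ B) : Continuous (kmap f hf) :=
  Continuous.subtype_mk (continuous_pi fun _ => continuous_val _) _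

omit hB in
theorem kmap_mem_star (f : ℕ → ℕ) (hf : ∀ A ∈ B, f ⁻¹' A ∈ B) {A : Set ℕ} (hA : A ∈ B) (x : K B) :
    kmap f hf x ∈ star B A ↔ x ∈ star B (f ⁻¹' A) := by
  obtain ⟨V, rfl⟩ := exists_tr x
  rw [kmap_tr, tr_mem_star hA, tr_mem_star (hf A hA)]
  rfl

theorem map_eq_self {V : Ultrafilter ℕ} {f : ℕ → ℕ} {A : Set ℕ} (hA : A ∈ V)
    (hf : ∀ n ∈ A, f n = n) : V.map f = V := by
  apply Ultrafilter.coe_injective
  rw [Ultrafilter.coe_map]
  have h1 : f =ᶠ[(V : Filter ℕ)] id := by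
    filter_upwards [hA] with n hn
    exact hf n hn
  rw [Filter.map_congr h1, Filter.map_id]

/-- the range of `e b` on `ℕ` -/
theorem range_e_mem (b : Bool) : range (e b : ℕ → ℕ) ∈ B := by
  rw [← image_univ]
  exact hB.out.im b hB.out.univ

noncomputable instance : Dyn (K B) where
  e b := kmap (e b) fun _ hA => hB.out.pre b hA
  σ := kmap σ fun _ hA => hB.out.σ_pre hA
  σ_e b x := by
    obtain ⟨V, rfl⟩ := exists_tr x
    rw [kmap_tr, kmap_tr, Ultrafilter.map_map]
    congr 1
    exact map_eq_self (A := univ) Filter.univ_mem fun n _ => σ_e b n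
  surj x := by
    obtain ⟨V, rfl⟩ := exists_tr x
    have h1 : range (e false : ℕ → ℕ) ∪ range (e true) ∈ V := by
      have : range (e false : ℕ → ℕ) ∪ range (e true) = univ := by
        ext n
        obtain ⟨b, hb⟩ := surj n
        cases b
        · exact ⟨fun _ => trivial, fun _ => Or.inl ⟨_, hb⟩⟩
        · exact ⟨fun _ => trivial, fun _ => Or.inr ⟨_, hb⟩⟩
      rw [this]
      exact Filter.univ_mem
    rw [Ultrafilter.union_mem_iff] at h1
    have key : ∀ b : Bool, range (e b : ℕ → ℕ) ∈ V →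
        kmap (e b) (fun _ hA => hB.out.pre b hA) (kmap σ (fun _ hA => hB.out.σ_pre hA) (tr B V)) =
          tr B V := by
      intro b hb
      rw [kmap_tr, kmap_tr, Ultrafilter.map_map]
      congr 1
      refine map_eq_self hb ?_
      rintro _ ⟨m, rfl⟩
      show e b (σ (e b m)) = e b m
      rw [σ_e]
    rcases h1 with h1 | h1
    · exact ⟨false, key false h1⟩
    · exact ⟨true, key true h1⟩
  disj x y := by
    obtain ⟨V, rfl⟩ := exists_tr x
    obtain ⟨V', rfl⟩ := exists_tr y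
    intro h
    have h1 : tr B (V.map (e false)) ∈ star B (range (e false : ℕ → ℕ)) := by
      rw [tr_mem_star (range_e_mem false)]
      show (e false : ℕ → ℕ) ⁻¹' range (e false) ∈ V
      exact Filter.univ_mem' fun n => ⟨n, rfl⟩
    have h2 : tr B (V.map (e false)) = tr B (V'.map (e true)) := h
    rw [h2, tr_mem_star (range_e_mem false)] at h1
    have h3 : (e true : ℕ → ℕ) ⁻¹' range (e false) = ∅ := by
      ext n
      simp only [mem_preimage, mem_range, mem_empty_iff_false, iff_false, not_exists]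
      intro m hm
      exact disj m n hm
    have h4 : (e true : ℕ → ℕ) ⁻¹' range (e false) ∈ V' := h1
    rw [h3] at h4
    exact Ultrafilter.empty_notMem h4

theorem e_tr (b : Bool) (V : Ultrafilter ℕ) : e b (tr B V) = tr B (V.map (e b)) := rfl

theorem σ_tr (V : Ultrafilter ℕ) : σ (tr B V) = tr B (V.map σ) := rfl

theorem ap_tr (u : List Bool) (V : Ultrafilter ℕ) : ap u (tr B V) = tr B (V.map (ap u)) := by
  induction u generalizing V with
  | nil =>
    rw [ap_nil]
    exact congrArg _ (map_eq_self (A := univ) Filter.univ_mem fun n _ => rfl).symm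
  | cons b u ih =>
    rw [ap_cons, e_tr, ih, Ultrafilter.map_map]
    rfl

theorem σ_iter_tr (k : ℕ) (V : Ultrafilter ℕ) : σ^[k] (tr B V) = tr B (V.map σ^[k]) := by
  induction k generalizing V with
  | zero =>
    show tr B V = _
    exact congrArg _ (map_eq_self (A := univ) Filter.univ_mem fun n _ => rfl).symm
  | succ k ih =>
    rw [Function.iterate_succ_apply, σ_tr, ih, Ultrafilter.map_map]
    rfl

theorem e_pt (b : Bool) (n : ℕ) : e b (pt B n) = pt B (e b n) := by
  rw [pt, e_tr, Ultrafilter.map_pure]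
  rfl

theorem σ_pt (n : ℕ) : σ (pt B n) = pt B (σ n) := by
  rw [pt, σ_tr, Ultrafilter.map_pure]
  rfl

theorem ap_pt (u : List Bool) (n : ℕ) : ap u (pt B n) = pt B (ap u n) := by
  rw [pt, ap_tr, Ultrafilter.map_pure]
  rfl

theorem σ_iter_pt (k n : ℕ) : σ^[k] (pt B n) = pt B (σ^[k] n) := by
  rw [pt, σ_iter_tr, Ultrafilter.map_pure]
  rfl

theorem continuous_e (b : Bool) : Continuous (e b : K B → K B) := continuous_kmap _ _

theorem continuous_σ : Continuous (σ : K B → K B) := continuous_kmap _ _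

theorem continuous_ap (u : List Bool) : Continuous (ap u : K B → K B) := by
  induction u with
  | nil => exact continuous_id
  | cons b u ih => exact ih.comp (continuous_e b)

theorem continuous_σ_iter (k : ℕ) : Continuous (σ^[k] : K B → K B) :=
  Continuous.iterate continuous_σ k

theorem e_mem_star {b : Bool} {A : Set ℕ} (hA : A ∈ B) (x : K B) :
    e b x ∈ star B A ↔ x ∈ star B (e b ⁻¹' A) := kmap_mem_star _ _ hA x

/-- the boundary -/
def bd (B : Set (Set ℕ)) : Set (K B) := (range (pt B))ᶜ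

theorem e_mem_bd {b : Bool} {x : K B} : e b x ∈ bd B ↔ x ∈ bd B := by
  rw [bd, mem_compl_iff, mem_compl_iff, not_iff_not]
  constructor
  · rintro ⟨n, hn⟩
    exact ⟨σ n, by rw [← σ_pt, hn, σ_e]⟩
  · rintro ⟨n, rfl⟩
    exact ⟨e b n, (e_pt b n).symm⟩

theorem ap_mem_bd {u : List Bool} {x : K B} : ap u x ∈ bd B ↔ x ∈ bd B := by
  induction u generalizing x with
  | nil => rfl
  | cons b u ih => rw [ap_cons, ih, e_mem_bd]

theorem σ_mem_bd {x : K B} : σ x ∈ bd B ↔ x ∈ bd B := by
  obtain ⟨b, hb⟩ := surj x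
  rw [← e_mem_bd (b := b), hb]

theorem σ_iter_mem_bd {k : ℕ} {x : K B} : σ^[k] x ∈ bd B ↔ x ∈ bd B := by
  induction k generalizing x with
  | zero => rfl
  | succ k ih => rw [Function.iterate_succ_apply, ih, σ_mem_bd]

/-- level classes -/
def Lev (m r : ℕ) : Set ℕ := {n | 1 ≤ n ∧ Nat.log 2 n % m = r}

theorem Lev_mem (m r : ℕ) : Lev m r ∈ B := hB.out.lev m r

theorem mem_bd_iff {V : Ultrafilter ℕ} : tr B V ∈ bd B ↔ ∀ n, {n} ∉ V := by
  constructor
  · intro h n hn
    apply h
    obtain ⟨m, hm, hV⟩ := Ultrafilter.eq_pure_of_finite_mem (finite_singleton n) hn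
    exact ⟨m, by rw [hV]; rfl⟩
  · rintro h ⟨n, hn⟩
    have h1 : tr B V ∈ star B {n} := by
      rw [← hn, pt_mem_star (hB.out.atom n)]; rfl
    rw [tr_mem_star (hB.out.atom n)] at h1
    exact h n h1

theorem cofinite_mem {V : Ultrafilter ℕ} (h : tr B V ∈ bd B) {F : Set ℕ} (hF : F.Finite) :
    Fᶜ ∈ V := by
  rw [Ultrafilter.compl_mem_iff_notMem]
  intro h1
  obtain ⟨m, hm, hV⟩ := Ultrafilter.eq_pure_of_finite_mem hF h1
  exact mem_bd_iff.1 h m (by rw [hV]; exact Ultrafilter.mem_pure.2 rfl)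

theorem exists_lev {x : K B} (hx : x ∈ bd B) {m : ℕ} (hm : 1 ≤ m) : ∃ r, x ∈ star B (Lev m r) := by
  obtain ⟨V, rfl⟩ := exists_tr x
  have h1 : (⋃ r ∈ Iio m, Lev m r) ∈ V := by
    have h2 : ({0}ᶜ : Set ℕ) ∈ V := cofinite_mem hx (finite_singleton 0)
    refine Filter.mem_of_superset h2 fun n hn => ?_
    simp only [mem_compl_iff, mem_singleton_iff] at hn
    simp only [mem_iUnion]
    exact ⟨Nat.log 2 n % m, Nat.mod_lt _ hm, by omega, rfl⟩
  have h3 : tr B V ∈ star B (⋃ r ∈ Iio m, Lev m r) := by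
    rw [tr_mem_star (hB.out.biUnion (finite_Iio m) fun r _ => Lev_mem m r)]
    exact h1
  rw [star_biUnion hB.out (finite_Iio m) fun r _ => Lev_mem m r] at h3
  simp only [mem_iUnion] at h3
  obtain ⟨r, -, hr⟩ := h3
  exact ⟨r, hr⟩

theorem lev_unique {x : K B} {m r r' : ℕ} (h : x ∈ star B (Lev m r)) (h' : x ∈ star B (Lev m r')) :
    r = r' := by
  by_contra hne
  have h1 : x ∈ star B (Lev m r ∩ Lev m r') := by
    rw [star_inter hB.out (Lev_mem m r) (Lev_mem m r')]
    exact ⟨h, h'⟩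
  have h2 : Lev m r ∩ Lev m r' = ∅ := by
    ext n
    simp only [Lev, mem_inter_iff, mem_setOf_eq, mem_empty_iff_false, iff_false]
    rintro ⟨⟨_, h3⟩, ⟨_, h4⟩⟩
    exact hne (h3.symm.trans h4)
  rw [h2, star_empty hB.out] at h1
  exact h1

theorem lev_e {x : K B} {m r : ℕ} (h : x ∈ star B (Lev m r)) (b : Bool) :
    e b x ∈ star B (Lev m ((r + 1) % m)) := by
  rw [e_mem_star (Lev_mem _ _)]
  refine star_mono (Lev_mem m r) (hB.out.pre b (Lev_mem _ _)) ?_ h
  rintro n ⟨hn, hr⟩
  refine ⟨by rw [e_nat]; omega, ?_⟩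
  rw [log_e b n hn, ← hr]
  simp

theorem lev_ap {x : K B} {m r : ℕ} (h : x ∈ star B (Lev m r)) (u : List Bool) :
    ∃ r', x ∈ star B (Lev m r) ∧ ap u x ∈ star B (Lev m r') ∧ r' % m = (r + u.length) % m := by
  induction u generalizing x r with
  | nil => exact ⟨r, h, h, rfl⟩
  | cons b u ih =>
    obtain ⟨r', -, h2, h3⟩ := ih (lev_e h b)
    refine ⟨r', h, h2, ?_⟩
    rw [h3, List.length_cons]
    rw [Nat.mod_add_mod]
    congr 1
    omega

/-- freeness on the boundary -/
theorem ap_free {x : K B} (hx : x ∈ bd B) {u v : List Bool} (h : ap u x = ap v x) : u = v := by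
  set m := u.length + v.length + 1 with hm
  obtain ⟨r, hr⟩ := exists_lev hx (m := m) (by omega)
  obtain ⟨r1, -, h1, h1'⟩ := lev_ap hr u
  obtain ⟨r2, -, h2, h2'⟩ := lev_ap hr v
  rw [h] at h1
  have h3 := lev_unique h1 h2
  subst h3
  have h4 : (r + u.length) % m = (r + v.length) % m := h1'.symm.trans h2'
  have h5 : u.length % m = v.length % m := Nat.ModEq.add_left_cancel' r h4
  rw [Nat.mod_eq_of_lt (by omega), Nat.mod_eq_of_lt (by omega)] at h5
  exact (ap_injective_of_length h5 h).1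

theorem σ_aperiodic {x : K B} (hx : x ∈ bd B) {i j : ℕ} (h : σ^[i] x = σ^[j] x) : i = j := by
  obtain ⟨t, ht, htx⟩ := exists_ap i x
  obtain ⟨t', ht', htx'⟩ := exists_ap j x
  rw [h] at htx
  have h1 := ap_free (σ_iter_mem_bd.2 hx) (htx.trans htx'.symm)
  rw [← ht, ← ht', h1]

end

end Pool.Agent.Work.MP_e5cb06_gt
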