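import Mathlib

/-!
# Dynamics of the binary tree and its L-neighbourhoods

A `Dyn X` is a type with two maps `e false, e true : X → X` with disjoint ranges covering `X` and
the common left inverse `σ`.  The basic example is `ℕ` with `e b n = 2 n + b`, `σ n = n / 2`.
-/

set_option autoImplicit false

open Set

namespace Pool.Agent.Work.MP_e5cb06_gt

/-- A type with two injections `e b` with disjoint ranges covering it, and a common left inverse. -/
class Dyn (X : Type) where
  e : Bool → X → X
  σ : X → X
  σ_e : ∀ b x, σ (e b x) = x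
  surj : ∀ x, ∃ b, e b (σ x) = x
  disj : ∀ x y, e false x ≠ e true y

namespace Dyn

variable {X : Type} [Dyn X]

/-- apply the digits of `u` one after the other -/
def ap (u : List Bool) (x : X) : X := u.foldl (fun y b => e b y) x

@[simp] theorem ap_nil (x : X) : ap [] x = x := rfl

@[simp] theorem ap_cons (b : Bool) (u : List Bool) (x : X) : ap (b :: u) x = ap u (e b x) := rfl

theorem ap_append (u v : List Bool) (x : X) : ap (u ++ v) x = ap v (ap u x) := by
  simp [ap, List.foldl_append]

theorem ap_concat (u : List Bool) (b : Bool) (x : X) : ap (u ++ [b]) x = e b (ap u x) := by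
  simp [ap_append]

theorem σ_iter_ap (u : List Bool) (x : X) : σ^[u.length] (ap u x) = x := by
  induction u using List.reverseRecOn with
  | nil => simp
  | append_singleton u b ih =>
    rw [ap_concat, List.length_append, List.length_singleton, Function.iterate_add_apply,
      Function.iterate_one, σ_e, ih]

/-- going up `k ≤ u.length` steps from `ap u x` drops the last `k` digits. -/
theorem σ_iter_ap_le (u : List Bool) (x : X) (k : ℕ) (hk : k ≤ u.length) :
    σ^[k] (ap u x) = ap (u.take (u.length - k)) x := by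
  have h : u = u.take (u.length - k) ++ u.drop (u.length - k) := (List.take_append_drop _ _).symm
  have hl : (u.drop (u.length - k)).length = k := by
    rw [List.length_drop]; omega
  conv_lhs => rw [h, ap_append]
  have := σ_iter_ap (u.drop (u.length - k)) (ap (u.take (u.length - k)) x)
  rw [hl] at this
  exact this

theorem exists_ap (k : ℕ) (x : X) : ∃ u : List Bool, u.length = k ∧ ap u (σ^[k] x) = x := by
  induction k generalizing x with
  | zero => exact ⟨[], rfl, rfl⟩
  | succ k ih =>
    obtain ⟨u, hu, hux⟩ := ih (σ x)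
    obtain ⟨b, hb⟩ := surj x
    refine ⟨u ++ [b], by simp [hu], ?_⟩
    rw [ap_concat, Function.iterate_succ_apply, hux, hb]

theorem e_injective (b : Bool) : Function.Injective (e b : X → X) := fun x y h => by
  have := congrArg σ h
  rwa [σ_e, σ_e] at this

theorem e_eq_iff {b c : Bool} {x y : X} : e b x = e c y ↔ b = c ∧ x = y := by
  constructor
  · intro h
    have hxy : x = y := by
      have := congrArg σ h
      rwa [σ_e, σ_e] at this
    refine ⟨?_, hxy⟩
    cases b <;> cases c
    · rfl
    · exact absurd h (disj x y)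
    · exact absurd h.symm (disj y x)
    · rfl
  · rintro ⟨rfl, rfl⟩; rfl

theorem ap_injective_of_length {u v : List Bool} {x y : X} (hl : u.length = v.length)
    (h : ap u x = ap v y) : u = v ∧ x = y := by
  induction u using List.reverseRecOn generalizing v with
  | nil =>
    have hv : v = [] := by
      have : v.length = 0 := by simpa using hl.symm
      exact List.length_eq_zero_iff.1 this
    subst hv
    exact ⟨rfl, h⟩
  | append_singleton u b ih =>
    rcases List.eq_nil_or_concat v with rfl | ⟨v', c, rfl⟩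
    · simp at hl
    · rw [List.concat_eq_append] at *
      rw [ap_concat, ap_concat, e_eq_iff] at h
      simp only [List.length_append, List.length_singleton, add_left_inj] at hl
      obtain ⟨rfl, rfl⟩ := ih hl h.2
      rw [h.1]
      exact ⟨rfl, rfl⟩

/-- The `L`-neighbourhood of `x`: go up `L` steps, then down at most `2 L` steps. -/
def nbr (L : ℕ) (x : X) : Set X := {y | ∃ u : List Bool, u.length ≤ 2 * L ∧ ap u (σ^[L] x) = y}

theorem nbr_finite (L : ℕ) (x : X) : (nbr L x).Finite := by
  have : (nbr L x) = (fun u : List Bool => ap u (σ^[L] x)) '' {u | u.length ≤ 2 * L} := rfl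
  rw [this]
  apply Set.Finite.image
  exact List.finite_length_le Bool (2 * L)

theorem self_mem_nbr (L : ℕ) (x : X) : x ∈ nbr L x := by
  obtain ⟨u, hu, hux⟩ := exists_ap L x
  exact ⟨u, by omega, hux⟩

theorem nbr_trans {a b : ℕ} {x y z : X} (hy : y ∈ nbr b x) (hz : z ∈ nbr a y) :
    z ∈ nbr (a + b) x := by
  obtain ⟨u, hu, rfl⟩ := hy
  obtain ⟨v, hv, rfl⟩ := hz
  by_cases h : a ≤ u.length
  · rw [σ_iter_ap_le _ _ _ h]
    obtain ⟨t, ht, htx⟩ := exists_ap a (σ^[b] x)
    refine ⟨t ++ (u.take (u.length - a) ++ v), ?_, ?_⟩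
    · simp only [List.length_append, List.length_take]
      omega
    · rw [ap_append, ap_append, Function.iterate_add_apply, htx]
  · push Not at h
    have h1 : σ^[a] (ap u (σ^[b] x)) = σ^[a - u.length] (σ^[b] x) := by
      have : a = (a - u.length) + u.length := by omega
      conv_lhs => rw [this]
      rw [Function.iterate_add_apply, σ_iter_ap]
    rw [h1]
    obtain ⟨t, ht, htx⟩ := exists_ap u.length (σ^[a - u.length] (σ^[b] x))
    refine ⟨t ++ v, ?_, ?_⟩
    · simp only [List.length_append]
      omega
    · rw [ap_append]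
      have h2 : σ^[a + b] x = σ^[u.length] (σ^[a - u.length] (σ^[b] x)) := by
        rw [← Function.iterate_add_apply, ← Function.iterate_add_apply]
        congr 1
        omega
      rw [h2, htx]

theorem nbr_mono {a b : ℕ} (h : a ≤ b) (x : X) : nbr a x ⊆ nbr b x := by
  intro y hy
  have h1 := nbr_trans (self_mem_nbr (b - a) x) hy
  have h2 : a + (b - a) = b := by omega
  rwa [h2] at h1

theorem nbr_symm {L : ℕ} {x y : X} (hy : y ∈ nbr L x) : x ∈ nbr (2 * L) y := by
  obtain ⟨u, hu, rfl⟩ := hy
  obtain ⟨t, ht, htx⟩ := exists_ap L x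
  obtain ⟨v, hv, hvx⟩ := exists_ap (2 * L - u.length) (σ^[u.length] (ap u (σ^[L] x)))
  refine ⟨v ++ t, ?_, ?_⟩
  · simp only [List.length_append]
    omega
  · rw [ap_append]
    have h1 : σ^[2 * L] (ap u (σ^[L] x)) =
        σ^[2 * L - u.length] (σ^[u.length] (ap u (σ^[L] x))) := by
      rw [← Function.iterate_add_apply]
      congr 2
      omega
    rw [h1, hvx, σ_iter_ap, htx]

theorem e_mem_nbr (b : Bool) (x : X) : e b x ∈ nbr 1 x := by
  obtain ⟨c, hc⟩ := surj x
  refine ⟨[c, b], by simp, ?_⟩
  simp [ap, hc]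

theorem σ_mem_nbr (x : X) : σ x ∈ nbr 1 x := ⟨[], by simp, by simp⟩

theorem nbr_e_subset (L : ℕ) (b : Bool) (x : X) : nbr L (e b x) ⊆ nbr (L + 1) x :=
  fun _ hy => nbr_trans (e_mem_nbr b x) hy

theorem nbr_σ_subset (L : ℕ) (x : X) : nbr L (σ x) ⊆ nbr (L + 1) x :=
  fun _ hy => nbr_trans (σ_mem_nbr x) hy

/-- A morphism of dynamics maps neighbourhoods onto neighbourhoods. -/
theorem ap_map {Y : Type} [Dyn Y] (f : X → Y) (hf : ∀ b x, f (e b x) = e b (f x))
    (u : List Bool) (x : X) : f (ap u x) = ap u (f x) := by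
  induction u generalizing x with
  | nil => rfl
  | cons b u ih => rw [ap_cons, ap_cons, ih, hf]

theorem σ_map {Y : Type} [Dyn Y] (f : X → Y) (hf : ∀ b x, f (e b x) = e b (f x)) (x : X) :
    f (σ x) = σ (f x) := by
  obtain ⟨b, hb⟩ := surj x
  conv_rhs => rw [← hb]
  rw [hf, σ_e]

theorem σ_iter_map {Y : Type} [Dyn Y] (f : X → Y) (hf : ∀ b x, f (e b x) = e b (f x)) (k : ℕ)
    (x : X) : f (σ^[k] x) = σ^[k] (f x) := by
  induction k generalizing x with
  | zero => rfl
  | succ k ih => rw [Function.iterate_succ_apply, Function.iterate_succ_apply, ih, σ_map f hf]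

end Dyn

open Dyn

/-- The basic example. -/
instance : Dyn ℕ where
  e := Nat.bit
  σ := fun n => n / 2
  σ_e := fun b n => by cases b <;> simp [Nat.bit] <;> omega
  surj := fun n => by
    rcases Nat.even_or_odd' n with ⟨k, rfl | rfl⟩
    · exact ⟨false, by simp [Nat.bit]⟩
    · exact ⟨true, by simp [Nat.bit]; omega⟩
  disj := fun x y => by simp [Nat.bit]; omega

theorem e_false (n : ℕ) : (e false n : ℕ) = 2 * n := rfl

theorem e_true (n : ℕ) : (e true n : ℕ) = 2 * n + 1 := rfl

theorem σ_nat (n : ℕ) : (σ n : ℕ) = n / 2 := rfl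

theorem e_nat (b : Bool) (n : ℕ) : (e b n : ℕ) = 2 * n + b.toNat := by
  cases b <;> simp [e_false, e_true]

end Pool.Agent.Work.MP_e5cb06_gt
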